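import Pool.Agent.Lib.MP_b2f51a_al.Rep
import Pool.Agent.Lib.MP_b2f51a_al.Kostant

/-! Kostant's commutation formula on modules over the Kostant form. -/

noncomputable section

namespace Pool.Agent.Lib.MP_b2f51a_al

open Finset

lemma UZ_ext {u v : UZ} (h : u.1 = v.1) : u = v := Subtype.ext h

lemma UZ_mul (u v : UZ) : (u * v).1 = u.1 * v.1 := rfl

lemma UZ_add (u v : UZ) : (u + v).1 = u.1 + v.1 := rfl

lemma UZ_neg (u : UZ) : (-u).1 = -u.1 := rfl

lemma UZ_one : (1 : UZ).1 = 1 := rfl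

lemma UZ_zero : (0 : UZ).1 = 0 := rfl

lemma UZ_nsmul (c : ℕ) (u : UZ) : (c • u).1 = c • u.1 := rfl

lemma UZ_zsmul (c : ℤ) (u : UZ) : (c • u).1 = c • u.1 := rfl

lemma UZ_sum {ι : Type*} (s : Finset ι) (u : ι → UZ) : (∑ i ∈ s, u i).1 = ∑ i ∈ s, (u i).1 :=
  map_sum kostantForm.subtype u s

lemma eZ_zero (i : Fin 2) : eZ i 0 = 1 := UZ_ext (dpow_zero _)

lemma fZ_zero (i : Fin 2) : fZ i 0 = 1 := UZ_ext (dpow_zero _)

namespace Kost

section gen

variable {A : Type*} [Ring A] [Algebra ℂ A]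

lemma dmul (x : A) (a b : ℕ) : dpow x a * dpow x b = (a + b).choose a • dpow x (a + b) := by
  rw [dpow_mul_dpow, Nat.cast_smul_eq_nsmul]

lemma dcomm {x y : A} (hxy : cm x y = 0) (a b : ℕ) :
    dpow x a * dpow y b = dpow y b * dpow x a := by
  have h1 : Commute x y := sub_eq_zero.1 hxy
  exact (((h1.pow_pow a b).smul_left _).smul_right _).eq

lemma aeval_semi {x y X : A} (hX : x * X = X * y) (p : Polynomial ℂ) :
    Polynomial.aeval x p * X = X * Polynomial.aeval y p := by
  have h1 : ∀ n : ℕ, x ^ n * X = X * y ^ n := fun n => (SemiconjBy.pow_right hX.symm n).symm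
  induction p using Polynomial.induction_on' with
  | add p q hp hq => simp only [map_add, add_mul, mul_add, hp, hq]
  | monomial n a =>
    simp only [Polynomial.aeval_monomial, ← Algebra.smul_def, smul_mul_assoc, mul_smul_comm, h1]

lemma binom_semi {x y X : A} (hX : x * X = X * y) (t : ℕ) : binom x t * X = X * binom y t := by
  simp only [binom, smul_mul_assoc, mul_smul_comm, aeval_semi hX]

lemma binom_zero (x : A) : binom x 0 = 1 := by simp [binom]

lemma binom_succ (x : A) (t : ℕ) :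
    ((t : ℂ) + 1) • binom x (t + 1) = x * binom x t - (t : ℂ) • binom x t := by
  have h1 : ((t : ℂ) + 1) ≠ 0 := by exact_mod_cast Nat.succ_ne_zero t
  have h2 : ((t : ℂ) + 1) * (((t + 1).factorial : ℕ) : ℂ)⁻¹ = (t.factorial : ℂ)⁻¹ := by
    rw [Nat.factorial_succ]; push_cast; field_simp
  rw [binom, smul_smul, h2, descPochhammer_succ_right, map_mul, map_sub, Polynomial.aeval_X,
    map_natCast, mul_sub, aeval_semi rfl, ← Nat.cast_comm, ← nsmul_eq_mul,
    ← Nat.cast_smul_eq_nsmul ℂ, binom, mul_smul_comm]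
  module

lemma binom_pascal (x : A) (t : ℕ) : binom (x + 1) (t + 1) = binom x t + binom x (t + 1) := by
  have h1 : ((t : ℂ) + 1) ≠ 0 := by exact_mod_cast Nat.succ_ne_zero t
  have h2 : ((t : ℂ) + 1) * (((t + 1).factorial : ℕ) : ℂ)⁻¹ = (t.factorial : ℂ)⁻¹ := by
    rw [Nat.factorial_succ]; push_cast; field_simp
  apply smul_right_injective A h1
  simp only
  rw [smul_add, binom_succ x, binom, smul_smul, h2, descPochhammer_succ_left, map_mul,
    Polynomial.aeval_X, Polynomial.aeval_comp, map_sub, Polynomial.aeval_X, map_one,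
    add_sub_cancel_right, add_mul, one_mul, binom, mul_smul_comm]
  module

/-- Shifted binomial elements. -/
def bs (x : A) (c : ℤ) (t : ℕ) : A := binom (x + (c : ℂ) • 1) t

lemma bs_zero (x : A) (c : ℤ) : bs x c 0 = 1 := binom_zero _

lemma bs_base (x : A) (t : ℕ) : bs x 0 t = binom x t := by simp [bs]

lemma bs_pascal (x : A) (c : ℤ) (t : ℕ) : bs x (c + 1) (t + 1) = bs x c t + bs x c (t + 1) := by
  rw [bs, bs, bs, ← binom_pascal]
  congr 1
  push_cast
  module

lemma bs_succ (x : A) (c : ℤ) (t : ℕ) :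
    ((t : ℂ) + 1) • bs x c (t + 1) = x * bs x c t + ((c : ℂ) - t) • bs x c t := by
  rw [bs, binom_succ, add_mul, smul_mul_assoc, one_mul, bs]
  module

lemma h_dpow {x X : A} {c : ℂ} (hX : cm x X = c • X) (k : ℕ) :
    x * dpow X k = dpow X k * x + (k * c) • dpow X k := by
  have h0 : x * X = X * x + c • X := by rw [← hX, cm]; abel
  have h1 : x * X ^ k = X ^ k * x + (k * c) • X ^ k := by
    induction k with
    | zero => simp
    | succ k ih =>
      rw [pow_succ', ← mul_assoc, h0, add_mul, mul_assoc, ih, mul_add, mul_assoc]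
      simp only [smul_mul_assoc, mul_smul_comm]
      push_cast
      module
  simp only [dpow, smul_mul_assoc, mul_smul_comm, h1]
  module

lemma binom_dpow {x X : A} {c : ℤ} (hX : cm x X = (c : ℂ) • X) (k t : ℕ) :
    binom x t * dpow X k = dpow X k * bs x (k * c) t := by
  refine binom_semi ?_ t
  rw [h_dpow hX, mul_add, mul_smul_comm, mul_one]
  push_cast
  rfl

/-- Divided power with integer exponent. -/
def dv (X : A) (k : ℤ) : A := if k < 0 then 0 else dpow X k.toNat

lemma dv_natCast (X : A) (k : ℕ) : dv X k = dpow X k := by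
  have : ¬ (k : ℤ) < 0 := by omega
  simp [dv, this]

variable {e f h : A} (hef : cm e f = h) (hf : cm h f = (-2 : ℂ) • f) (he : cm h e = (2 : ℂ) • e)

include hef hf in
lemma e_dpow (b : ℕ) :
    e * dpow f (b + 1) = dpow f (b + 1) * e + dpow f b * h - (b : ℂ) • dpow f b := by
  have k : e * f = f * e + h := by rw [← hef, cm]; abel
  induction b with
  | zero => simp [k]
  | succ b ih =>
    have hb : (((b + 1 : ℕ) : ℂ) + 1) ≠ 0 := by exact_mod_cast (by omega : b + 1 + 1 ≠ 0)
    apply smul_right_injective A hb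
    simp only
    rw [← mul_smul_comm, ← mul_dpow, ← mul_assoc, k, add_mul, mul_assoc, ih, h_dpow hf, mul_sub,
      mul_add, ← mul_assoc, ← mul_assoc, mul_smul_comm, mul_dpow, mul_dpow]
    simp only [smul_mul_assoc]
    push_cast
    module

include hef hf in
lemma e_dv (b : ℤ) :
    e * dv f b = dv f b * e + dv f (b - 1) * h - ((b : ℂ) - 1) • dv f (b - 1) := by
  rcases lt_trichotomy b 0 with hb | hb | hb
  · have : b - 1 < 0 := by omega
    simp [dv, hb, this]
  · subst hb; simp [dv]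
  · obtain ⟨k, rfl⟩ : ∃ k : ℕ, b = (k + 1 : ℕ) := ⟨(b - 1).toNat, by omega⟩
    have : ((k + 1 : ℕ) : ℤ) - 1 = k := by omega
    rw [this, dv_natCast, dv_natCast, e_dpow hef hf]
    push_cast; congr 2; ring

include hef hf he in
theorem kostantA (a : ℕ) (b : ℤ) : dpow e a * dv f b =
    ∑ t ∈ range (a + 1), dv f (b - t) * dpow e (a - t) * bs h (a - b) t := by
  induction a with
  | zero => simp [bs_zero]
  | succ a ih =>
    have ha : ((a : ℂ) + 1) ≠ 0 := by exact_mod_cast (by omega : a + 1 ≠ 0)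
    apply smul_right_injective A ha
    simp only
    rw [← smul_mul_assoc, ← mul_dpow, mul_assoc, ih, mul_sum]
    set c : ℤ := a - b with hc
    set V : ℕ → A := fun s => dv f (b - s) * dpow e (a + 1 - s) with hV
    have h1 : ∀ t ∈ range (a + 1), e * (dv f (b - t) * dpow e (a - t) * bs h c t) =
        ((a : ℂ) + 1 - t) • (V t * bs h c t) + (V (t + 1) * (h * bs h c t) +
          ((c : ℂ) + a - t + 1) • (V (t + 1) * bs h c t)) := by
      intro t ht
      have ht' : t ≤ a := by simpa [Nat.lt_succ_iff] using ht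
      rw [← mul_assoc, ← mul_assoc, e_dv hef hf, sub_mul, add_mul, mul_assoc _ e, mul_dpow,
        mul_assoc _ h, h_dpow he]
      simp only [hV]
      rw [show a + 1 - t = a - t + 1 by omega, show a + 1 - (t + 1) = a - t by omega,
        show b - ((t + 1 : ℕ) : ℤ) = b - t - 1 by push_cast; ring, Nat.cast_sub ht', hc]
      simp only [sub_mul, add_mul, mul_add, smul_mul_assoc, mul_smul_comm, mul_assoc]
      push_cast
      module
    rw [sum_congr rfl h1, sum_add_distrib, sum_range_succ' _ (a + 1),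
      show ((a + 1 : ℕ) : ℤ) - b = c + 1 by push_cast; omega]
    have h2 : ∑ t ∈ range (a + 1), ((a : ℂ) + 1 - t) • (V t * bs h c t) =
        ∑ t ∈ range (a + 1), ((a : ℂ) - t) • (V (t + 1) * bs h c (t + 1)) +
          ((a : ℂ) + 1) • V 0 := by
      rw [sum_range_succ', sum_range_succ _ a]
      simp only [sub_self, zero_smul, add_zero, bs_zero, mul_one, Nat.cast_zero, sub_zero]
      congr 1
      refine sum_congr rfl fun t _ => ?_
      push_cast; congr 1; ring
    rw [h2, smul_add, smul_sum, add_right_comm, ← sum_add_distrib]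
    congr 1
    · refine sum_congr rfl fun t _ => ?_
      change _ = ((a : ℂ) + 1) • (V (t + 1) * bs h (c + 1) (t + 1))
      rw [bs_pascal, (eq_sub_of_add_eq (bs_succ h c t).symm : h * bs h c t = _)]
      simp only [mul_sub, mul_add, mul_smul_comm]
      module
    · simp [hV, bs_zero]

include hef hf he in
theorem kostantN (a b : ℕ) : dpow e a * dpow f b =
    ∑ t ∈ range (min a b + 1), dpow f (b - t) * dpow e (a - t) * bs h (a - b) t := by
  rw [← dv_natCast f b, kostantA hef hf he]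
  symm
  refine sum_subset_zero_on_sdiff (range_subset_range.2 (by omega)) (fun t ht => ?_)
    fun t ht => ?_
  · simp only [mem_sdiff, mem_range] at ht
    rw [dv, if_pos (by omega), zero_mul, zero_mul]
  · simp only [mem_range] at ht
    rw [← dv_natCast, Nat.cast_sub (by omega)]

end gen

lemma eq_zero_of_choose {N : Type*} [AddCommGroup N] {z : N} (s : ℕ) :
    ∀ K : ℕ, (∀ a, K ≤ a → (Ring.choose (-((s + 1 : ℕ) : ℤ)) a : ℤ) • z = 0) → z = 0 := by
  induction s with
  | zero =>
    intro K h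
    have : ∀ a, (Ring.choose (-((0 + 1 : ℕ) : ℤ)) a : ℤ) = (-1) ^ a := by
      intro a
      induction a with
      | zero => simp
      | succ a ih =>
        have h1 := Ring.choose_succ_succ (-((0 + 1 : ℕ) : ℤ)) a
        have h2 : Ring.choose (-((0 + 1 : ℕ) : ℤ) + 1) (a + 1) = 0 := by simp
        rw [h2, ih] at h1
        rw [pow_succ]; linear_combination -h1
    have h3 := h K le_rfl
    rw [this] at h3
    rcases neg_one_pow_eq_or ℤ K with h4 | h4 <;> simpa [h4] using h3
  | succ s ih =>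
    intro K h
    refine ih (K + 1) fun a ha => ?_
    obtain ⟨a, rfl⟩ : ∃ a', a = a' + 1 := ⟨a - 1, by omega⟩
    rw [show (-((s + 1 : ℕ) : ℤ)) = -((s + 1 + 1 : ℕ) : ℤ) + 1 by push_cast; ring,
      Ring.choose_succ_succ, add_smul, h a (by omega), h (a + 1) (by omega), add_zero]

end Kost

lemma eZ_mul (i : Fin 2) (a b : ℕ) : eZ i a * eZ i b = (a + b).choose a • eZ i (a + b) :=
  UZ_ext (Kost.dmul (e i) a b)

lemma fZ_mul (i : Fin 2) (a b : ℕ) : fZ i a * fZ i b = (a + b).choose a • fZ i (a + b) :=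
  UZ_ext (Kost.dmul (f i) a b)

lemma eZ_fZ_comm {i j : Fin 2} (hij : i ≠ j) (a b : ℕ) : eZ i a * fZ j b = fZ j b * eZ i a :=
  UZ_ext (Kost.dcomm ((ef_U i j).trans (if_neg hij)) a b)

/-- Induction principle for the Kostant form. -/
lemma UZ_ind {p : UZ → Prop} (he : ∀ i k, p (eZ i k)) (hf : ∀ i k, p (fZ i k))
    (hh : ∀ i k, p (hZ i k)) (h0 : p 0) (h1 : p 1) (hadd : ∀ u v, p u → p v → p (u + v))
    (hneg : ∀ u, p u → p (-u)) (hmul : ∀ u v, p u → p v → p (u * v)) (u : UZ) : p u := by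
  obtain ⟨u, hu⟩ := u
  induction hu using Subring.closure_induction with
  | mem x hx =>
    obtain ⟨i, k, rfl | rfl | rfl⟩ := hx
    exacts [he i k, hf i k, hh i k]
  | zero => exact h0
  | one => exact h1
  | add x y _ _ hx hy => exact hadd _ _ hx hy
  | neg x _ hx => exact hneg _ hx
  | mul x y _ _ hx hy => exact hmul _ _ hx hy

variable {N : Type*} [AddCommGroup N] [Module UZ N]

variable (N) in
/-- Integrable modules over the Kostant form. -/
def IntZ : Prop := ∀ (x : N) (i : Fin 2), ∃ K : ℕ, ∀ k, K ≤ k → eZ i k • x = 0 ∧ fZ i k • x = 0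

/-- Weight vectors in a module over the Kostant form. -/
def WtZ (mu : Fin 2 → ℤ) (x : N) : Prop :=
  ∀ i k, hZ i k • x = (Ring.choose (mu i) k : ℤ) • x

/-- Highest weight vectors in a module over the Kostant form. -/
structure HwZ (mu : Fin 2 → ℤ) (x : N) : Prop where
  wt : WtZ mu x
  e : ∀ i a, 0 < a → eZ i a • x = 0

lemma UZ_mul_smul (u v : UZ) (x : N) : (u * v) • x = u • v • x := (smul_smul u v x).symm

lemma WtZ.exists_bs {mu : Fin 2 → ℤ} {x : N} (hx : WtZ mu x) (i : Fin 2) (c : ℤ) :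
    ∀ t, ∃ u : UZ, u.1 = Kost.bs (h i) c t ∧ u • x = (Ring.choose (mu i + c) t : ℤ) • x := by
  have h0 : ∀ c : ℤ, ∃ u : UZ, u.1 = Kost.bs (h i) c 0 ∧
      u • x = (Ring.choose (mu i + c) 0 : ℤ) • x := fun c =>
    ⟨1, (Kost.bs_zero _ _).symm, by rw [Ring.choose_zero_right, one_smul, one_smul]⟩
  induction c using Int.induction_on with
  | zero => exact fun t => ⟨hZ i t, (Kost.bs_base _ _).symm, by rw [add_zero, hx i t]⟩
  | succ c ih =>
    rintro (_ | t)
    · exact h0 _
    · obtain ⟨u, hu, hu'⟩ := ih t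
      obtain ⟨v, hv, hv'⟩ := ih (t + 1)
      exact ⟨u + v, by rw [UZ_add, hu, hv, Kost.bs_pascal],
        by rw [add_smul, hu', hv', ← add_assoc, Ring.choose_succ_succ, add_smul]⟩
  | pred c ih =>
    intro t
    induction t with
    | zero => exact h0 _
    | succ t iht =>
      obtain ⟨u, hu, hu'⟩ := iht
      obtain ⟨v, hv, hv'⟩ := ih (t + 1)
      have e1 := Kost.bs_pascal (h i) (-(c : ℤ) - 1) t
      have e2 := Ring.choose_succ_succ (mu i + (-(c : ℤ) - 1)) t
      rw [sub_add_cancel] at e1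
      rw [add_assoc, sub_add_cancel] at e2
      exact ⟨-u + v, by rw [UZ_add, UZ_neg, hu, hv, e1, neg_add_cancel_left],
        by rw [add_smul, neg_smul, hu', hv', e2, add_smul, neg_add_cancel_left]⟩

lemma WtZ.f {mu : Fin 2 → ℤ} {x : N} (hx : WtZ mu x) (j : Fin 2) (k : ℕ) :
    WtZ (fun i => mu i - k * cartan i j) (fZ j k • x) := by
  intro i t
  obtain ⟨u, hu, hu'⟩ := hx.exists_bs i (k * -cartan i j) t
  have h1 : hZ i t * fZ j k = fZ j k * u := UZ_ext (by
    rw [UZ_mul, UZ_mul, hu]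
    exact Kost.binom_dpow ((hf_U i j).trans (by rw [Int.cast_neg])) k t)
  rw [← UZ_mul_smul, h1, UZ_mul_smul, hu', smul_comm, mul_neg, ← sub_eq_add_neg]

lemma WtZ.e {mu : Fin 2 → ℤ} {x : N} (hx : WtZ mu x) (j : Fin 2) (k : ℕ) :
    WtZ (fun i => mu i + k * cartan i j) (eZ j k • x) := by
  intro i t
  obtain ⟨u, hu, hu'⟩ := hx.exists_bs i (k * cartan i j) t
  have h1 : hZ i t * eZ j k = eZ j k * u := UZ_ext (by
    rw [UZ_mul, UZ_mul, hu]
    exact Kost.binom_dpow (he_U i j) k t)
  rw [← UZ_mul_smul, h1, UZ_mul_smul, hu', smul_comm]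

theorem kostantZ {mu : Fin 2 → ℤ} {x : N} (hx : WtZ mu x) (i : Fin 2) (a b : ℕ) :
    eZ i a • fZ i b • x = ∑ t ∈ range (min a b + 1),
      (Ring.choose (mu i + a - b) t : ℤ) • fZ i (b - t) • eZ i (a - t) • x := by
  choose u hu hu' using hx.exists_bs i (a - b)
  have hc : cartan i i = 2 := by fin_cases i <;> rfl
  have h1 : eZ i a * fZ i b = ∑ t ∈ range (min a b + 1), fZ i (b - t) * eZ i (a - t) * u t :=
    UZ_ext (by
      simp only [UZ_sum, UZ_mul, hu]
      exact Kost.kostantN ((ef_U i i).trans (if_pos rfl))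
        ((hf_U i i).trans (by rw [hc, Int.cast_ofNat]))
        ((he_U i i).trans (by rw [hc, Int.cast_ofNat])) a b)
  rw [← mul_smul, h1, sum_smul]
  refine sum_congr rfl fun t _ => ?_
  rw [UZ_mul_smul, UZ_mul_smul, hu', smul_comm (eZ i (a - t)), smul_comm (fZ i (b - t)),
    add_sub_assoc]

/-- A singular vector of weight `m` is killed by `f^{(k)}`, `k > m`. -/
theorem fZ_eq_zero {mu : Fin 2 → ℤ} {y : N} {i : Fin 2}
    (hN : ∃ K : ℕ, ∀ k, K ≤ k → fZ i k • y = 0) (hy : WtZ mu y)
    (hs : ∀ a, 0 < a → eZ i a • y = 0) (k : ℕ) (hk : mu i < k) : fZ i k • y = 0 := by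
  obtain ⟨K, hK⟩ := hN
  obtain ⟨s, hs'⟩ : ∃ s : ℕ, mu i - k = -(s + 1 : ℕ) := ⟨(k - mu i - 1).toNat, by omega⟩
  refine Kost.eq_zero_of_choose s K fun a ha => ?_
  have h1 := kostantZ hy i a (k + a)
  rw [hK _ (by omega), smul_zero, min_eq_left (by omega), sum_range_succ,
    show mu i + a - ((k + a : ℕ) : ℤ) = -(s + 1 : ℕ) by push_cast at hs' ⊢; omega,
    Nat.add_sub_cancel, Nat.sub_self, eZ_zero, one_smul, sum_eq_zero fun t ht => by
      rw [hs _ (by simp at ht; omega), smul_zero, smul_zero], zero_add] at h1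
  exact h1.symm

end Pool.Agent.Lib.MP_b2f51a_al
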