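import Pool.Agent.Lib.MP_b2f51a_al.Split.VacL
import Pool.Agent.Lib.MP_b2f51a_al.Split.Kost
import Pool.Agent.Lib.MP_b2f51a_al.Base

/-! The irreducible modules of level `l`: integrability and independence of Gordon monomials. -/

noncomputable section

namespace Pool.Agent.Lib.MP_b2f51a_al

theorem L_int {l n : ℕ} (hn : n ≤ l) : IntZ (L (wt l n)) := by
  obtain ⟨Φ, h1, -, h3⟩ := Lv.exists_embed (Lv.hw_nu hn) (Lv.ip_bv_self _)
  intro x i
  obtain ⟨a, ha⟩ := (Lv.fockRep l).nil_e i (Φ x)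
  obtain ⟨b, hb⟩ := (Lv.fockRep l).nil_f i (Φ x)
  refine ⟨a + b, fun k hk => ⟨h3 ?_, h3 ?_⟩⟩
  · change Φ (dpow (e i) k • x) = Φ 0
    rw [h1, map_dpow, LoopRep.rho_e, dpow_apply_eq_zero ha (by omega), map_zero]
  · change Φ (dpow (f i) k • x) = Φ 0
    rw [h1, map_dpow, LoopRep.rho_f, dpow_apply_eq_zero hb (by omega), map_zero]

theorem L_indep {l n : ℕ} (hn : n ≤ l) : LinearIndependent ℂ
    (fun b : {b // GordonL l n b} => curU (dm b.1) • hwv (wt l n)) := by
  obtain ⟨Φ, h1, h2, -⟩ := Lv.exists_embed (Lv.hw_nu hn) (Lv.ip_bv_self _)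
  refine LinearIndependent.of_comp Φ ?_
  have := Lv.gordon_indep l n
  convert this using 1
  funext b
  simp only [Function.comp, h1, h2, rho_curU]

end Pool.Agent.Lib.MP_b2f51a_al
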