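import Pool.Agent.Lib.MP_b2f51a_al.Split.Dem
import Pool.Agent.Lib.MP_b2f51a_al.Split.IrrL

/-! The universal property of Weyl modules. -/

noncomputable section

namespace Pool.Agent.Lib.MP_b2f51a_al

universe u

lemma hwZ_hwv (lam : Fin 2 → ℤ) : HwZ lam (hwv lam) where
  wt i k := by
    have h3 := binom_apply ((hw_L lam).h i) k
    rw [← map_binom, ch, Int.cast_smul_eq_zsmul] at h3
    exact h3
  e i a ha := by
    obtain ⟨a, rfl⟩ : ∃ b, a = b + 1 := ⟨a - 1, by omega⟩
    change act (L lam) (dpow (e i) (a + 1)) (hwv lam) = 0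
    rw [map_dpow, dpow, pow_succ, LinearMap.smul_apply, Module.End.mul_apply, (hw_L lam).e,
      map_zero, smul_zero]

theorem univ {N : Type*} [AddCommGroup N] [Module UZ N] (hN : IntZ N) {l n : ℕ} (hn : n ≤ l)
    {y : N} (hy : HwZ (wt l n) y) (u : UZ) (hu : u • hwv (wt l n) = 0) : u • y = 0 := by
  have hv := hwZ_hwv (wt l n)
  have h1 : IntZ (N × L (wt l n)) := by
    intro x i
    obtain ⟨a, ha⟩ := hN x.1 i
    obtain ⟨b, hb⟩ := L_int hn x.2 i
    exact ⟨a + b, fun k hk => ⟨Prod.ext (ha k (by omega)).1 (hb k (by omega)).1,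
      Prod.ext (ha k (by omega)).2 (hb k (by omega)).2⟩⟩
  have h2 : HwZ (wt l n) (y, hwv (wt l n)) :=
    ⟨fun i k => Prod.ext (hy.wt i k) (hv.wt i k),
      fun i a ha => Prod.ext (hy.e i a ha) (hv.e i a ha)⟩
  have h3 := keyZ h1 h2 (LinearMap.ker (LinearMap.snd UZ N (L (wt l n)))) ?_ u hu
  · exact congrArg Prod.fst h3
  intro x hx hK
  have hP : x ∈ Submodule.span ℤ (Set.range
      fun b : {b // GordonL l n b} => dmZ b.1 • (y, hwv (wt l n))) := by
    have : AddSubgroup.closure {x | ∃ b, GordonL l n b ∧ x = dmZ b • (y, hwv (wt l n))} ≤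
        (Submodule.span ℤ (Set.range
          fun b : {b // GordonL l n b} => dmZ b.1 • (y, hwv (wt l n)))).toAddSubgroup := by
      rw [AddSubgroup.closure_le]
      rintro _ ⟨b, hb, rfl⟩
      exact Submodule.subset_span ⟨⟨b, hb⟩, rfl⟩
    exact this hx
  obtain ⟨c, rfl⟩ := Finsupp.mem_span_range_iff_exists_finsupp.1 hP
  have h4 : c = 0 := by
    refine linearIndependent_iff.1 ((L_indep hn).restrict_scalars' ℤ) c ?_
    have h5 : (AddMonoidHom.snd N (L (wt l n))) _ = 0 := hK
    rw [map_finsuppSum] at h5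
    rw [Finsupp.linearCombination_apply, ← h5]
    rfl
  simp [h4]

variable {F : Type u} [Field F]

/-- Restriction of scalars from the hyperalgebra to the Kostant form. -/
def toUF (F : Type u) [Field F] : UZ →+* UF F where
  toFun u := tens 1 u
  map_one' := rfl
  map_mul' u v := by rw [tens_mul, one_mul]
  map_zero' := TensorProduct.tmul_zero _ _
  map_add' u v := TensorProduct.tmul_add _ _ _

/-- A module over the hyperalgebra as a module over the Kostant form. -/
abbrev resZ (F : Type u) [Field F] (E : Type u) [AddCommGroup E] [Module (UF F) E] :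
    Module UZ E := Module.compHom E (toUF F)

/-- The generator of the lattice. -/
def vZ (lam : Fin 2 → ℤ) : VZ lam := ⟨hwv lam, Submodule.mem_span_singleton_self _⟩

lemma weylGen_eq (lam : Fin 2 → ℤ) : weylGen F lam = tm F 1 (vZ lam) := rfl

lemma exists_smul_vZ {lam : Fin 2 → ℤ} (x : VZ lam) : ∃ u : UZ, u • vZ lam = x := by
  obtain ⟨u, hu⟩ := Submodule.mem_span_singleton.1 x.2
  exact ⟨u, Subtype.ext hu⟩

lemma weylGen_wt (lam : Fin 2 → ℤ) : IsWeightVector F lam (weylGen F lam) := by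
  intro i k
  have h1 : hZ i k • vZ lam = (Ring.choose (lam i) k : ℤ) • vZ lam :=
    Subtype.ext ((hwZ_hwv lam).wt i k)
  exact (one_smul_tm F 1 _ (vZ lam)).trans ((congrArg _ h1).trans (tm_zsmul F 1 _ _))

lemma weylGen_e (lam : Fin 2 → ℤ) (i : Fin 2) (a : ℕ) (ha : 0 < a) :
    tens (1 : F) (eZ i a) • weylGen F lam = 0 := by
  have h1 : eZ i a • vZ lam = 0 := Subtype.ext ((hwZ_hwv lam).e i a ha)
  exact (one_smul_tm F 1 _ (vZ lam)).trans ((congrArg _ h1).trans (tm_zero F 1))

lemma weyl_span (lam : Fin 2 → ℤ) (x : Weyl F lam) : ∃ u : UF F, u • weylGen F lam = x := by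
  refine be_ind (M := VZ lam) (p := fun x : Weyl F lam => ∃ u : UF F, u • weylGen F lam = x)
    ⟨0, zero_smul _ _⟩ (fun a m => ?_) ?_ x
  · obtain ⟨u, rfl⟩ := exists_smul_vZ m
    exact ⟨tens a u, (smul_tm F a 1 u (vZ lam)).trans (by rw [mul_one])⟩
  · rintro _ _ ⟨u, rfl⟩ ⟨v, rfl⟩
    exact ⟨u + v, add_smul _ _ _⟩

theorem exists_lift {E : Type u} [AddCommGroup E] [Module (UF F) E]
    (hE : ∀ (x : E) (i : Fin 2), ∃ K : ℕ, ∀ k, K ≤ k →
      tens (1 : F) (eZ i k) • x = 0 ∧ tens (1 : F) (fZ i k) • x = 0)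
    {l n : ℕ} (hn : n ≤ l) {y : E} (hy : IsWeightVector F (wt l n) y)
    (hs : ∀ i a, 0 < a → tens (1 : F) (eZ i a) • y = 0) :
    ∃ s : Weyl F (wt l n) →ₗ[UF F] E, s (weylGen F (wt l n)) = y := by
  let _ := resZ F E
  have h1 : ∀ u : UZ, u • vZ (wt l n) = 0 → u • y = 0 := fun u hu =>
    univ hE hn ⟨hy, hs⟩ u (congrArg Subtype.val hu)
  choose σ hσ using exists_smul_vZ (lam := wt l n)
  have h2 : ∀ u : UZ, σ (u • vZ (wt l n)) • y = u • y := by
    intro u
    rw [← sub_eq_zero, ← sub_smul]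
    exact h1 _ (by rw [sub_smul, hσ, sub_self])
  let ψ : VZ (wt l n) →+ E := AddMonoidHom.mk' (fun x => σ x • y) fun x x' => by
    conv_lhs => rw [← hσ x, ← hσ x', ← add_smul, h2, add_smul]
  have h3 : ∀ (u : UZ) x, ψ (u • x) = tens (1 : F) u • ψ x := by
    intro u x
    change σ (u • x) • y = u • σ x • y
    conv_lhs => rw [← hσ x, smul_smul, h2, ← smul_smul]
  let β : F →+ VZ (wt l n) →+ E := AddMonoidHom.mk'
    (fun a => (DistribSMul.toAddMonoidHom E (tens a (1 : UZ))).comp ψ) fun a b => by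
      ext x
      exact (congrArg (fun c : UF F => c • ψ x) (TensorProduct.add_tmul a b (1 : UZ))).trans
        (add_smul _ _ _)
  let s0 : BaseExt F (VZ (wt l n)) →+ E := TensorProduct.liftAddHom (R := ℤ) β fun r a x => by
    rw [map_zsmul, map_zsmul]; rfl
  have h4 : ∀ a x, s0 (tm F a x) = tens a (1 : UZ) • ψ x := fun _ _ => rfl
  refine ⟨{ toFun := s0, map_add' := map_add s0, map_smul' := fun c x => ?_ }, ?_⟩
  · change s0 (c • (show BaseExt F (VZ (wt l n)) from x)) = c • s0 x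
    induction c using uf_ind with
    | h0 => rw [zero_smul, zero_smul, map_zero]
    | hadd c c' h h' => rw [add_smul, add_smul, map_add, h, h']
    | ht a u =>
      refine be_ind (M := VZ (wt l n)) (p := fun x => s0 (tens a u • x) = tens a u • s0 x)
        ?_ (fun b m => ?_) (fun x y h h' => ?_) x
      · rw [smul_zero, map_zero, smul_zero]
      · rw [smul_tm, h4, h4, h3, smul_smul, smul_smul, tens_mul, tens_mul, mul_one, mul_one,
          one_mul]
      · rw [smul_add, map_add, map_add, h, h', smul_add]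
  · change s0 (tm F 1 (vZ (wt l n))) = y
    rw [h4]
    refine (one_smul (UF F) _).trans ?_
    have := h2 1
    rwa [one_smul, one_smul] at this

end Pool.Agent.Lib.MP_b2f51a_al
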