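import Pool.Agent.Lib.MP_b2f51a_al.Rep

/-! The adjoint action and the braid group automorphisms of the enveloping algebra. -/

noncomputable section

namespace Pool.Agent.Lib.MP_b2f51a_al

open Finset

section gen

variable {A : Type*} [Ring A] [Algebra ℂ A]

/-- The adjoint action. -/
def adU (x : A) : Module.End ℂ A := LinearMap.mulLeft ℂ x - LinearMap.mulRight ℂ x

lemma adU_apply (x u : A) : adU x u = cm x u := rfl

lemma adU_neg (x : A) : adU (-x) = -adU x := by
  ext u; simp [adU_apply]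

/-- `ad x` is locally nilpotent. -/
def AdNil (x : A) : Prop := LocNil (adU x)

lemma dpow_add_comm {a b : A} (h : Commute a b) (k : ℕ) :
    dpow (a + b) k = ∑ p ∈ antidiagonal k, dpow a p.1 * dpow b p.2 := by
  rw [dpow, h.add_pow', smul_sum]
  refine sum_congr rfl fun p hp => ?_
  have hk : p.1 + p.2 = k := HasAntidiagonal.mem_antidiagonal.1 hp
  have h1 : (p.1.factorial : ℂ) ≠ 0 := by exact_mod_cast Nat.factorial_ne_zero _
  have h2 : (p.2.factorial : ℂ) ≠ 0 := by exact_mod_cast Nat.factorial_ne_zero _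
  have h3 : (k.factorial : ℂ) ≠ 0 := by exact_mod_cast Nat.factorial_ne_zero _
  have h4 : ((k.choose p.1 : ℕ) : ℂ) * p.1.factorial * p.2.factorial = k.factorial := by
    have := Nat.add_choose_mul_factorial_mul_factorial p.1 p.2
    rw [← Nat.choose_symm_add, hk] at this
    exact_mod_cast this
  simp only [dpow, smul_mul_smul_comm, ← Nat.cast_smul_eq_nsmul ℂ, smul_smul]
  congr 1
  field_simp
  rw [← h4]

lemma dpow_mulLeft (x u : A) (k : ℕ) : dpow (LinearMap.mulLeft ℂ x) k u = dpow x k * u := by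
  simp [dpow, LinearMap.pow_mulLeft]

lemma dpow_mulRight (x u : A) (k : ℕ) : dpow (LinearMap.mulRight ℂ x) k u = u * dpow x k := by
  simp [dpow, LinearMap.pow_mulRight]

lemma comm_LR (x : A) : Commute (LinearMap.mulLeft ℂ x) (LinearMap.mulRight ℂ x) := by
  ext u; simp [mul_assoc]

lemma dpow_mul_eq (x u : A) (k : ℕ) :
    dpow x k * u = ∑ p ∈ antidiagonal k, dpow (adU x) p.1 u * dpow x p.2 := by
  have h1 : LinearMap.mulLeft ℂ x = LinearMap.mulRight ℂ x + adU x := by simp [adU]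
  have h2 : Commute (LinearMap.mulRight ℂ x) (adU x) :=
    (comm_LR x).symm.sub_right (Commute.refl _)
  rw [← dpow_mulLeft, h1, dpow_add_comm h2, LinearMap.sum_apply,
    ← Finset.Nat.sum_antidiagonal_swap]
  exact sum_congr rfl fun p _ => by rw [Module.End.mul_apply, dpow_mulRight]; rfl

lemma dpow_neg_eq (x : A) (k : ℕ) : dpow (-x) k = (-1) ^ k * dpow x k := by
  rw [dpow_neg]
  rcases Nat.even_or_odd k with h' | h' <;> simp [h'.neg_one_pow]

lemma dpow_neg_mem (S : Subring A) {x : A} (hx : ∀ k, dpow x k ∈ S) (k : ℕ) :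
    dpow (-x) k ∈ S := by
  rw [dpow_neg_eq]
  exact S.mul_mem (S.pow_mem (S.neg_mem S.one_mem) k) (hx k)

lemma dpow_adU_mem (S : Subring A) {x u : A} (hx : ∀ k, dpow x k ∈ S) (hu : u ∈ S) (k : ℕ) :
    dpow (adU x) k u ∈ S := by
  have h1 : adU x = LinearMap.mulLeft ℂ x + LinearMap.mulRight ℂ (-x) := by
    ext u; simp [adU_apply, cm, sub_eq_add_neg]
  have h2 : Commute (LinearMap.mulLeft ℂ x) (LinearMap.mulRight ℂ (-x)) := by
    ext u; simp [mul_assoc]
  rw [h1, dpow_add_comm h2, LinearMap.sum_apply]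
  refine S.sum_mem fun p _ => ?_
  rw [Module.End.mul_apply, dpow_mulRight, dpow_mulLeft]
  exact S.mul_mem (hx _) (S.mul_mem hu (dpow_neg_mem S hx _))

lemma dpow_adU_mul (x u v : A) (k : ℕ) : dpow (adU x) k (u * v) =
    ∑ p ∈ antidiagonal k, dpow (adU x) p.1 u * dpow (adU x) p.2 v := by
  have h1 : ∀ (j : ℕ) (u : A), (adU (adU x) ^ j) (LinearMap.mulLeft ℂ u) =
      LinearMap.mulLeft ℂ ((adU x ^ j) u) := by
    intro j
    induction j with
    | zero => intro u; rfl
    | succ j ih =>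
      intro u
      rw [pow_succ, pow_succ, Module.End.mul_apply, Module.End.mul_apply, ← ih]
      congr 1
      ext w
      simp only [adU_apply, cm, LinearMap.sub_apply, Module.End.mul_apply,
        LinearMap.mulLeft_apply]
      noncomm_ring
  have h2 := LinearMap.congr_fun (dpow_mul_eq (adU x) (LinearMap.mulLeft ℂ u) k) v
  rw [Module.End.mul_apply, LinearMap.mulLeft_apply, LinearMap.sum_apply] at h2
  rw [h2]
  refine sum_congr rfl fun p _ => ?_
  rw [Module.End.mul_apply]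
  generalize dpow (adU x) p.2 v = w
  simp [dpow, h1]

lemma pow_adU_mul {x u v : A} {a b : ℕ} (hu : (adU x ^ a) u = 0) (hv : (adU x ^ b) v = 0) :
    (adU x ^ (a + b)) (u * v) = 0 := by
  rw [← factorial_smul_dpow, LinearMap.smul_apply, dpow_adU_mul, sum_eq_zero, smul_zero]
  intro p hp
  have hk : p.1 + p.2 = a + b := HasAntidiagonal.mem_antidiagonal.1 hp
  by_cases h : a ≤ p.1
  · rw [dpow_apply_eq_zero hu h, zero_mul]
  · rw [dpow_apply_eq_zero hv (by omega), mul_zero]

lemma sum_antidiagonal_sq {B : Type*} [AddCommMonoid B] (g : ℕ → ℕ → B) (a b : ℕ)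
    (h : ∀ i j, a ≤ i ∨ b ≤ j → g i j = 0) :
    ∑ k ∈ range (a + b), ∑ p ∈ antidiagonal k, g p.1 p.2 =
      ∑ i ∈ range a, ∑ j ∈ range b, g i j := by
  rw [← sum_product', sum_sigma']
  refine (sum_bij_ne_zero (fun p _ _ => ⟨p.1 + p.2, p⟩) ?_ ?_ ?_ ?_).symm
  · intro p hp _
    simp only [mem_product, mem_range] at hp
    simp only [mem_sigma, mem_range, HasAntidiagonal.mem_antidiagonal, and_true]
    omega
  · intro p _ _ q _ _ hpq
    simp only [Sigma.mk.injEq, heq_eq_eq] at hpq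
    exact hpq.2
  · rintro ⟨k, p⟩ hp hne
    simp only [mem_sigma, mem_range, HasAntidiagonal.mem_antidiagonal] at hp
    refine ⟨p, ?_, hne, by simp [hp.2]⟩
    simp only [mem_product, mem_range]
    by_contra hc
    exact hne (h p.1 p.2 (by omega))
  · intro p _ _; rfl

lemma lexp_adU_mul {x : A} (h : AdNil x) (u v : A) :
    lexp (adU x) (u * v) = lexp (adU x) u * lexp (adU x) v := by
  obtain ⟨a, ha⟩ := h u
  obtain ⟨b, hb⟩ := h v
  rw [lexp_apply h ha, lexp_apply h hb, lexp_apply h (pow_adU_mul ha hb), LinearMap.sum_apply,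
    LinearMap.sum_apply, LinearMap.sum_apply, sum_mul_sum]
  simp only [dpow_adU_mul]
  refine sum_antidiagonal_sq (fun i j => dpow (adU x) i u * dpow (adU x) j v) a b ?_
  rintro i j (hi | hj)
  · rw [dpow_apply_eq_zero ha hi, zero_mul]
  · rw [dpow_apply_eq_zero hb hj, mul_zero]

lemma lexp_adU_one {x : A} (h : AdNil x) : lexp (adU x) 1 = 1 := by
  rw [lexp_apply (N := 1) h (by simp [adU_apply, cm])]
  simp

/-- The automorphism `exp (ad x)`. -/
def expAd (x : A) (h : AdNil x) : A →ₐ[ℂ] A :=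
  AlgHom.ofLinearMap (lexp (adU x)) (lexp_adU_one h) (lexp_adU_mul h)

lemma expAd_apply (x : A) (h : AdNil x) (u : A) : expAd x h u = lexp (adU x) u := rfl

lemma expAd_eq {x : A} (h : AdNil x) (u : A) : ∃ K, (∀ k, K ≤ k → dpow (adU x) k u = 0) ∧
    expAd x h u = ∑ k ∈ range K, dpow (adU x) k u := by
  obtain ⟨a, ha⟩ := h u
  exact ⟨a, fun k hk => dpow_apply_eq_zero ha hk, by
    rw [expAd_apply, lexp_apply h ha, LinearMap.sum_apply]⟩

lemma expAd_mem (S : Subring A) {x : A} (h : AdNil x) (hx : ∀ k, dpow x k ∈ S) {u : A}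
    (hu : u ∈ S) : expAd x h u ∈ S := by
  obtain ⟨K, -, h2⟩ := expAd_eq h u
  rw [h2]
  exact S.sum_mem fun k _ => dpow_adU_mem S hx hu k

/-- The elements on which `ad x` is nilpotent. -/
def nilSub (x : A) : Subalgebra ℂ A where
  carrier := {u | ∃ N, (adU x ^ N) u = 0}
  mul_mem' := fun ⟨_, ha⟩ ⟨_, hb⟩ => ⟨_, pow_adU_mul ha hb⟩
  add_mem' := fun ⟨a, ha⟩ ⟨b, hb⟩ => ⟨a + b, by
    rw [map_add, pow_apply_eq_zero_of_le ha (by omega), pow_apply_eq_zero_of_le hb (by omega),
      add_zero]⟩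
  algebraMap_mem' c := ⟨1, by simp [adU_apply, cm, Algebra.commutes]⟩

lemma mem_nilSub {x u : A} (h : cm x (cm x (cm x u)) = 0) : u ∈ nilSub x :=
  ⟨3, by simpa [pow_succ, adU_apply] using h⟩

lemma adNil_of {x : A} (h : ∀ u, u ∈ nilSub x) : AdNil x := h

lemma AdNil.neg {x : A} (h : AdNil x) : AdNil (-x) := by
  unfold AdNil; rw [adU_neg]; exact LocNil.neg h

lemma expAd_triple {a b X Y Z : A} (ha : AdNil a) (hb : AdNil (-b)) (h1 : cm a X = Y)
    (h2 : cm a Y = (-2 : ℂ) • Z) (h3 : cm a Z = 0) (h4 : cm b X = 0)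
    (h5 : cm b Y = (2 : ℂ) • X) (h6 : cm b Z = -Y) :
    expAd a ha (expAd (-b) hb (expAd a ha X)) = -Z ∧
      expAd a ha (expAd (-b) hb (expAd a ha Z)) = -X := by
  have hb' : AdNil b := by simpa using hb.neg
  have k : ∀ x u : A, adU x * LinearMap.mulLeft ℂ u - LinearMap.mulLeft ℂ u * adU x =
      LinearMap.mulLeft ℂ (cm x u) := by
    intro x u
    ext w
    simp only [adU_apply, cm, LinearMap.sub_apply, Module.End.mul_apply, LinearMap.mulLeft_apply]
    noncomm_ring
  have key := refl_triple (X := LinearMap.mulLeft ℂ X) (Y := LinearMap.mulLeft ℂ Y)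
    (Z := LinearMap.mulLeft ℂ Z) ha hb' (by rw [k, h1]) (by rw [k, h2]; ext; simp)
    (by rw [k, h3]; ext; simp) (by rw [k, h4]; ext; simp) (by rw [k, h5]; ext; simp)
    (by rw [k, h6]; ext; simp)
  have e : ∀ u, expAd a ha (expAd (-b) hb (expAd a ha u)) = refl (adU a) (adU b) u := by
    intro u
    simp only [expAd_apply, refl, Module.End.mul_apply, adU_neg]
  have e1 : refl (adU a) (adU b) 1 = 1 := by rw [← e]; simp
  have k1 := LinearMap.congr_fun key.1 1
  have k2 := LinearMap.congr_fun key.2 1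
  simp only [Module.End.mul_apply, LinearMap.mulLeft_apply, mul_one, e1, LinearMap.neg_apply]
    at k1 k2
  exact ⟨(e X).trans k1, (e Z).trans k2⟩

end gen

attribute [local instance 100] LieRing.ofAssociativeRing

open CartanMatrix in
lemma serre_e_U {i j : Fin 2} (hij : i ≠ j) : cm (e i) (cm (e i) (cm (e i) (e j))) = 0 := by
  have := toU_rel (x := Relations.adE ℂ cartan (i, j)) (by simp [Relations.toSet])
  have h2 : (-cartan i j).toNat = 2 := by fin_cases i <;> fin_cases j <;> simp_all [cartan]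
  simp only [Relations.adE, Function.uncurry, Function.comp, h2, sq, Module.End.mul_apply,
    LieAlgebra.ad_apply, LieHom.map_lie] at this
  exact this

open CartanMatrix in
lemma serre_f_U {i j : Fin 2} (hij : i ≠ j) : cm (f i) (cm (f i) (cm (f i) (f j))) = 0 := by
  have := toU_rel (x := Relations.adF ℂ cartan (i, j)) (by simp [Relations.toSet])
  have h2 : (-cartan i j).toNat = 2 := by fin_cases i <;> fin_cases j <;> simp_all [cartan]
  simp only [Relations.adF, Function.uncurry, Function.comp, h2, sq, Module.End.mul_apply,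
    LieAlgebra.ad_apply, LieHom.map_lie] at this
  exact this

lemma eh_U (i j : Fin 2) : cm (e i) (h j) = (-((cartan j i : ℤ) : ℂ)) • e i := by
  rw [cm_skew, he_U, neg_smul]

lemma fh_U (i j : Fin 2) : cm (f i) (h j) = ((cartan j i : ℤ) : ℂ) • f i := by
  rw [cm_skew, hf_U, neg_smul, neg_neg]

lemma fe_U (i j : Fin 2) : cm (f i) (e j) = if j = i then -h j else 0 := by
  rw [cm_skew, ef_U]; split_ifs <;> simp

lemma nil_ad_e (i : Fin 2) : AdNil (e i) := by
  refine adNil_of (U_ind _ (fun j => mem_nilSub ?_) (fun j => mem_nilSub ?_)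
    (fun j => mem_nilSub ?_))
  · by_cases hij : i = j
    · subst hij; simp
    · exact serre_e_U hij
  · rw [ef_U]
    split_ifs
    · rw [eh_U, cm_smul_right, cm_self, smul_zero]
    · simp
  · rw [eh_U, cm_smul_right, cm_self, smul_zero, cm_zero_right]

lemma nil_ad_f (i : Fin 2) : AdNil (-f i) := by
  refine AdNil.neg (adNil_of (U_ind _ (fun j => mem_nilSub ?_) (fun j => mem_nilSub ?_)
    (fun j => mem_nilSub ?_)))
  · rw [fe_U]
    split_ifs
    · rw [cm_neg_right, fh_U, cm_neg_right, cm_smul_right, cm_self, smul_zero, neg_zero]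
    · simp
  · by_cases hij : i = j
    · subst hij; simp
    · exact serre_f_U hij
  · rw [fh_U, cm_smul_right, cm_self, smul_zero, cm_zero_right]

/-- The braid group automorphisms. -/
def TU (i : Fin 2) : U →ₐ[ℂ] U :=
  (expAd (e i) (nil_ad_e i)).comp ((expAd (-f i) (nil_ad_f i)).comp (expAd (e i) (nil_ad_e i)))

lemma TU_mem (i : Fin 2) {u : U} (hu : u ∈ kostantForm) : TU i u ∈ kostantForm :=
  expAd_mem _ (nil_ad_e i) (fun k => (eZ i k).2) (expAd_mem _ (nil_ad_f i)
    (dpow_neg_mem _ fun k => (fZ i k).2) (expAd_mem _ (nil_ad_e i) (fun k => (eZ i k).2) hu))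

lemma TU_triple (i : Fin 2) {X Y Z : U} (h1 : cm (e i) X = Y) (h2 : cm (e i) Y = (-2 : ℂ) • Z)
    (h3 : cm (e i) Z = 0) (h4 : cm (f i) X = 0) (h5 : cm (f i) Y = (2 : ℂ) • X)
    (h6 : cm (f i) Z = -Y) : TU i X = -Z ∧ TU i Z = -X :=
  expAd_triple (nil_ad_e i) (nil_ad_f i) h1 h2 h3 h4 h5 h6

end Pool.Agent.Lib.MP_b2f51a_al
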