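import Pool.Agent.Lib.MP_b2f51a_al.Currents

/-! The level `l` representation of the loop algebra on the Fock space of `2 l` fermions. -/

noncomputable section

namespace Pool.Agent.Lib.MP_b2f51a_al.Lv

open Finset

/-- Index of a fermion mode: species, colour, position. -/
structure Ix (l : ℕ) where
  s : Bool
  r : Fin l
  m : ℤ

variable {l : ℕ}

instance : LinearOrder (Ix l) :=
  LinearOrder.lift' (fun x => toLex (x.s, toLex (x.r, x.m))) (by
    rintro ⟨a, b, c⟩ ⟨a', b', c'⟩ h
    simp only [toLex_inj, Prod.mk.injEq] at h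
    obtain ⟨rfl, rfl, rfl⟩ := h
    rfl)

/-- The Fock space. -/
abbrev Fk (l : ℕ) : Type := Fock (Ix l)

/-- Creation of a particle. -/
def psi (j : Ix l) : Module.End ℂ (Fk l) := cl j (decide (j.m < 0))

/-- Annihilation of a particle. -/
def psis (j : Ix l) : Module.End ℂ (Fk l) := cl j (!decide (j.m < 0))

/-- The mode `j` is occupied in the state `D` (which records the difference with the sea). -/
def occ (D : Finset (Ix l)) (j : Ix l) : Prop := j ∈ D ↔ 0 ≤ j.m

instance (D : Finset (Ix l)) (j : Ix l) : Decidable (occ D j) := by unfold occ; infer_instance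

lemma psi_bv (j : Ix l) (D : Finset (Ix l)) :
    psi j (bv D) = if occ D j then 0 else sgn D j • bv (tog D j) := by
  unfold psi occ
  rw [cl_bv]
  by_cases h1 : j ∈ D <;> by_cases h2 : j.m < 0 <;> simp [h1, h2, not_le.2, not_lt.1]

lemma psis_bv (j : Ix l) (D : Finset (Ix l)) :
    psis j (bv D) = if occ D j then sgn D j • bv (tog D j) else 0 := by
  unfold psis occ
  rw [cl_bv]
  by_cases h1 : j ∈ D <;> by_cases h2 : j.m < 0 <;> simp [h1, h2, not_le.2, not_lt.1]

lemma occ_tog_self (D : Finset (Ix l)) (j : Ix l) : occ (tog D j) j ↔ ¬ occ D j := by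
  unfold occ; rw [mem_tog_self]; tauto

lemma occ_tog_ne (D : Finset (Ix l)) {j i : (Ix l)} (h : i ≠ j) : occ (tog D j) i ↔ occ D i := by
  unfold occ; rw [mem_tog_ne D h]

lemma psi_psi (i j : Ix l) : psi i * psi j = -(psi j * psi i) := by
  by_cases h : i = j
  · subst h; simp [psi, cl_sq]
  · exact cl_anti h _ _

lemma psis_psis (i j : Ix l) : psis i * psis j = -(psis j * psis i) := by
  by_cases h : i = j
  · subst h; simp [psis, cl_sq]
  · exact cl_anti h _ _

lemma psi_psis (i j : Ix l) :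
    psi i * psis j = (if i = j then 1 else 0) - psis j * psi i := by
  by_cases h : i = j
  · subst h; rw [if_pos rfl, eq_sub_iff_add_eq]; exact cl_car _ _
  · rw [if_neg h, zero_sub]; exact cl_anti h _ _

lemma psis_psi (i j : Ix l) :
    psis j * psi i = (if i = j then 1 else 0) - psi i * psis j := by
  rw [psi_psis]; abel

lemma adj_psi (j : Ix l) : Adj (psi j) (psis j) := adj_cl _ _

lemma cm_bil_psi (a b c : Ix l) : cm (psi a * psis b) (psi c) = if c = b then psi a else 0 := by
  unfold cm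
  rw [mul_assoc, psis_psi, ← mul_assoc (psi c), psi_psi c a]
  split_ifs <;> noncomm_ring

lemma cm_bil_psis (a b c : Ix l) : cm (psi a * psis b) (psis c) = if a = c then -psis b else 0 := by
  unfold cm
  rw [mul_assoc, psis_psis b c, ← mul_assoc (psis c), psis_psi]
  split_ifs <;> noncomm_ring

lemma smooth (v : Fk l) : ∃ N : ℕ, ∀ j : (Ix l), ((N : ℤ) < j.m → psis j v = 0) ∧
    (j.m < -(N : ℤ) → psi j v = 0) := by
  induction v using fock_induction with
  | h0 => exact ⟨0, by simp⟩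
  | hadd x y hx hy =>
    obtain ⟨N1, h1⟩ := hx
    obtain ⟨N2, h2⟩ := hy
    refine ⟨N1 + N2, fun j => ⟨fun h => ?_, fun h => ?_⟩⟩
    · rw [map_add, (h1 j).1 (by push_cast at h; omega), (h2 j).1 (by push_cast at h; omega),
        add_zero]
    · rw [map_add, (h1 j).2 (by push_cast at h; omega), (h2 j).2 (by push_cast at h; omega),
        add_zero]
  | hb c D =>
    refine ⟨D.sup fun j => j.m.natAbs, fun j => ?_⟩
    have key : j ∈ D → j.m.natAbs ≤ D.sup fun j => j.m.natAbs := fun h =>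
      le_sup (f := fun j : (Ix l) => j.m.natAbs) h
    constructor
    · intro h
      have : ¬ occ D j := by
        unfold occ
        have : j ∉ D := fun hj => by have := key hj; omega
        simp only [this, false_iff]; omega
      simp [psis_bv, this]
    · intro h
      have : occ D j := by
        unfold occ
        have : j ∉ D := fun hj => by have := key hj; omega
        simp only [this, false_iff]; omega
      simp [psi_bv, this]

/-- The bilinear term moving a particle of colour `r` from position `m` of species `!s` to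
position `a` of species `s`. -/
def At (s : Bool) (r : Fin l) (a m : ℤ) : Module.End ℂ (Fk l) := psi ⟨s, r, a⟩ * psis ⟨!s, r, m⟩

lemma At_eq (s : Bool) (r : Fin l) (a m : ℤ) :
    At s r a m = -(psis ⟨!s, r, m⟩ * psi ⟨s, r, a⟩) := by
  unfold At; rw [psi_psis]; simp

lemma locFin_At (s : Bool) (n : ℤ) :
    LocFin (fun p : Fin l × ℤ => At s p.1 (p.2 - n) p.2) := by
  intro v
  obtain ⟨N, hN⟩ := smooth v
  refine (Set.finite_univ.prod (Set.finite_Icc (n - N) N)).subset ?_
  rintro ⟨r, m⟩ h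
  simp only [Function.mem_support, ne_eq] at h
  refine ⟨trivial, ?_, ?_⟩
  · by_contra hc
    apply h
    rw [At_eq, LinearMap.neg_apply, Module.End.mul_apply, (hN _).2 (by simp at hc ⊢; omega)]
    simp
  · by_contra hc
    apply h
    rw [At, Module.End.mul_apply, (hN _).1 (by simp at hc ⊢; omega)]
    simp

/-- The currents. -/
def JF (l : ℕ) (s : Bool) (n : ℤ) : Module.End ℂ (Fk l) :=
  lsum (fun p : Fin l × ℤ => At s p.1 (p.2 - n) p.2)

lemma cm_JF_psi (s : Bool) (n : ℤ) (j : Ix l) :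
    cm (JF l s n) (psi j) = if j.s = !s then psi ⟨s, j.r, j.m - n⟩ else 0 := by
  ext v
  rw [JF, cm_lsum (locFin_At s n)]
  simp only [At, cm_bil_psi]
  obtain ⟨s', r, m⟩ := j
  rw [finsum_eq_single _ (r, m)]
  · by_cases h : s' = !s <;> simp [h]
  · rintro ⟨r', m'⟩ hne
    rw [if_neg]
    · rfl
    · intro h; simp only [Ix.mk.injEq] at h; apply hne; simp [h.2.1, h.2.2]

lemma cm_JF_psis (s : Bool) (n : ℤ) (j : Ix l) :
    cm (JF l s n) (psis j) = if j.s = s then -psis ⟨!s, j.r, j.m + n⟩ else 0 := by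
  ext v
  rw [JF, cm_lsum (locFin_At s n)]
  simp only [At, cm_bil_psis]
  obtain ⟨s', r, m⟩ := j
  rw [finsum_eq_single _ (r, m + n)]
  · by_cases h : s' = s
    · simp [h]
    · simp [h, Ne.symm h]
  · rintro ⟨r', m'⟩ hne
    rw [if_neg]
    · rfl
    · intro h; simp only [Ix.mk.injEq] at h; apply hne; simp [h.2.1, ← h.2.2]

/-- Weight of a state. -/
def swt (φ : (Ix l) → ℤ) (D : Finset (Ix l)) : ℤ := ∑ j ∈ D, if j.m < 0 then -φ j else φ j

/-- Diagonal grading operator. -/
def Dg (φ : (Ix l) → ℤ) : Module.End ℂ (Fk l) := (fb (Ix l)).constr ℂ fun D => ((swt φ D : ℤ) : ℂ) • bv D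

lemma Dg_bv (φ : (Ix l) → ℤ) (D : Finset (Ix l)) : Dg φ (bv D) = ((swt φ D : ℤ) : ℂ) • bv D := by
  simp [Dg, bv]

lemma swt_tog (φ : (Ix l) → ℤ) (D : Finset (Ix l)) (j : Ix l) :
    swt φ (tog D j) = if occ D j then swt φ D - φ j else swt φ D + φ j := by
  unfold swt tog occ
  by_cases h : j ∈ D
  · rw [if_pos h, ← add_sum_erase _ _ h]
    by_cases h2 : j.m < 0
    · have : ¬ 0 ≤ j.m := by omega
      simp [h, h2, this]
    · have : 0 ≤ j.m := by omega
      simp [h, h2, this]
  · rw [if_neg h, sum_insert h]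
    by_cases h2 : j.m < 0
    · have : ¬ 0 ≤ j.m := by omega
      simp [h, h2, this]; ring
    · have : 0 ≤ j.m := by omega
      simp [h, h2, this]; ring

lemma cm_Dg_psi (φ : (Ix l) → ℤ) (j : Ix l) : cm (Dg φ) (psi j) = ((φ j : ℤ) : ℂ) • psi j := by
  apply end_ext; intro D
  simp only [cm, LinearMap.sub_apply, Module.End.mul_apply, Dg_bv, map_smul, psi_bv,
    LinearMap.smul_apply]
  split_ifs with h
  · simp
  · simp only [map_smul, Dg_bv, swt_tog, h, if_false]; push_cast; module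

lemma cm_Dg_psis (φ : (Ix l) → ℤ) (j : Ix l) : cm (Dg φ) (psis j) = -(((φ j : ℤ) : ℂ) • psis j) := by
  apply end_ext; intro D
  simp only [cm, LinearMap.sub_apply, Module.End.mul_apply, Dg_bv, map_smul, psis_bv,
    LinearMap.smul_apply, LinearMap.neg_apply]
  split_ifs with h
  · simp only [map_smul, Dg_bv, swt_tog, h, if_true]; push_cast; module
  · simp

lemma Dg_vac (φ : (Ix l) → ℤ) : Dg φ (bv ∅) = 0 := by simp [Dg_bv, swt]

lemma cm_Dg_JF (φ : (Ix l) → ℤ) (s : Bool) (n κ : ℤ)
    (h : ∀ r m, φ ⟨s, r, m - n⟩ - φ ⟨!s, r, m⟩ = κ) :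
    cm (Dg φ) (JF l s n) = (κ : ℂ) • JF l s n := by
  ext v
  rw [cm_skew, LinearMap.neg_apply, JF, cm_lsum (locFin_At s n), LinearMap.smul_apply,
    lsum_apply (locFin_At s n), smul_finsum' _ (locFin_At s n v), ← finsum_neg_distrib]
  refine finsum_congr fun p => ?_
  rw [← LinearMap.neg_apply, ← cm_skew, At, cm_mul_right, cm_Dg_psi, cm_Dg_psis, ← h p.1 p.2]
  simp only [LinearMap.add_apply, smul_mul_assoc, mul_neg, mul_smul_comm, LinearMap.smul_apply,
    LinearMap.neg_apply, At]
  push_cast; module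

lemma scalar_of_cm (X : Module.End ℂ (Fk l)) (h1 : ∀ j, cm X (psi j) = 0)
    (h2 : ∀ j, cm X (psis j) = 0) : ∃ c : ℂ, X = c • (1 : Module.End ℂ (Fk l)) := by
  apply schur
  intro j b
  by_cases hb : b = decide (j.m < 0)
  · subst hb; exact sub_eq_zero.1 (h1 j)
  · have : b = !decide (j.m < 0) := by revert hb; cases b <;> cases decide (j.m < 0) <;> simp
    subst this; exact sub_eq_zero.1 (h2 j)

lemma zero_of_cm (X : Module.End ℂ (Fk l)) (h1 : ∀ j, cm X (psi j) = 0)
    (h2 : ∀ j, cm X (psis j) = 0) (φ : (Ix l) → ℤ) (κ : ℂ) (hκ : κ ≠ 0)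
    (h3 : cm (Dg φ) X = κ • X) : X = 0 := by
  obtain ⟨c, rfl⟩ := scalar_of_cm X h1 h2
  rw [cm_smul_right] at h3
  have : cm (Dg φ) 1 = 0 := by simp [cm]
  rw [this, smul_zero] at h3
  exact (smul_eq_zero.1 h3.symm).resolve_left hκ

/-- Charge grading. -/
def chg (s : Bool) (j : Ix l) : ℤ := if j.s = s then 1 else -1

/-- Energy grading. -/
def eng (j : Ix l) : ℤ := j.m

lemma chg_JF (s : Bool) (n : ℤ) : cm (Dg (chg s)) (JF l s n) = (2 : ℂ) • JF l s n := by
  have := cm_Dg_JF (l := l) (chg s) s n 2 (by intro r m; simp [chg])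
  exact_mod_cast this

lemma chg_JF' (s : Bool) (n : ℤ) : cm (Dg (chg s)) (JF l (!s) n) = (-2 : ℂ) • JF l (!s) n := by
  have := cm_Dg_JF (l := l) (chg s) (!s) n (-2) (by intro r m; simp [chg])
  exact_mod_cast this

lemma eng_JF (s : Bool) (n : ℤ) : cm (Dg eng) (JF l s n) = (-(n : ℂ)) • JF l s n := by
  have := cm_Dg_JF (l := l) eng s n (-n) (by intro r m; simp [eng])
  exact_mod_cast this

lemma JF_comm (s : Bool) (a b : ℤ) : cm (JF l s a) (JF l s b) = 0 := by
  refine zero_of_cm _ ?_ ?_ (chg s) (2 + 2) (by norm_num) (cm_hom (chg_JF s a) (chg_JF s b))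
  · rintro ⟨s', r, m⟩
    cases s <;> cases s' <;> simp [cm_cm_left, cm_JF_psi]
  · rintro ⟨s', r, m⟩
    cases s <;> cases s' <;> simp [cm_cm_left, cm_JF_psis]

lemma JF_cubic (s : Bool) (a b c : ℤ) :
    cm (JF l s a) (cm (JF l s b) (JF l (!s) c)) = (-2 : ℂ) • JF l s (a + b + c) := by
  rw [← sub_eq_zero]
  refine zero_of_cm _ ?_ ?_ (chg s) 2 (by norm_num) ?_
  · rintro ⟨s', r, m⟩
    have e1 : m - b - c - a = m - (a + b + c) := by ring
    have e2 : m - a - c - b = m - (a + b + c) := by ring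
    cases s <;> cases s' <;>
      simp [cm_sub_left, cm_cm_left, cm_JF_psi, e1, e2, two_smul, cm_add_left] <;> abel
  · rintro ⟨s', r, m⟩
    have e1 : m + b + c + a = m + (a + b + c) := by ring
    have e2 : m + a + c + b = m + (a + b + c) := by ring
    cases s <;> cases s' <;>
      simp [cm_sub_left, cm_cm_left, cm_JF_psis, e1, e2, two_smul, cm_add_left]
  · rw [cm_sub_right, cm_hom (chg_JF s a) (cm_hom (chg_JF s b) (chg_JF' s c)), cm_smul_right,
      chg_JF]
    module

lemma JF_shift (s : Bool) (a b a' b' : ℤ) (h : a + b = a' + b') (h0 : a + b ≠ 0) :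
    cm (JF l s a) (JF l (!s) b) = cm (JF l s a') (JF l (!s) b') := by
  rw [← sub_eq_zero]
  refine zero_of_cm _ ?_ ?_ eng (-(a + b : ℤ)) (neg_ne_zero.2 (by exact_mod_cast h0)) ?_
  · rintro ⟨s', r, m⟩
    have e1 : m - a - b = m - a' - b' := by omega
    have e2 : m - b - a = m - b' - a' := by omega
    cases s <;> cases s' <;> simp [cm_sub_left, cm_cm_left, cm_JF_psi, e1, e2]
  · rintro ⟨s', r, m⟩
    have e1 : m + a + b = m + a' + b' := by omega
    have e2 : m + b + a = m + b' + a' := by omega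
    cases s <;> cases s' <;> simp [cm_sub_left, cm_cm_left, cm_JF_psis, e1, e2]
  · rw [cm_sub_right, cm_hom (eng_JF s a) (eng_JF (!s) b), cm_hom (eng_JF s a') (eng_JF (!s) b')]
    have : (a' : ℂ) = a + b - b' := by
      have : a' = a + b - b' := by omega
      rw [this]; push_cast; ring
    rw [this]; push_cast; module

lemma At_bv (s : Bool) (r : Fin l) (a m : ℤ) (D : Finset (Ix l)) :
    At s r a m (bv D) = if occ D ⟨!s, r, m⟩ ∧ ¬ occ D ⟨s, r, a⟩ then
      (sgn D ⟨!s, r, m⟩ * sgn (tog D ⟨!s, r, m⟩) ⟨s, r, a⟩) •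
        bv (tog (tog D ⟨!s, r, m⟩) ⟨s, r, a⟩) else 0 := by
  have hne : (⟨s, r, a⟩ : Ix l) ≠ ⟨!s, r, m⟩ := by simp
  unfold At
  rw [Module.End.mul_apply, psis_bv]
  by_cases h1 : occ D ⟨!s, r, m⟩
  · by_cases h2 : occ D ⟨s, r, a⟩ <;> simp [h1, h2, psi_bv, occ_tog_ne D hne, smul_smul]
  · simp [h1]

lemma JF_nil (s : Bool) (n : ℤ) : LocNil (JF l s n) := by
  let Z : Finset (Ix l) → Set (Fin l × ℤ) := fun D =>
    {p | occ D ⟨!s, p.1, p.2⟩ ∧ ¬ occ D ⟨s, p.1, p.2 - n⟩}
  have hZ : ∀ D, (Z D).Finite := by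
    intro D
    refine (locFin_At s n (bv D)).subset fun p hp => ?_
    simp only [Function.mem_support, At_bv]
    have hp' : occ D ⟨!s, p.1, p.2⟩ ∧ ¬ occ D ⟨s, p.1, p.2 - n⟩ := hp
    rw [if_pos hp']
    refine smul_ne_zero (mul_ne_zero (sgn_ne_zero _ _) (sgn_ne_zero _ _)) ?_
    exact (fb (Ix l)).ne_zero _
  have key : ∀ k D, (Z D).ncard < k → (JF l s n ^ k) (bv D) = 0 := by
    intro k
    induction k with
    | zero => intro D h; omega
    | succ k ih =>
      intro D h
      rw [pow_succ, Module.End.mul_apply, JF, lsum_apply_of (locFin_At s n) _ (hZ D).toFinset,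
        map_sum]
      · refine sum_eq_zero fun p hp => ?_
        have hp' : p ∈ Z D := by simpa using hp
        have hp'' : occ D ⟨!s, p.1, p.2⟩ ∧ ¬ occ D ⟨s, p.1, p.2 - n⟩ := hp'
        rw [At_bv, if_pos hp'', map_smul]
        rw [show lsum (fun p : Fin l × ℤ => At s p.1 (p.2 - n) p.2) = JF l s n from rfl, ih,
          smul_zero]
        refine lt_of_lt_of_le (Set.ncard_lt_ncard ?_ (hZ D)) (by omega)
        constructor
        · intro q hq
          obtain ⟨hq1, hq2⟩ := hq
          rw [occ_tog_ne _ (by simp)] at hq1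
          by_cases hpq : q = p
          · subst hpq
            exact absurd hp'.1 ((occ_tog_self _ _).1 hq1)
          · have h1 : (⟨!s, q.1, q.2⟩ : Ix l) ≠ ⟨!s, p.1, p.2⟩ := by
              intro h; simp only [Ix.mk.injEq] at h; exact hpq (Prod.ext h.2.1 h.2.2)
            have h2 : (⟨s, q.1, q.2 - n⟩ : Ix l) ≠ ⟨s, p.1, p.2 - n⟩ := by
              intro h; simp only [Ix.mk.injEq] at h
              exact hpq (Prod.ext h.2.1 (by omega))
            rw [occ_tog_ne _ h1] at hq1
            rw [occ_tog_ne _ h2, occ_tog_ne _ (by simp)] at hq2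
            exact ⟨hq1, hq2⟩
        · intro hsub
          have := (hsub hp').1
          rw [occ_tog_ne _ (by simp), occ_tog_self] at this
          exact this hp'.1
      · intro p hp
        rw [At_bv] at hp
        simp only [Set.Finite.mem_toFinset]
        by_contra hc
        exact hp (if_neg hc)
  intro v
  induction v using fock_induction with
  | h0 => exact ⟨0, by simp⟩
  | hadd x y hx hy =>
    obtain ⟨N1, h1⟩ := hx
    obtain ⟨N2, h2⟩ := hy
    exact ⟨N1 + N2, by
      rw [map_add, pow_apply_eq_zero_of_le h1 (by omega), pow_apply_eq_zero_of_le h2 (by omega),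
        add_zero]⟩
  | hb c D => exact ⟨(Z D).ncard + 1, by rw [map_smul, key _ D (by omega), smul_zero]⟩

/-- The Fock representation of the loop algebra. -/
def fockRep (l : ℕ) : LoopRep (Fk l) where
  J := JF l
  comm := JF_comm
  cubic := JF_cubic
  shift := JF_shift
  nil := JF_nil

lemma adj_JF (s : Bool) (n : ℤ) : Adj (JF l s n) (JF l (!s) (-n)) := by
  intro x y
  have hx := locFin_At (l := l) s n
  have hy := locFin_At (l := l) (!s) (-n)
  let lx : (Fk l) →+ ℂ := ⟨⟨fun z => ip z y, by simp⟩, fun a b => ip_add_left a b y⟩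
  let ly : (Fk l) →+ ℂ := ⟨⟨fun z => ip x z, by simp⟩, fun a b => ip_add_right x a b⟩
  have h1 : ip (JF l s n x) y = ∑ᶠ p : Fin l × ℤ, ip (At s p.1 (p.2 - n) p.2 x) y := by
    rw [JF, lsum_apply hx]; exact map_finsum lx (hx x)
  have h2 : ip x (JF l (!s) (-n) y) =
      ∑ᶠ p : Fin l × ℤ, ip x (At (!s) p.1 (p.2 - -n) p.2 y) := by
    rw [JF, lsum_apply hy]; exact map_finsum ly (hy y)
  rw [h1, h2, ← finsum_comp_equiv ((Equiv.refl (Fin l)).prodCongr (Equiv.addRight n))]
  refine finsum_congr fun p => ?_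
  have := ((adj_psi ⟨s, p.1, p.2⟩).mul (adj_psi ⟨!s, p.1, p.2 + n⟩).symm) x y
  simpa [At] using this

lemma adj_eg (i : Fin 2) : Adj ((fockRep l).eg i) ((fockRep l).fg i) := by
  fin_cases i
  · exact adj_JF false 1
  · exact adj_JF true 0

end Pool.Agent.Lib.MP_b2f51a_al.Lv
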