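import Pool.Agent.Lib.MP_b2f51a_al.Poly

/-! A form of Garland's identity. -/

noncomputable section

namespace Pool.Agent.Lib.MP_b2f51a_al

open Finset

namespace Gar

open PowerSeries

section one

variable {R : Type*} [Ring R]

/-- The Euler operator. -/
def th (f : R⟦X⟧) : R⟦X⟧ := PowerSeries.mk fun n => (n : R) * coeff n f

@[simp] lemma coeff_th (f : R⟦X⟧) (n : ℕ) : coeff n (th f) = (n : R) * coeff n f := coeff_mk _ _

lemma th_add (f g : R⟦X⟧) : th (f + g) = th f + th g := by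
  ext n
  simp [mul_add]

lemma th_mul (f g : R⟦X⟧) : th (f * g) = th f * g + f * th g := by
  ext n
  rw [map_add, coeff_th, coeff_mul, coeff_mul, coeff_mul, mul_sum, ← sum_add_distrib]
  refine sum_congr rfl fun p hp => ?_
  rw [← mem_antidiagonal.1 hp, coeff_th, coeff_th, Nat.cast_add, add_mul, mul_assoc,
    ← mul_assoc (coeff p.1 f), ← (Nat.cast_commute p.2 (coeff p.1 f)).eq, mul_assoc]

lemma th_sum {ι : Type*} (s : Finset ι) (f : ι → R⟦X⟧) :
    th (∑ i ∈ s, f i) = ∑ i ∈ s, th (f i) := by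
  ext n
  simp [mul_sum]

lemma th_C (a : R) : th (C a) = 0 := by
  ext n
  rw [coeff_th, coeff_C]
  split_ifs with h <;> simp [h]

/-- The Euler operator in the inner variable. -/
def ti (F : R⟦X⟧⟦X⟧) : R⟦X⟧⟦X⟧ := PowerSeries.mk fun n => th (coeff n F)

@[simp] lemma coeff_ti (F : R⟦X⟧⟦X⟧) (n : ℕ) : coeff n (ti F) = th (coeff n F) := coeff_mk _ _

lemma ti_mul (F G : R⟦X⟧⟦X⟧) : ti (F * G) = ti F * G + F * ti G := by
  refine PowerSeries.ext fun n => ?_
  rw [map_add, coeff_ti, coeff_mul, coeff_mul, coeff_mul, th_sum, ← sum_add_distrib]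
  exact sum_congr rfl fun p _ => by rw [th_mul, coeff_ti, coeff_ti]

/-- Only monomials whose outer degree is at least the inner degree occur. -/
def Tri (F : R⟦X⟧⟦X⟧) : Prop := ∀ i r, i < r → coeff r (coeff i F) = 0

lemma Tri.add {F G : R⟦X⟧⟦X⟧} (hF : Tri F) (hG : Tri G) : Tri (F + G) := fun i r h => by
  rw [map_add, map_add, hF i r h, hG i r h, add_zero]

lemma coeff_mul2 (F G : R⟦X⟧⟦X⟧) (i r : ℕ) : coeff r (coeff i (F * G)) =
    ∑ p ∈ antidiagonal i, ∑ q ∈ antidiagonal r,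
      coeff q.1 (coeff p.1 F) * coeff q.2 (coeff p.2 G) := by
  rw [coeff_mul, map_sum]
  exact sum_congr rfl fun p _ => coeff_mul _ _ _

lemma Tri.mul {F G : R⟦X⟧⟦X⟧} (hF : Tri F) (hG : Tri G) : Tri (F * G) := fun i r h => by
  rw [coeff_mul2]
  refine sum_eq_zero fun p hp => sum_eq_zero fun q hq => ?_
  have h1 := mem_antidiagonal.1 hp
  have h2 := mem_antidiagonal.1 hq
  by_cases h3 : p.1 < q.1
  · rw [hF _ _ h3, zero_mul]
  · rw [hG _ _ (by omega), mul_zero]

lemma tri_X : Tri (X : R⟦X⟧⟦X⟧) := fun i r h => by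
  rw [coeff_X]
  split_ifs
  · rw [coeff_one, if_neg (by omega)]
  · exact map_zero _

lemma tri_CX : Tri (C X * X : R⟦X⟧⟦X⟧) := fun i r h => by
  rw [coeff_C_mul, coeff_X]
  split_ifs
  · rw [mul_one, coeff_X, if_neg (by omega)]
  · rw [mul_zero, map_zero]

/-- The series `∑ (-α β) ^ j a j`. -/
def gz (a : ℕ → R) : R⟦X⟧⟦X⟧ := PowerSeries.mk fun j => monomial j ((-1) ^ j * a j)

lemma coeff_gen (a : ℕ → R) (j r : ℕ) :
    coeff r (coeff j (gz a)) = if r = j then (-1) ^ j * a j else 0 := by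
  rw [gz, coeff_mk, coeff_monomial]

lemma tri_gen (a : ℕ → R) : Tri (gz a) := fun i r h => by rw [coeff_gen, if_neg (by omega)]

lemma cm_gen (g : R) (a : ℕ → R) : cm (C (C g)) (gz a) = gz fun j => cm g (a j) := by
  ext j r
  unfold cm
  rw [map_sub, coeff_C_mul, coeff_mul_C, map_sub, coeff_C_mul, coeff_mul_C, coeff_gen, coeff_gen]
  split_ifs
  · rcases neg_one_pow_eq_or R j with h | h <;> rw [h] <;> noncomm_ring
  · simp

lemma gen_shift (a : ℕ → R) : gz a = C (C (a 0)) - C X * (X * gz fun j => a (j + 1)) := by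
  ext j r
  rw [map_sub, coeff_C_mul, map_sub, coeff_gen]
  rcases j with _ | j
  · rw [coeff_zero_X_mul, coeff_zero_C, coeff_C]
    simp
  · rw [coeff_succ_X_mul, coeff_C, if_neg (Nat.succ_ne_zero j), map_zero]
    rcases r with _ | r
    · simp
    · rw [coeff_succ_X_mul, coeff_gen]
      by_cases h : r = j <;> simp [pow_succ, h]

lemma gen_add (a b : ℕ → R) : gz a + gz b = gz fun j => a j + b j := by
  ext j r
  rw [map_add, map_add, coeff_gen, coeff_gen, coeff_gen]
  split_ifs <;> simp [mul_add]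

lemma gen_zero : gz (fun _ => (0 : R)) = 0 := by
  ext j r
  simp [coeff_gen]

lemma gen_neg (a : ℕ → R) : gz (fun j => -a j) = -gz a := by
  rw [eq_neg_iff_add_eq_zero, gen_add]
  simpa using gen_zero

lemma tele (E : ℕ → R) : (gz fun j => ((j : R) + 1) * E j) +
    C X * (X * (gz (fun j => ((j : R) + 1) * E (j + 1)) + gz fun j => ((j : R) + 1) * E (j + 1))) +
    C X * (X * (C X * (X * gz fun j => ((j : R) + 1) * E (j + 2)))) = C (C (E 0)) := by
  have h1 := gen_shift fun j => ((j : R) + 1) * E j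
  have h2 := gen_shift fun j => (j : R) * E (j + 1)
  have h3 : gz (fun j => ((j : R) + 1) * E (j + 1)) + gz (fun j => ((j : R) + 1) * E (j + 1)) =
      gz (fun j => (((j + 1 : ℕ) : R) + 1) * E (j + 1)) + gz fun j => (j : R) * E (j + 1) := by
    rw [gen_add, gen_add]
    refine congrArg gz (funext fun j => ?_)
    push_cast
    noncomm_ring
  simp only [Nat.cast_zero, zero_add, one_mul, zero_mul, map_zero, zero_sub] at h1 h2
  rw [h3, h2, h1]
  simp only [Nat.cast_add, Nat.cast_one, add_assoc, Nat.reduceAdd]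
  noncomm_ring

/-- All coefficients lie in `S`. -/
def InS (S : Subring R) (F : R⟦X⟧⟦X⟧) : Prop := ∀ i r, coeff r (coeff i F) ∈ S

lemma InS.mul {S : Subring R} {F G : R⟦X⟧⟦X⟧} (hF : InS S F) (hG : InS S G) : InS S (F * G) :=
  fun i r => by
    rw [coeff_mul2]
    exact sum_mem fun p _ => sum_mem fun q _ => mul_mem (hF _ _) (hG _ _)

/-- Exchange of the two variables. -/
def swap : R⟦X⟧⟦X⟧ →+* R⟦X⟧⟦X⟧ where
  toFun F := PowerSeries.mk fun k => PowerSeries.mk fun m => coeff k (coeff m F)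
  map_one' := by
    ext k m
    rw [coeff_mk, coeff_mk, coeff_one, coeff_one]
    split_ifs <;> simp [coeff_one, *]
  map_mul' F G := by
    ext k m
    rw [coeff_mk, coeff_mk, coeff_mul2, coeff_mul2, sum_comm]
    simp only [coeff_mk]
  map_zero' := by
    ext k m
    simp
  map_add' F G := by
    ext k m
    simp

lemma coeff_swap (F : R⟦X⟧⟦X⟧) (k m : ℕ) : coeff m (coeff k (swap F)) = coeff k (coeff m F) := by
  simp [swap]

end one

section two

variable {A : Type*} [Ring A] [Algebra ℂ A]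

/-- The exponential series. -/
def ex (x : A) : A⟦X⟧ := PowerSeries.mk (dpow x)

@[simp] lemma coeff_ex (x : A) (n : ℕ) : coeff n (ex x) = dpow x n := coeff_mk _ _

lemma succ_mul_dpow (x : A) (n : ℕ) : ((n + 1 : ℕ) : A) * dpow x (n + 1) = x * dpow x n := by
  rw [mul_dpow, ← nsmul_eq_mul, ← Nat.cast_smul_eq_nsmul ℂ, Nat.cast_succ]

lemma th_ex (x : A) : th (ex x) = X * (C x * ex x) := by
  ext n
  rcases n with _ | n
  · simp
  · rw [coeff_th, coeff_succ_X_mul, coeff_C_mul, coeff_ex, coeff_ex, succ_mul_dpow]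

lemma cancel_succ {a : A} {n : ℕ} (h : ((n + 1 : ℕ) : A) * a = 0) : a = 0 := by
  rw [← nsmul_eq_mul, ← Nat.cast_smul_eq_nsmul ℂ] at h
  have h1 : ((n + 1 : ℕ) : ℂ) ≠ 0 := Nat.cast_ne_zero.2 (Nat.succ_ne_zero n)
  rw [← one_smul ℂ a, ← inv_mul_cancel₀ h1, mul_smul, h, smul_zero]

lemma dpow_C (x : A) (t : ℕ) : dpow (C x : A⟦X⟧) t = C (dpow x t) := by
  ext n
  unfold dpow
  rw [← map_pow, coeff_smul, coeff_C, coeff_C]
  split_ifs <;> simp

lemma ex_comm {x : A} {Y Y1 Z : A⟦X⟧} (h1 : cm (C x) Y = Y1) (h2 : cm (C x) Y1 = Z + Z)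
    (h3 : cm (C x) Z = 0) : ex x * Y = (Y + X * Y1 + X * (X * Z)) * ex x := by
  have c : ∀ (U : A⟦X⟧) (j : ℕ), coeff j (cm (C x) U) = x * coeff j U - coeff j U * x := by
    intro U j
    rw [cm, map_sub, coeff_C_mul, coeff_mul_C]
  have e : (Y + X * Y1 + X * (X * Z)) * ex x =
      Y * ex x + Y1 * (X * ex x) + Z * (X * (X * ex x)) := by
    have k : ∀ U V : A⟦X⟧, U * (X * V) = X * (U * V) := fun U V => by
      rw [← mul_assoc, ← mul_assoc, (commute_X U).eq]
    rw [k Y1, k Z, k Z]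
    noncomm_ring
  rw [e]
  ext n
  rw [map_add, map_add, coeff_mul, coeff_mul, coeff_mul, coeff_mul, ← sum_add_distrib,
    ← sum_add_distrib, ← Finset.Nat.sum_antidiagonal_swap]
  refine sum_congr rfl fun p _ => ?_
  have a1 := c Y p.1
  have a2 := c Y1 p.1
  have a3 := c Z p.1
  rw [h1] at a1
  rw [h2, map_add] at a2
  rw [h3, map_zero] at a3
  simp only [Prod.fst_swap, Prod.snd_swap, coeff_ex]
  rcases p.2 with _ | _ | t
  · simp
  · simp only [zero_add, coeff_succ_X_mul, coeff_zero_X_mul, coeff_ex, dpow_one, dpow_zero]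
    rw [a1]
    noncomm_ring
  · have a4 : x * (coeff p.1 Z + coeff p.1 Z) - (coeff p.1 Z + coeff p.1 Z) * x = 0 := by
      rw [mul_add, add_mul, add_sub_add_comm, ← a3, add_zero]
    rw [coeff_succ_X_mul, coeff_succ_X_mul, coeff_succ_X_mul, coeff_ex, coeff_ex,
      dpow_comm_two a1.symm a2.symm a4, ← two_smul ℂ, smul_mul_assoc, smul_smul]
    norm_num

lemma ex_comm' {x : A} {Y Y1 Z : A⟦X⟧⟦X⟧} (h1 : cm (C (C x)) Y = Y1)
    (h2 : cm (C (C x)) Y1 = Z + Z) (h3 : cm (C (C x)) Z = 0) :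
    C (ex x) * Y = (Y + C X * Y1 + C X * (C X * Z)) * C (ex x) := by
  have c : ∀ (U : A⟦X⟧⟦X⟧) (j : ℕ), coeff j (cm (C (C x)) U) = cm (C x) (coeff j U) := by
    intro U j
    rw [cm, map_sub, coeff_C_mul, coeff_mul_C, cm]
  refine PowerSeries.ext fun j => ?_
  rw [coeff_C_mul, coeff_mul_C, map_add, map_add, coeff_C_mul, coeff_C_mul, coeff_C_mul]
  exact ex_comm (by rw [← c, h1]) (by rw [← c, h2, map_add]) (by rw [← c, h3, map_zero])

lemma tri_of_ode {F B : A⟦X⟧⟦X⟧} (hB : Tri B) (h : ti F = C X * (X * B * F)) : Tri F := by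
  intro i r
  induction r using Nat.strong_induction_on generalizing i with
  | _ r ih =>
    intro hir
    obtain ⟨r, rfl⟩ : ∃ s, r = s + 1 := ⟨r - 1, by omega⟩
    have h1 := congrArg (fun U => coeff (r + 1) (coeff i U)) h
    simp only [coeff_ti, coeff_th, coeff_C_mul, coeff_succ_X_mul] at h1
    refine cancel_succ (h1.trans ?_)
    rw [coeff_mul2]
    refine sum_eq_zero fun p hp => sum_eq_zero fun q hq => ?_
    have h2 := mem_antidiagonal.1 hp
    have h3 := mem_antidiagonal.1 hq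
    by_cases h4 : p.2 < q.2
    · rw [ih _ (by omega) _ h4, mul_zero]
    · rcases h5 : p.1 with _ | j
      · rw [coeff_zero_X_mul, map_zero, zero_mul]
      · rw [coeff_succ_X_mul, hB _ _ (by omega), zero_mul]

end two

section three

variable {P : Type*} [CommRing P] [Algebra ℂ P]

omit [Algebra ℂ P] in
lemma th_natCast_mul (n : ℕ) (f : P⟦X⟧) : th ((n : P⟦X⟧) * f) = n * th f := by
  ext k
  rw [coeff_th, ← nsmul_eq_mul n, ← nsmul_eq_mul n, map_nsmul, map_nsmul, coeff_th,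
    mul_smul_comm]

lemma th_dpow (y : P⟦X⟧) (m : ℕ) : th (dpow y (m + 1)) = th y * dpow y m := by
  induction m with
  | zero => simp
  | succ m ih =>
    have h1 := congrArg th (succ_mul_dpow y (m + 1))
    have h2 := succ_mul_dpow y m
    rw [th_natCast_mul, th_mul, ih] at h1
    refine sub_eq_zero.1 (cancel_succ (n := m + 1) ?_)
    push_cast at h1 h2 ⊢
    linear_combination h1 - th y * h2

lemma ode_ex (y : P⟦X⟧) : th (ex y) + ti (ex y) = X * (C (y + th y) * ex y) := by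
  rw [th_ex]
  refine PowerSeries.ext fun m => ?_
  rcases m with _ | m
  · rw [map_add, coeff_zero_X_mul, coeff_zero_X_mul, coeff_ti, coeff_ex, dpow_zero, zero_add,
      ← map_one (C (R := P)), th_C]
  · rw [map_add, coeff_succ_X_mul, coeff_succ_X_mul, coeff_ti, coeff_C_mul, coeff_C_mul, coeff_ex,
      coeff_ex, th_dpow, add_mul]

lemma ex_neg_mul (y : P) : ex (-y) * ex y = 1 := by
  have h : th (ex (-y) * ex y) = 0 := by
    rw [th_mul, th_ex, th_ex, map_neg]
    ring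
  ext n
  rcases n with _ | n
  · simp [coeff_mul]
  · have h1 := congrArg (coeff (n + 1)) h
    rw [coeff_th, map_zero] at h1
    rw [cancel_succ h1, coeff_one, if_neg (Nat.succ_ne_zero n)]

variable {A : Type*} [Ring A] [Algebra ℂ A] (φ : P →ₐ[ℂ] A)

/-- The substitution `z = -α β`. -/
def sb : P⟦X⟧⟦X⟧ →+* A⟦X⟧⟦X⟧ :=
  (PowerSeries.map (PowerSeries.map φ.toRingHom)).comp ((rescale (-X)).comp swap)

lemma coeff_sb (F : P⟦X⟧⟦X⟧) (k r : ℕ) : coeff r (coeff k (sb φ F)) =
    if k ≤ r then (-1) ^ k * φ (coeff k (coeff (r - k) F)) else 0 := by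
  have e : (-X : P⟦X⟧) ^ k * coeff k (swap F) = C ((-1) ^ k) * (X ^ k * coeff k (swap F)) := by
    rw [neg_pow, map_pow, map_neg, map_one, mul_assoc]
  rw [sb, RingHom.comp_apply, RingHom.comp_apply, coeff_map, coeff_map, coeff_rescale, e,
    coeff_C_mul, coeff_X_pow_mul']
  split_ifs
  · rw [coeff_swap]
    simp
  · simp

lemma ti_sb (F : P⟦X⟧⟦X⟧) : ti (sb φ F) = sb φ (th F + ti F) := by
  ext k r
  rw [coeff_ti, coeff_th, coeff_sb, coeff_sb]
  split_ifs with h
  · obtain ⟨m, rfl⟩ := Nat.exists_eq_add_of_le h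
    rw [Nat.add_sub_cancel_left, map_add, map_add, coeff_th, coeff_ti, coeff_th, ← nsmul_eq_mul m,
      map_nsmul, nsmul_eq_mul, ← add_mul, ← Nat.cast_add, map_mul, map_natCast, add_comm m k,
      ← mul_assoc, ← mul_assoc, (Nat.cast_commute (k + m) _).eq]
  · exact mul_zero _

lemma sb_X : sb φ X = C X := by
  ext k r
  rw [coeff_sb, coeff_C, coeff_X]
  rcases k with _ | k
  · simp only [Nat.zero_le, if_true, pow_zero, one_mul, Nat.sub_zero, coeff_X]
    split_ifs <;> simp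
  · rw [if_neg (Nat.succ_ne_zero k), map_zero]
    split_ifs <;> simp [coeff_one]

lemma sb_C (f : P⟦X⟧) : sb φ (C f) = gz fun j => φ (coeff j f) := by
  ext k r
  rw [coeff_sb, coeff_gen, coeff_C]
  by_cases h : r = k
  · simp [h]
  · rw [if_neg h]
    split_ifs with h1 h2
    · omega
    · simp
    · rfl

end three

section four

variable {A : Type*} [Ring A] [Algebra ℂ A]

omit [Algebra ℂ A] in
lemma cm_nat (g a : A) (j : ℕ) : cm g (((j : A) + 1) * a) = ((j : A) + 1) * cm g a := by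
  have : g * (j : A) = j * g := (Nat.cast_commute j g).eq.symm
  unfold cm
  rw [← mul_assoc, mul_add, this]
  noncomm_ring

lemma main_comm (E G H : ℕ → A) (h0 : ∀ j, cm (E 0) (E j) = 0)
    (h1 : ∀ j, cm (G 0) (E j) = -H j) (h2 : ∀ j, cm (G 0) (H j) = (2 : ℂ) • G (j + 1))
    (h3 : ∀ j, cm (G 0) (G (j + 1)) = 0) (h4 : ∀ j, cm (E 0) (H j) = (-2 : ℂ) • E (j + 1))
    (h5 : ∀ j, cm (E 0) (G (j + 1)) = H (j + 1)) :
    ∃ B : A⟦X⟧⟦X⟧, Tri B ∧ C (ex (E 0)) * ex (C (G 0)) * gz (fun j => ((j : A) + 1) * E j) =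
      (C (C (E 0)) - X * B) * (C (ex (E 0)) * ex (C (G 0))) := by
  have t := tele E
  have a1 : ex (C (G 0)) * gz (fun j => ((j : A) + 1) * E j) = _ :=
    ex_comm (Y1 := -gz fun j => ((j : A) + 1) * H j)
      (Z := -gz fun j => ((j : A) + 1) * G (j + 1))
      (by simp only [cm_gen, cm_nat, h1, mul_neg, gen_neg])
      (by simp only [cm_neg_right, cm_gen, cm_nat, h2, two_smul, mul_add, ← gen_add, neg_add])
      (by simp only [cm_neg_right, cm_gen, cm_nat, h3, mul_zero, gen_zero, neg_zero])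
  have z : ∀ x : A, cm (C (C x) : A⟦X⟧⟦X⟧) 0 = 0 := fun _ => cm_zero_right _
  have a2 : C (ex (E 0)) * gz (fun j => ((j : A) + 1) * E j) = _ :=
    ex_comm' (Y1 := 0) (Z := 0) (by simp only [cm_gen, cm_nat, h0, mul_zero, gen_zero])
      (by rw [z, add_zero]) (z _)
  have a3 : C (ex (E 0)) * gz (fun j => ((j : A) + 1) * H j) = _ :=
    ex_comm' (Y1 := -(gz (fun j => ((j : A) + 1) * E (j + 1)) +
        gz fun j => ((j : A) + 1) * E (j + 1))) (Z := 0)
      (by simp only [cm_gen, cm_nat, h4, neg_smul, two_smul, mul_neg, gen_neg, mul_add, ← gen_add])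
      (by simp only [cm_neg_right, cm_add_right, cm_gen, cm_nat, h0, mul_zero, gen_zero, add_zero,
        neg_zero]) (z _)
  have a4 : C (ex (E 0)) * gz (fun j => ((j : A) + 1) * G (j + 1)) = _ :=
    ex_comm' (Y1 := gz fun j => ((j : A) + 1) * H (j + 1))
      (Z := -gz fun j => ((j : A) + 1) * E (j + 2))
      (by simp only [cm_gen, cm_nat, h5])
      (by simp only [cm_gen, cm_nat, h4, neg_smul, two_smul, mul_neg, gen_neg, mul_add, ← gen_add,
        neg_add])
      (by simp only [cm_neg_right, cm_gen, cm_nat, h0, mul_zero, gen_zero, neg_zero])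
  refine ⟨gz (fun j => ((j : A) + 1) * H j) + X * gz (fun j => ((j : A) + 1) * G (j + 1)) +
      C X * X * gz fun j => ((j : A) + 1) * H (j + 1),
    ((tri_gen _).add (tri_X.mul (tri_gen _))).add (tri_CX.mul (tri_gen _)), ?_⟩
  rw [← t]
  generalize gz (fun j => ((j : A) + 1) * E j) = E0 at *
  generalize gz (fun j => ((j : A) + 1) * E (j + 1)) = E1 at *
  generalize gz (fun j => ((j : A) + 1) * E (j + 2)) = E2 at *
  generalize gz (fun j => ((j : A) + 1) * H j) = H0 at *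
  generalize gz (fun j => ((j : A) + 1) * H (j + 1)) = H1 at *
  generalize gz (fun j => ((j : A) + 1) * G (j + 1)) = G1 at *
  have k : ∀ U V : A⟦X⟧⟦X⟧, U * (X * V) = X * (U * V) := fun U V => by
    rw [← mul_assoc, ← mul_assoc, (commute_X U).eq]
  have kk := k (C (ex (E 0)))
  rw [mul_assoc, a1, ← mul_assoc (C (ex (E 0))), mul_add (C (ex (E 0))), mul_add (C (ex (E 0))), kk,
    kk, kk, mul_neg (C (ex (E 0))), mul_neg (C (ex (E 0))), a2, a3, a4]
  simp only [mul_add, add_mul, sub_mul, mul_assoc, mul_neg, neg_mul, mul_zero, add_zero, k (C X)]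
  abel

end four

end Gar

open PowerSeries Gar in
theorem garland {A : Type*} [Ring A] [Algebra ℂ A] (S : Subring A)
    (φ : MvPolynomial ℕ ℂ →ₐ[ℂ] A) (G H : ℕ → A)
    (h1 : ∀ j, cm (G 0) (φ (MvPolynomial.X j)) = -H j)
    (h2 : ∀ j, cm (G 0) (H j) = (2 : ℂ) • G (j + 1))
    (h3 : ∀ j, cm (G 0) (G (j + 1)) = 0)
    (h4 : ∀ j, cm (φ (MvPolynomial.X 0)) (H j) = (-2 : ℂ) • φ (MvPolynomial.X (j + 1)))
    (h5 : ∀ j, cm (φ (MvPolynomial.X 0)) (G (j + 1)) = H (j + 1))
    (hG : ∀ t, dpow (G 0) t ∈ S)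
    (hE : ∀ t, dpow (φ (MvPolynomial.X 0)) t ∈ S)
    (hc : ∀ m k, φ (PowerSeries.coeff k (dpow PS m)) ∈ S) (m i : ℕ) :
    dpow (φ (MvPolynomial.X 0)) (m + i) * dpow (G 0) i -
        (-1) ^ i * φ (PowerSeries.coeff i (dpow PS m)) ∈
      AddSubgroup.closure {x | ∃ s ∈ S, ∃ m' k', m ≤ m' ∧ k' < i ∧
        x = s * φ (PowerSeries.coeff k' (dpow PS m'))} := by
  obtain ⟨B, hB, hW⟩ := main_comm (fun j => φ (MvPolynomial.X j)) G H
    (fun j => by rw [cm, ← map_mul, ← map_mul, mul_comm, sub_self]) h1 h2 h3 h4 h5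
  have hs : ∀ k : ℕ, (-1 : A) ^ k ∈ S := fun k => pow_mem (neg_mem (one_mem S)) k
  obtain ⟨W, hWd⟩ : ∃ W : A⟦X⟧⟦X⟧, W = C (ex (φ (MvPolynomial.X 0))) * ex (C (G 0)) := ⟨_, rfl⟩
  have cW : ∀ i r, coeff r (coeff i W) = dpow (φ (MvPolynomial.X 0)) r * dpow (G 0) i := by
    intro i r
    rw [hWd, coeff_C_mul, coeff_ex, dpow_C, coeff_mul_C, coeff_ex]
  have tW : ti W = C X * (C (C (φ (MvPolynomial.X 0))) * W) := by
    refine PowerSeries.ext fun i => ?_
    rw [hWd, coeff_ti, coeff_C_mul, coeff_C_mul, coeff_C_mul, coeff_C_mul, coeff_ex, dpow_C,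
      th_mul, th_C, th_ex, mul_zero, add_zero, mul_assoc, mul_assoc]
  have tX : ti (sb φ (ex (-PS))) =
      -(C X * (gz (fun j : ℕ => ((j : A) + 1) * φ (MvPolynomial.X j)) * sb φ (ex (-PS)))) := by
    rw [ti_sb, ode_ex, map_mul, map_mul, sb_X, sb_C, ← mul_neg, ← neg_mul, ← gen_neg]
    refine congrArg (fun a => C X * (gz a * _)) (funext fun j => ?_)
    simp [PS, add_mul]
  rw [← hWd] at hW
  have k : ∀ U V : A⟦X⟧⟦X⟧, U * (C X * V) = C X * (U * V) := fun U V => by
    rw [← mul_assoc, ← mul_assoc]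
    refine congrArg (· * V) (PowerSeries.ext fun n => ?_)
    rw [coeff_mul_C, coeff_C_mul, (commute_X _).eq]
  have hT : Tri (W * sb φ (ex (-PS))) := by
    refine tri_of_ode hB ?_
    rw [ti_mul, tW, tX, mul_neg, k, ← mul_assoc W, hW]
    noncomm_ring
  have hS : InS S (W * sb φ (ex (-PS))) := by
    refine InS.mul (fun i r => cW i r ▸ mul_mem (hE r) (hG i)) fun i r => ?_
    rw [coeff_sb, coeff_ex, dpow_neg, coeff_smul, map_smul]
    split_ifs
    · refine mul_mem (hs i) ?_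
      rcases neg_one_pow_eq_or ℂ (r - i) with h | h <;> simp [h, hc]
    · exact zero_mem S
  have h00 : coeff 0 (coeff 0 (W * sb φ (ex (-PS)))) = 1 := by
    rw [coeff_mul2]
    simp [cW, coeff_sb]
  have hE : W = W * sb φ (ex (-PS)) * sb φ (ex PS) := by
    rw [mul_assoc, ← map_mul, ex_neg_mul, map_one, mul_one]
  generalize W * sb φ (ex (-PS)) = Φ at hT hS h00 hE
  rw [← cW, hE, coeff_mul2, ← add_sum_erase _ _ (a := (0, i)) (by simp),
    sum_eq_single_of_mem (0, m + i) (by simp) fun q hq hne => ?_]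
  · rw [h00, one_mul, coeff_sb, if_pos (Nat.le_add_left i m), Nat.add_sub_cancel, coeff_ex,
      add_sub_cancel_left]
    refine sum_mem fun p hp => sum_mem fun q hq => ?_
    have a1 := mem_antidiagonal.1 (mem_erase.1 hp).2
    have a2 := mem_antidiagonal.1 hq
    have a3 : p.2 < i := by
      by_contra h
      exact (mem_erase.1 hp).1 (Prod.ext (by simp only; omega) (by simp only; omega))
    by_cases h : p.1 < q.1
    · rw [hT _ _ h, zero_mul]
      exact zero_mem _
    · rw [coeff_sb, if_pos (by omega), coeff_ex, ← mul_assoc]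
      exact AddSubgroup.subset_closure
        ⟨_, mul_mem (hS _ _) (hs _), q.2 - p.2, p.2, by omega, a3, rfl⟩
  · have a2 := mem_antidiagonal.1 hq
    rw [hT 0 q.1, zero_mul]
    by_contra h
    exact hne (Prod.ext (by simp only; omega) (by simp only; omega))

end Pool.Agent.Lib.MP_b2f51a_al
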