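import Pool.Agent.Lib.MP_b2f51a_al.Split.Ad
import Pool.Agent.Lib.MP_b2f51a_al.Split.Kost

/-! Reflection operators on an integrable module over the Kostant form. -/

noncomputable section

namespace Pool.Agent.Lib.MP_b2f51a_al

open Finset

variable {N : Type*} [AddCommGroup N] [Module UZ N]

theorem exists_exp {x : U} (hx : AdNil x) (X : ℕ → UZ) (hX : ∀ k, (X k).1 = dpow x k)
    (hN : ∀ y : N, ∃ K : ℕ, ∀ k, K ≤ k → X k • y = 0) : ∃ r : N →+ N, Function.Injective r ∧
    (∀ (u v : UZ) (y : N), v.1 = expAd x hx u.1 → r (u • y) = v • r y) ∧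
    ∀ R : AddSubgroup N, (∀ k, ∀ y ∈ R, X k • y ∈ R) → ∀ y ∈ R, r y ∈ R := by
  have hmem : ∀ k, dpow x k ∈ kostantForm := fun k => hX k ▸ (X k).2
  have hfin : ∀ y : N, (Function.support fun k => X k • y).Finite := by
    intro y
    obtain ⟨K, hK⟩ := hN y
    exact (Set.finite_lt_nat K).subset fun k hk => by
      by_contra hc
      exact hk (hK k (not_lt.1 hc))
  let r : N →+ N := AddMonoidHom.mk' (fun y => ∑ᶠ k, X k • y) fun y z => by
    simp only [smul_add]; exact finsum_add_distrib (hfin y) (hfin z)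
  have hr : ∀ (y : N) (K : ℕ), (∀ k, K ≤ k → X k • y = 0) → r y = ∑ k ∈ range K, X k • y := by
    intro y K hK
    refine finsum_eq_sum_of_support_subset _ fun k hk => ?_
    by_contra hc
    exact hk (hK k (by simpa using hc))
  have hmul : ∀ a b, X a * X b = (a + b).choose a • X (a + b) := by
    intro a b
    apply UZ_ext
    rw [UZ_mul, UZ_nsmul, hX, hX, hX, dpow_mul_dpow, Nat.cast_smul_eq_nsmul]
  refine ⟨r, (injective_iff_map_eq_zero r).2 fun y hy => ?_, fun u v y huv => ?_,
    fun R hR y hy => ?_⟩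
  · obtain ⟨K, hK⟩ := hN y
    have key : ∀ K, (∀ k, K ≤ k → X k • y = 0) → y = 0 := by
      intro K
      induction K with
      | zero =>
        intro h
        have h1 : X 0 = 1 := UZ_ext ((hX 0).trans (dpow_zero _))
        have := h 0 le_rfl
        rwa [h1, one_smul] at this
      | succ K ih =>
        intro h
        refine ih fun k hk => ?_
        rcases hk.eq_or_lt with rfl | hk
        · have h1 := congrArg (fun z => X K • z) hy
          simp only [smul_zero] at h1
          rw [hr y _ h, smul_sum, sum_range_succ', sum_eq_zero, zero_add, smul_smul, hmul] at h1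
          · simpa using h1
          · intro j _
            rw [smul_smul, hmul, smul_assoc, h _ (by omega), smul_zero]
        · exact h k hk
    exact key K hK
  · obtain ⟨a, ha, ha'⟩ := expAd_eq hx u.1
    obtain ⟨b, hb⟩ := hN y
    let C : ℕ → UZ := fun j => ⟨_, dpow_adU_mem _ hmem u.2 j⟩
    have h1 : ∀ k, X k * u = ∑ p ∈ antidiagonal k, C p.1 * X p.2 := by
      intro k
      apply UZ_ext
      rw [UZ_mul, UZ_sum, hX, dpow_mul_eq]
      exact sum_congr rfl fun p _ => by rw [UZ_mul, hX]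
    have h2 : ∀ i j, a ≤ i ∨ b ≤ j → C i • X j • y = 0 := by
      rintro i j (hi | hj)
      · rw [show C i = 0 from UZ_ext (ha i hi), zero_smul]
      · rw [hb j hj, smul_zero]
    have h3 : ∀ k, X k • u • y = ∑ p ∈ antidiagonal k, C p.1 • X p.2 • y := by
      intro k
      rw [smul_smul, h1, sum_smul]
      exact sum_congr rfl fun p _ => (smul_smul _ _ _).symm
    have h4 : v = ∑ j ∈ range a, C j := UZ_ext (by rw [huv, ha', UZ_sum])
    rw [hr _ (a + b), hr y b hb, h4, sum_smul]
    · simp only [h3, smul_sum]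
      exact sum_antidiagonal_sq (fun i j => C i • X j • y) a b h2
    · intro k hk
      rw [h3]
      refine sum_eq_zero fun p hp => h2 _ _ ?_
      have := HasAntidiagonal.mem_antidiagonal.1 hp
      omega
  · obtain ⟨K, hK⟩ := hN y
    rw [hr y K hK]
    exact R.sum_mem fun k _ => hR k y hy

theorem exists_refl (hN : IntZ N) (i : Fin 2) : ∃ r : N →+ N, Function.Injective r ∧
    (∀ (u v : UZ) (x : N), v.1 = TU i u.1 → r (u • x) = v • r x) ∧
    ∀ R : AddSubgroup N, (∀ k, ∀ x ∈ R, eZ i k • x ∈ R) → (∀ k, ∀ x ∈ R, fZ i k • x ∈ R) →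
      ∀ x ∈ R, r x ∈ R := by
  let Y : ℕ → UZ := fun k => (-1 : ℤ) ^ k • fZ i k
  have hY : ∀ k, (Y k).1 = dpow (-f i) k := by
    intro k
    rw [dpow_neg_eq, UZ_zsmul, zsmul_eq_mul]; push_cast; rfl
  obtain ⟨r, r1, r2, r3⟩ := exists_exp (N := N) (nil_ad_e i) (eZ i) (fun _ => rfl) fun y =>
    (hN y i).imp fun K hK k hk => (hK k hk).1
  obtain ⟨s, s1, s2, s3⟩ := exists_exp (N := N) (nil_ad_f i) Y hY fun y =>
    (hN y i).imp fun K hK k hk => by rw [smul_assoc, (hK k hk).2, smul_zero]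
  refine ⟨r.comp (s.comp r), r1.comp (s1.comp r1), fun u v x huv => ?_, fun R h1 h2 x hx => ?_⟩
  · let u1 : UZ := ⟨_, expAd_mem _ (nil_ad_e i) (fun k => (eZ i k).2) u.2⟩
    let u2 : UZ := ⟨_, expAd_mem _ (nil_ad_f i) (fun k => hY k ▸ (Y k).2) u1.2⟩
    simp only [AddMonoidHom.comp_apply]
    rw [r2 u u1 _ rfl, s2 u1 u2 _ rfl, r2 u2 v _ huv]
  · refine r3 R h1 _ (s3 R (fun k y hy => ?_) _ (r3 R h1 x hx))
    rw [smul_assoc]
    exact R.zsmul_mem (h2 k y hy) _

end Pool.Agent.Lib.MP_b2f51a_al
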