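import Pool.Agent.Lib.MP_b2f51a_al.Split.LoopU
import Pool.Agent.Lib.MP_b2f51a_al.Split.Refl
import Pool.Agent.Lib.MP_b2f51a_al.Split.Garland

/-! The Demazure filtration of a highest weight module over the Kostant form and its reduction to
the principal subspace. -/

noncomputable section

namespace Pool.Agent.Lib.MP_b2f51a_al

open Finset

variable {N : Type*} [AddCommGroup N] [Module UZ N]

lemma dem_mul_smul (u v : UZ) (x : N) : (u * v) • x = u • v • x :=
  (smul_smul u v x).symm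

lemma dem_smul_sum {ι : Type*} (s : Finset ι) (u : UZ) (v : ι → UZ) (x : N) :
    u • (∑ i ∈ s, v i) • x = ∑ i ∈ s, (u * v i) • x := by
  rw [sum_smul, smul_sum]
  exact sum_congr rfl fun i _ => (dem_mul_smul _ _ _).symm

/-- Alternating index. -/
def demAlt (k : ℕ) : Fin 2 := if k % 2 = 0 then 0 else 1

/-- Alternating words in the divided powers of the `f_i` applied to `y`. -/
def demS (y : N) : ℕ → Set N
  | 0 => {y}
  | k + 1 => {x | ∃ j, ∃ x' ∈ demS y k, x = fZ (demAlt k) j • x'}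

/-- The Demazure filtration. -/
def demD (y : N) (k : ℕ) : AddSubgroup N := AddSubgroup.closure (demS y k)

lemma dem_S_wt {lam : Fin 2 → ℤ} {y : N} (hy : WtZ lam y) (k : ℕ) :
    ∀ x ∈ demS y k, ∃ mu : Fin 2 → ℤ, WtZ mu x := by
  induction k with
  | zero => rintro x rfl; exact ⟨lam, hy⟩
  | succ k ih =>
    rintro x ⟨j, x', hx', rfl⟩
    obtain ⟨mu, h2⟩ := ih x' hx'
    exact ⟨_, h2.f _ j⟩

omit [Module UZ N] in
lemma dem_closure_ind {s : Set N} {R : AddSubgroup N} (X : N →+ N) (h2 : ∀ x ∈ s, X x ∈ R) :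
    ∀ x ∈ AddSubgroup.closure s, X x ∈ R := by
  have : AddSubgroup.closure s ≤ R.comap X := (AddSubgroup.closure_le _).2 h2
  exact fun x hx => this hx

lemma dem_smul_ind {s : Set N} {R : AddSubgroup N} (u : UZ) (h2 : ∀ x ∈ s, u • x ∈ R) :
    ∀ x ∈ AddSubgroup.closure s, u • x ∈ R :=
  dem_closure_ind (DistribSMul.toAddMonoidHom N u) h2

lemma dem_mem_D {y x : N} {k : ℕ} (h : x ∈ demS y k) : x ∈ demD y k :=
  AddSubgroup.subset_closure h

lemma dem_f_succ (y : N) (k j : ℕ) : ∀ x ∈ demD y k, fZ (demAlt k) j • x ∈ demD y (k + 1) :=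
  dem_smul_ind _ fun x hx => dem_mem_D ⟨j, x, hx, rfl⟩

lemma dem_mono (y : N) : Monotone (demD y) :=
  monotone_nat_of_le_succ fun k x hx => by
    simpa [fZ_zero] using dem_f_succ y k 0 x hx

lemma dem_f_stab (y : N) (k j : ℕ) :
    ∀ x ∈ demD y (k + 1), fZ (demAlt k) j • x ∈ demD y (k + 1) := by
  refine dem_smul_ind _ ?_
  rintro x ⟨j', x', hx', rfl⟩
  rw [← dem_mul_smul, fZ_mul, smul_assoc]
  exact AddSubgroup.nsmul_mem _ (dem_mem_D (k := k + 1) ⟨_, x', hx', rfl⟩) _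

lemma dem_e_stab {lam : Fin 2 → ℤ} {y : N} (hy : HwZ lam y) (k : ℕ) (i : Fin 2) :
    ∀ a, ∀ x ∈ demD y k, eZ i a • x ∈ demD y k := by
  induction k with
  | zero =>
    intro a
    refine dem_smul_ind _ ?_
    rintro x rfl
    rcases Nat.eq_zero_or_pos a with rfl | ha
    · rw [eZ_zero, one_smul]; exact dem_mem_D (k := 0) rfl
    · rw [hy.e i a ha]; exact zero_mem _
  | succ k ih =>
    intro a
    refine dem_smul_ind _ ?_
    rintro x ⟨j, x', hx', rfl⟩
    obtain ⟨mu, hmu⟩ := dem_S_wt hy.wt k x' hx'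
    by_cases hi : i = demAlt k
    · subst hi
      rw [kostantZ hmu]
      exact AddSubgroup.sum_mem _ fun t _ => AddSubgroup.zsmul_mem _
        (dem_f_succ y k _ _ (ih _ _ (dem_mem_D hx'))) _
    · rw [← dem_mul_smul, eZ_fZ_comm hi, dem_mul_smul]
      exact dem_f_succ y k _ _ (ih _ _ (dem_mem_D hx'))

lemma dem_h_stab {lam : Fin 2 → ℤ} {y : N} (hy : WtZ lam y) (k : ℕ) (i : Fin 2) (a : ℕ) :
    ∀ x ∈ demD y k, hZ i a • x ∈ demD y k := by
  refine dem_smul_ind _ fun x hx => ?_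
  obtain ⟨mu, hmu⟩ := dem_S_wt hy k x hx
  rw [hmu]
  exact AddSubgroup.zsmul_mem _ (dem_mem_D hx) _

lemma dem_stab {lam : Fin 2 → ℤ} {y : N} (hy : HwZ lam y) (u : UZ) :
    ∀ k, ∀ x ∈ demD y k, ∃ k', u • x ∈ demD y k' := by
  induction u using UZ_ind with
  | he i a => exact fun k x hx => ⟨k, dem_e_stab hy k i a x hx⟩
  | hf i a =>
    intro k x hx
    have h1 : demAlt (2 * k + i) = i := by
      unfold demAlt; fin_cases i <;> simp
    have := dem_f_succ y (2 * k + i) a x (dem_mono y (by omega) hx)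
    rw [h1] at this
    exact ⟨_, this⟩
  | hh i a => exact fun k x hx => ⟨k, dem_h_stab hy.wt k i a x hx⟩
  | h0 => exact fun k x _ => ⟨k, by rw [zero_smul]; exact zero_mem _⟩
  | h1 => exact fun k x hx => ⟨k, by rwa [one_smul]⟩
  | hadd u v hu hv =>
    intro k x hx
    obtain ⟨k1, h1⟩ := hu k x hx
    obtain ⟨k2, h2⟩ := hv k x hx
    refine ⟨max k1 k2, ?_⟩
    rw [add_smul]
    exact add_mem (dem_mono y (le_max_left _ _) h1) (dem_mono y (le_max_right _ _) h2)
  | hneg u hu =>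
    intro k x hx
    obtain ⟨k1, h1⟩ := hu k x hx
    exact ⟨k1, by rw [neg_smul]; exact neg_mem h1⟩
  | hmul u v hu hv =>
    intro k x hx
    obtain ⟨k1, h1⟩ := hv k x hx
    obtain ⟨k2, h2⟩ := hu k1 _ h1
    exact ⟨k2, by rwa [dem_mul_smul]⟩

lemma dem_exists {lam : Fin 2 → ℤ} {y : N} (hy : HwZ lam y) (u : UZ) :
    ∃ k, u • y ∈ demD y k :=
  dem_stab hy u 0 y (dem_mem_D (k := 0) rfl)

/-- The submodule generated by a highest weight vector is spanned by words in the `f_i^{(k)}`. -/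
theorem span_le {lam : Fin 2 → ℤ} {y : N} (hy : HwZ lam y) (B : AddSubgroup N) (hyB : y ∈ B)
    (hB : ∀ i k, ∀ x ∈ B, fZ i k • x ∈ B) (u : UZ) : u • y ∈ B := by
  obtain ⟨k, hk⟩ := dem_exists hy u
  have h1 : ∀ k, ∀ x ∈ demS y k, x ∈ B := by
    intro k
    induction k with
    | zero => rintro x rfl; exact hyB
    | succ k ih =>
      rintro x ⟨j, x', hx', rfl⟩
      exact hB _ _ _ (ih x' hx')
  exact (AddSubgroup.closure_le _).2 (h1 k) hk

lemma dem_neg_two {A : Type*} [Ring A] [Algebra ℂ A] (x : A) :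
    -((-2 : ℂ) • x) = (2 : ℂ) • x := by
  rw [neg_smul, neg_neg]

lemma dem_garland (m i : ℕ) :
    dpow (f 0) (m + i) * dpow (f 1) i - (-1) ^ i * curU (PowerSeries.coeff i (dpow PS m)) ∈
      AddSubgroup.closure {x | ∃ s ∈ kostantForm, ∃ m' k', m ≤ m' ∧ k' < i ∧
        x = s * curU (PowerSeries.coeff k' (dpow PS m'))} := by
  have e0 : curU (MvPolynomial.X 0) = JU true (-1) := by rw [curU_X]; simp
  have g0 : JU false (-((0 : ℕ) : ℤ)) = JU false 0 := by simp
  have := garland kostantForm curU (fun j => JU false (-(j : ℤ)))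
    (fun j => cm (JU true (-1 - (j : ℤ))) (JU false 0))
    (fun j => by rw [g0, curU_X, cm_skew])
    (fun j => by
      have h := JU_cubic false 0 0 (-1 - (j : ℤ))
      rw [Bool.not_false] at h
      rw [g0, cm_skew (JU true _), cm_neg_right, h, dem_neg_two]
      congr 2; push_cast; ring)
    (fun j => JU_comm _ _ _)
    (fun j => by
      have h := JU_cubic true (-1) (-1 - (j : ℤ)) 0
      rw [Bool.not_true] at h
      rw [e0, h, curU_X]
      congr 2; push_cast; ring)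
    (fun j => by
      rw [e0]
      exact JU_shift true _ _ _ _ (by push_cast; ring) (by push_cast; omega))
    (fun t => dpow_JU_mem _ _ _) (fun t => by rw [e0]; exact dpow_JU_mem _ _ _)
    curU_PS_mem m i
  rwa [e0, g0, JU_f0, JU_f1] at this

lemma dem_ff (hN : IntZ N) {l n : ℕ} {y : N} (hy : HwZ (wt l n) y) (m k : ℕ) (hm : l < m) :
    fZ 0 (m + k) • fZ 1 k • y = 0 := by
  by_cases hk : n < k
  · obtain ⟨K, hK⟩ := hN y 1
    rw [fZ_eq_zero ⟨K, fun j hj => (hK j hj).2⟩ hy.wt (hy.e 1) k (by simpa [wt] using hk),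
      smul_zero]
  · obtain ⟨K, hK⟩ := hN (fZ 1 k • y) 0
    refine fZ_eq_zero ⟨K, fun j hj => (hK j hj).2⟩ (hy.wt.f 1 k) (fun a ha => ?_) _ ?_
    · rw [← dem_mul_smul, eZ_fZ_comm (by decide), dem_mul_smul, hy.e 0 a ha, smul_zero]
    · simp [wt, cartan]; omega

/-- The relations of the principal subspace. -/
theorem rel_zero (hN : IntZ N) {l n : ℕ} {y : N} (hy : HwZ (wt l n) y) (m k : ℕ) (hm : l < m) :
    cZ m k • y = 0 := by
  induction k using Nat.strong_induction_on generalizing m with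
  | _ k ih =>
  have h1 : ∀ z ∈ AddSubgroup.closure {x | ∃ s ∈ kostantForm, ∃ m' k', m ≤ m' ∧ k' < k ∧
      x = s * curU (PowerSeries.coeff k' (dpow PS m'))}, ∃ u : UZ, u.1 = z ∧ u • y = 0 := by
    intro z hz
    induction hz using AddSubgroup.closure_induction with
    | mem z hz =>
      obtain ⟨s, hs, m', k', h1, h2, rfl⟩ := hz
      have hs' : ∃ v : UZ, v.1 = s := ⟨⟨s, hs⟩, rfl⟩
      obtain ⟨v, rfl⟩ := hs'
      exact ⟨v * cZ m' k', rfl, by rw [dem_mul_smul, ih k' h2 m' (by omega), smul_zero]⟩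
    | zero => exact ⟨0, rfl, zero_smul _ _⟩
    | add a b _ _ ha hb =>
      obtain ⟨u, rfl, hu⟩ := ha
      obtain ⟨v, rfl, hv⟩ := hb
      exact ⟨u + v, rfl, by rw [add_smul, hu, hv, add_zero]⟩
    | neg a _ ha =>
      obtain ⟨u, rfl, hu⟩ := ha
      exact ⟨-u, rfl, by rw [neg_smul, hu, neg_zero]⟩
  obtain ⟨u, hu, hu0⟩ := h1 _ (dem_garland m k)
  have h2 := dem_ff hN hy m k hm
  rcases Nat.even_or_odd k with hk | hk
  · rw [hk.neg_one_pow, one_mul, sub_eq_add_neg] at hu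
    have : u = fZ 0 (m + k) * fZ 1 k + -cZ m k := UZ_ext hu
    rw [this, add_smul, dem_mul_smul, h2, zero_add, neg_smul, neg_eq_zero] at hu0
    exact hu0
  · rw [hk.neg_one_pow, neg_one_mul, sub_neg_eq_add] at hu
    have : u = fZ 0 (m + k) * fZ 1 k + cZ m k := UZ_ext hu
    rw [this, add_smul, dem_mul_smul, h2, zero_add] at hu0
    exact hu0

lemma dem_xZ (k : ℕ) : xZ (-1) k = fZ 0 k := by
  apply UZ_ext
  change dpow (JU true (-1)) k = dpow (f 0) k
  rw [JU_f0]

theorem span_gordonZ (hN : IntZ N) {l n : ℕ} {y : N} (hy : HwZ (wt l n) y) (a : ℕ →₀ ℕ) :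
    dmZ a • y ∈ AddSubgroup.closure {x | ∃ b, GordonL l n b ∧ x = dmZ b • y} := by
  suffices h : ∀ M, ∀ a : ℕ →₀ ℕ, tot a ^ 2 - sqs a = M →
      dmZ a • y ∈ AddSubgroup.closure {x | ∃ b, GordonL l n b ∧ x = dmZ b • y} from h _ a rfl
  intro M
  induction M using Nat.strong_induction_on with
  | _ M ih =>
  intro a hM
  by_cases hG : GordonL l n a
  · exact AddSubgroup.subset_closure ⟨a, hG, rfl⟩
  by_cases h2 : a 0 + n ≤ l
  swap
  · have h0 : dmZ (Finsupp.single 0 (a 0)) • y = 0 := by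
      obtain ⟨K, hK⟩ := hN y 0
      rw [dmZ_single, show (-1 : ℤ) - ((0 : ℕ) : ℤ) = -1 by simp, dem_xZ]
      refine fZ_eq_zero ⟨K, fun j hj => (hK j hj).2⟩ hy.wt (hy.e 0) _ ?_
      simp [wt]; omega
    rw [← Finsupp.erase_add_single 0 a, ← dmZ_mul_of_disjoint, dem_mul_smul, h0, smul_zero]
    · exact zero_mem _
    · intro i
      by_cases h : i = 0
      · subst h; left; simp
      · right; exact Finsupp.single_eq_of_ne h
  have h3 : ∃ j, l < a j + a (j + 1) := by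
    by_contra hc
    push Not at hc
    exact hG ⟨h2, hc⟩
  obtain ⟨j, hj⟩ := h3
  set b0 : ℕ →₀ ℕ := Finsupp.single j (a j) + Finsupp.single (j + 1) (a (j + 1)) with hb0
  set r : ℕ →₀ ℕ := (a.erase j).erase (j + 1) with hr
  have e1 : r + b0 = a := by
    ext i
    by_cases hi : i = j
    · subst hi; simp [hr, hb0]
    · by_cases hi' : i = j + 1
      · subst hi'; simp [hr, hb0]
      · simp [hr, hb0, Finsupp.erase_ne hi, Finsupp.erase_ne hi', Finsupp.single_eq_of_ne hi,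
          Finsupp.single_eq_of_ne hi']
  have e2 : dmZ a = dmZ r * dmZ b0 := by
    rw [dmZ_mul_of_disjoint, e1]
    intro i
    by_cases hi : i = j
    · subst hi; left; simp [hr]
    · by_cases hi' : i = j + 1
      · subst hi'; left; simp [hr]
      · right; simp [hb0, Finsupp.single_eq_of_ne hi, Finsupp.single_eq_of_ne hi']
  obtain ⟨s, hs, hs'⟩ := cZ_eq (cnt b0) (tot b0)
  have hc : cnt b0 = a j + a (j + 1) := by simp [hb0, cnt, Finsupp.weight_single]
  have h4 := rel_zero hN hy (cnt b0) (tot b0) (by omega)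
  have hb : b0 ∈ s := (hs _).2 ⟨rfl, rfl⟩
  rw [hs', ← add_sum_erase _ _ hb, add_smul] at h4
  have h5 := eq_neg_of_add_eq_zero_left h4
  rw [e2, dem_mul_smul, h5, smul_neg, dem_smul_sum]
  refine AddSubgroup.neg_mem _ (AddSubgroup.sum_mem _ fun b hb' => ?_)
  obtain ⟨c, hc⟩ := dmZ_mul r b
  rw [hc, smul_assoc]
  have hb2 := (hs b).1 (mem_of_mem_erase hb')
  have h6 : sqs b0 < sqs b := sqs_lt hb2.1 hb2.2 (ne_of_mem_erase hb')
  refine AddSubgroup.nsmul_mem _ (ih _ ?_ (r + b) rfl) c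
  have h7 : tot (r + b) = tot a := by
    rw [← e1]; simp only [tot, map_add] at hb2 ⊢; rw [hb2.2]
  have h8 : sqs a < sqs (r + b) := by
    rw [← e1]; simp only [sqs, map_add] at h6 ⊢; omega
  have h9 := sqs_le (r + b)
  rw [h7] at h9 ⊢
  omega

/-- Alternating products of braid group automorphisms. -/
def demTheta : ℕ → U →ₐ[ℂ] U
  | 0 => AlgHom.id ℂ U
  | k + 1 => (demTheta k).comp (TU (demAlt k))

lemma dem_theta_JU (j : ℕ) : ∀ a : ℤ, demTheta (2 * j) (JU true a) = JU true (a - 2 * j) ∧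
    demTheta (2 * j + 1) (JU false a) = -JU true (a - 2 * j - 2) := by
  have step : ∀ j : ℕ, (∀ a : ℤ, demTheta (2 * j) (JU true a) = JU true (a - 2 * j)) →
      ∀ a : ℤ, demTheta (2 * j + 1) (JU false a) = -JU true (a - 2 * j - 2) := by
    intro j h a
    have h1 : demAlt (2 * j) = 0 := by simp [demAlt]
    have h2 := (TU_zero (a - 2)).2
    rw [sub_add_cancel] at h2
    rw [demTheta, h1, AlgHom.comp_apply, h2, map_neg, h]
    congr 2; ring
  have main : ∀ a : ℤ, demTheta (2 * j) (JU true a) = JU true (a - 2 * j) := by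
    induction j with
    | zero => intro a; simp [demTheta]
    | succ j ih =>
      intro a
      have h1 : demAlt (2 * j + 1) = 1 := by simp [demAlt]
      rw [show 2 * (j + 1) = 2 * j + 1 + 1 by ring, demTheta, h1, AlgHom.comp_apply,
        (TU_one a).2, map_neg, step j ih, neg_neg]
      congr 1; push_cast; ring
  exact fun a => ⟨main a, step j main a⟩

lemma dem_theta_f (k : ℕ) : demTheta k (f (demAlt k)) = JU true (-1 - k) ∨
    demTheta k (f (demAlt k)) = -JU true (-1 - k) := by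
  obtain ⟨j, rfl | rfl⟩ := Nat.even_or_odd' k
  · left
    have h1 : demAlt (2 * j) = 0 := by simp [demAlt]
    rw [h1, ← JU_f0, (dem_theta_JU j _).1]
    congr 1
  · right
    have h1 : demAlt (2 * j + 1) = 1 := by simp [demAlt]
    rw [h1, ← JU_f1, (dem_theta_JU j _).2]
    congr 2; push_cast; ring

lemma dem_dpow_neg {A : Type*} [Ring A] [Algebra ℂ A] (x : A) (k : ℕ) :
    dpow (-x) k = dpow x k ∨ dpow (-x) k = -dpow x k := by
  rw [dpow_neg]
  rcases neg_one_pow_eq_or ℂ k with h | h <;> simp [h]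

lemma dem_theta_fZ (k j : ℕ) : (xZ (-1 - k) j).1 = demTheta k (fZ (demAlt k) j).1 ∨
    (-xZ (-1 - k) j).1 = demTheta k (fZ (demAlt k) j).1 := by
  change dpow (JU true (-1 - k)) j = demTheta k (dpow (f (demAlt k)) j) ∨
    -dpow (JU true (-1 - k)) j = demTheta k (dpow (f (demAlt k)) j)
  rw [map_dpow]
  rcases dem_theta_f k with h | h
  · rw [h]; exact Or.inl rfl
  · rw [h]
    rcases dem_dpow_neg (JU true (-1 - k)) j with h' | h'
    · exact Or.inl h'.symm
    · exact Or.inr h'.symm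

lemma dem_conj (hN : IntZ N) {lam : Fin 2 → ℤ} {y : N} (hy : HwZ lam y) (K : Submodule UZ N)
    (W : AddSubgroup N) (hyW : y ∈ W) (hW : ∀ k j : ℕ, ∀ x ∈ W, xZ (-1 - k) j • x ∈ W) (k : ℕ) :
    ∃ g : N →+ N, Function.Injective g ∧ (∀ x ∈ K, g x ∈ K) ∧
      (∀ (u v : UZ) (x : N), v.1 = demTheta k u.1 → g (u • x) = v • g x) ∧
      ∀ x ∈ demD y k, g x ∈ W := by
  induction k with
  | zero =>
    refine ⟨AddMonoidHom.id N, Function.injective_id, fun x hx => hx, fun u v x h => ?_,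
      dem_closure_ind _ (by rintro x rfl; exact hyW)⟩
    rw [UZ_ext (u := v) (v := u) h]; rfl
  | succ k ih =>
    obtain ⟨g, g1, g2, g3, g4⟩ := ih
    obtain ⟨r, r1, r2, r3⟩ := exists_refl hN (demAlt k)
    have h1 : ∀ x ∈ demD y (k + 1), g x ∈ W := by
      refine dem_closure_ind _ ?_
      rintro x ⟨j, x', hx', rfl⟩
      have h2 := hW k j _ (g4 x' (dem_mem_D hx'))
      rcases dem_theta_fZ k j with h | h
      · rwa [g3 _ _ _ h]
      · rw [g3 _ _ _ h, neg_smul]; exact neg_mem h2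
    refine ⟨g.comp r, g1.comp r1, fun x hx => g2 _ ?_, fun u v x h => ?_, fun x hx => h1 _ ?_⟩
    · exact r3 K.toAddSubgroup (fun _ _ h => K.smul_mem _ h) (fun _ _ h => K.smul_mem _ h) x hx
    · have hw : ∃ w : UZ, w.1 = TU (demAlt k) u.1 := ⟨⟨_, TU_mem _ u.2⟩, rfl⟩
      obtain ⟨w, hw⟩ := hw
      rw [AddMonoidHom.comp_apply, AddMonoidHom.comp_apply, r2 u w x hw]
      refine g3 w v _ ?_
      rw [h, hw]; rfl
    · exact r3 _ (dem_e_stab hy _ _) (dem_f_stab y k) x hx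

theorem keyZ (hN : IntZ N) {l n : ℕ} {y : N} (hy : HwZ (wt l n) y) (K : Submodule UZ N)
    (c4 : ∀ x ∈ AddSubgroup.closure {x | ∃ b, GordonL l n b ∧ x = dmZ b • y}, x ∈ K → x = 0)
    (u : UZ) (hu : u • y ∈ K) : u • y = 0 := by
  obtain ⟨k, hk⟩ := dem_exists hy u
  obtain ⟨g, g1, g2, -, g4⟩ := dem_conj hN hy K
    (AddSubgroup.closure {x | ∃ b, GordonL l n b ∧ x = dmZ b • y})
    (by simpa [dmZ_zero] using span_gordonZ hN hy 0)
    (fun k j => dem_smul_ind _ (by
      rintro x ⟨b, -, rfl⟩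
      obtain ⟨c, hc⟩ := dmZ_mul (Finsupp.single k j) b
      rw [← dmZ_single, ← dem_mul_smul, hc, smul_assoc]
      exact AddSubgroup.nsmul_mem _ (span_gordonZ hN hy _) c)) k
  exact g1 ((c4 _ (g4 _ hk) (g2 _ hu)).trans (map_zero g).symm)

end Pool.Agent.Lib.MP_b2f51a_al
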