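import Pool.Agent.Lib.MP_b2f51a_al.Split.Univ

/-! Graded extensions of Weyl modules split when the degree of the quotient is not lower. -/

noncomputable section

namespace Pool.Agent.Lib.MP_b2f51a_al

universe u

variable {F : Type u} [Field F]

namespace Fin0

/-- Different integers are separated by their binomial coefficients in any field. -/
lemma sep (F : Type u) [Field F] {a b : ℤ} (hab : a ≠ b) :
    ∃ k : ℕ, ((Ring.choose a k : ℤ) : F) ≠ ((Ring.choose b k : ℤ) : F) := by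
  wlog hlt : b < a generalizing a b
  · obtain ⟨k, hk⟩ := this hab.symm (by omega)
    exact ⟨k, hk.symm⟩
  by_contra! H
  obtain ⟨k, hk⟩ : ∃ k : ℕ, a + -b = k := ⟨(a - b).toNat, by omega⟩
  have h1 : ((Ring.choose (a + -b) k : ℤ) : F) = ((Ring.choose (b + -b) k : ℤ) : F) := by
    rw [Ring.add_choose_eq k (Commute.all _ _), Ring.add_choose_eq k (Commute.all _ _)]
    push_cast
    exact Finset.sum_congr rfl fun ij _ => by rw [H]
  rw [hk, add_neg_cancel, Ring.choose_natCast, Nat.choose_self,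
    Ring.choose_zero_pos ℤ (by omega : 0 < k)] at h1
  simp at h1

variable {E : Type*} [AddCommGroup E] [Module F E] [Module UZ E] [SMulCommClass F UZ E]

/-- `x` has `h_1`-weight `c`. -/
def H1 (c : ℤ) (x : E) : Prop := ∀ k, hZ 1 k • x = (Ring.choose c k : ℤ) • x

omit [SMulCommClass F UZ E] in
lemma H1.op {c : ℤ} {x : E} (hx : H1 c x) (a b : F) (k : ℕ) :
    a • hZ 1 k • x - b • x = (a * ((Ring.choose c k : ℤ) : F) - b) • x := by
  rw [hx k, sub_smul, mul_smul, Int.cast_smul_eq_zsmul]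

omit [SMulCommClass F UZ E] in
/-- Projection on one weight. -/
lemma proj (P : ℤ → E → Prop) (hP : ∀ c x, P c x → H1 c x)
    (hs : ∀ c (a : F) x, P c x → P c (a • x)) (lam : ℤ) (Q : E → Prop)
    (hQ : ∀ (a b : F) (k : ℕ) x, a * ((Ring.choose lam k : ℤ) : F) - b = 1 → Q x →
      Q (a • hZ 1 k • x - b • x))
    {x : E} (hx : x ∈ AddSubgroup.closure {x | ∃ c, P c x}) (hq : Q x) :
    ∃ x' ∈ AddSubgroup.closure {x | P lam x}, Q x' := by
  classical
  obtain ⟨W, hW⟩ : ∃ W : Finset ℤ,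
      x ∈ AddSubgroup.closure {x | ∃ c, (c ∈ W ∨ c = lam) ∧ P c x} := by
    clear hq
    induction hx using AddSubgroup.closure_induction with
    | mem x hx =>
      obtain ⟨c, hc⟩ := hx
      exact ⟨{c}, AddSubgroup.subset_closure ⟨c, Or.inl (Finset.mem_singleton_self c), hc⟩⟩
    | zero => exact ⟨∅, zero_mem _⟩
    | add x y _ _ hx hy =>
      obtain ⟨W, hW⟩ := hx
      obtain ⟨W', hW'⟩ := hy
      refine ⟨W ∪ W', add_mem (AddSubgroup.closure_mono ?_ hW) (AddSubgroup.closure_mono ?_ hW')⟩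
      · rintro z ⟨c, hc, hz⟩
        exact ⟨c, hc.imp_left fun h => Finset.mem_union_left _ h, hz⟩
      · rintro z ⟨c, hc, hz⟩
        exact ⟨c, hc.imp_left fun h => Finset.mem_union_right _ h, hz⟩
    | neg x _ hx =>
      obtain ⟨W, hW⟩ := hx
      exact ⟨W, neg_mem hW⟩
  clear hx
  induction W using Finset.induction_on generalizing x with
  | empty =>
    refine ⟨x, AddSubgroup.closure_mono ?_ hW, hq⟩
    rintro z ⟨c, hc | rfl, hz⟩
    · simp at hc
    · exact hz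
  | insert c W _ ih =>
    by_cases hc : c = lam
    · refine ih hq (AddSubgroup.closure_mono ?_ hW)
      rintro z ⟨c', hc', hz⟩
      refine ⟨c', ?_, hz⟩
      rcases hc' with h | h
      · rcases Finset.mem_insert.mp h with h | h
        · exact Or.inr (h.trans hc)
        · exact Or.inl h
      · exact Or.inr h
    obtain ⟨k, hk⟩ := sep F (Ne.symm hc)
    have hk' := sub_ne_zero.mpr hk
    set α : F := ((Ring.choose lam k : ℤ) : F) with hα
    set β : F := ((Ring.choose c k : ℤ) : F) with hβ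
    refine ih (hQ (α - β)⁻¹ ((α - β)⁻¹ * β) k x (by rw [← hα, ← mul_sub, inv_mul_cancel₀ hk']) hq) ?_
    clear hq
    induction hW using AddSubgroup.closure_induction with
    | mem z hz =>
      obtain ⟨c', hc', hz⟩ := hz
      rw [(hP c' z hz).op]
      by_cases h : c' = c
      · rw [h, sub_self, zero_smul]
        exact zero_mem _
      · refine AddSubgroup.subset_closure ⟨c', hc'.imp_left fun h' => ?_, hs _ _ _ hz⟩
        exact (Finset.mem_insert.mp h').resolve_left h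
    | zero => simp
    | add y z _ _ hy hz =>
      convert add_mem hy hz using 1
      simp only [smul_add]
      abel
    | neg y _ hy =>
      convert neg_mem hy using 1
      simp only [smul_neg]
      abel

lemma wt_smul {mu : Fin 2 → ℤ} {x : E} (hx : WtZ mu x) (a : F) : WtZ mu (a • x) := fun i k => by
  rw [← smul_comm a, hx i k, smul_comm]

omit [Module F E] [SMulCommClass F UZ E] in
lemma wt_closure {mu : Fin 2 → ℤ} {x : E} (hx : x ∈ AddSubgroup.closure {x | WtZ mu x}) :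
    WtZ mu x := by
  induction hx using AddSubgroup.closure_induction with
  | mem x hx => exact hx
  | zero => intro i k; simp
  | add x y _ _ hx hy => intro i k; rw [smul_add, smul_add, hx i k, hy i k]
  | neg x _ hx => intro i k; rw [smul_neg, smul_neg, hx i k]

variable (F) in
/-- The span of the vectors `f_1^{(j)} y`. -/
def A0 (y : E) : AddSubgroup E := AddSubgroup.closure {x | ∃ (j : ℕ) (a : F), x = a • fZ 1 j • y}

variable (F) in
/-- A grading by the degree. -/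
structure Gr (g : ℤ → AddSubgroup E) : Prop where
  indep : iSupIndep g
  scalar : ∀ n (a : F), ∀ x ∈ g n, a • x ∈ g n
  raise : ∀ n i (k : ℕ), ∀ x ∈ g n, eZ i k • x ∈ g (n + if i = 0 then (k : ℤ) else 0)
  lower : ∀ n i (k : ℕ), ∀ x ∈ g n, fZ i k • x ∈ g (n - if i = 0 then (k : ℤ) else 0)
  torus : ∀ n i k, ∀ x ∈ g n, hZ i k • x ∈ g n

variable {g : ℤ → AddSubgroup E}

omit [SMulCommClass F UZ E] in
lemma f1_mem (hg : Gr F g) {y : E} (hy : y ∈ g 0) (j : ℕ) : fZ 1 j • y ∈ g 0 := by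
  simpa using hg.lower 0 1 j y hy

omit [SMulCommClass F UZ E] in
lemma A0_le (hg : Gr F g) {y : E} (hy : y ∈ g 0) : A0 F y ≤ g 0 := by
  refine (AddSubgroup.closure_le _).mpr ?_
  rintro _ ⟨j, a, rfl⟩
  exact hg.scalar 0 a _ (f1_mem hg hy j)

lemma span_mem (hg : Gr F g) {lam : Fin 2 → ℤ} {y : E} (hy : HwZ lam y) (hy0 : y ∈ g 0) (a : F)
    (u : UZ) : a • u • y ∈ A0 F y ⊔ ⨆ d : {d : ℤ // d < 0}, g d := by
  have hN : ∀ {d : ℤ}, d < 0 → ∀ x ∈ g d, x ∈ A0 F y ⊔ ⨆ d : {d : ℤ // d < 0}, g d :=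
    fun {d} hd x hx => AddSubgroup.mem_sup_right (AddSubgroup.mem_iSup_of_mem ⟨d, hd⟩ hx)
  have st : ∀ φ : E →+ E, (∀ (j : ℕ) (a : F), φ (a • fZ 1 j • y) ∈
      A0 F y ⊔ ⨆ d : {d : ℤ // d < 0}, g d) →
      (∀ d < 0, ∀ x ∈ g d, φ x ∈ A0 F y ⊔ ⨆ d : {d : ℤ // d < 0}, g d) →
      ∀ x ∈ A0 F y ⊔ ⨆ d : {d : ℤ // d < 0}, g d,
        φ x ∈ A0 F y ⊔ ⨆ d : {d : ℤ // d < 0}, g d := by
    intro φ h1 h2 x hx
    have : A0 F y ⊔ ⨆ d : {d : ℤ // d < 0}, g d ≤
        (A0 F y ⊔ ⨆ d : {d : ℤ // d < 0}, g d).comap φ := by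
      refine sup_le ((AddSubgroup.closure_le _).mpr ?_) (iSup_le fun d z hz => h2 d d.2 z hz)
      rintro _ ⟨j, a, rfl⟩
      exact h1 j a
    exact this hx
  refine st (DistribSMul.toAddMonoidHom E a) (fun j b => ?_)
    (fun d hd x hx => hN hd _ (hg.scalar d a x hx)) _ (span_le hy _ ?_ (fun i k => ?_) u)
  · exact AddSubgroup.mem_sup_left (AddSubgroup.subset_closure ⟨j, a * b, (mul_smul _ _ _).symm⟩)
  · exact AddSubgroup.mem_sup_left (AddSubgroup.subset_closure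
      ⟨0, 1, by rw [fZ_zero, one_smul, one_smul]⟩)
  · refine st (DistribSMul.toAddMonoidHom E (fZ i k)) (fun j b => ?_)
      fun d hd x hx => hN (by split_ifs <;> omega) _ (hg.lower d i k x hx)
    change fZ i k • b • fZ 1 j • y ∈ _
    by_cases hi : i = 0
    · rcases Nat.eq_zero_or_pos k with rfl | hk
      · rw [fZ_zero, one_smul]
        exact AddSubgroup.mem_sup_left (AddSubgroup.subset_closure ⟨j, b, rfl⟩)
      · exact hN (by rw [if_pos hi]; omega) _
          (hg.lower 0 i k _ (hg.scalar 0 b _ (f1_mem hg hy0 j)))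
    · obtain rfl : i = 1 := by omega
      refine AddSubgroup.mem_sup_left (AddSubgroup.subset_closure
        ⟨k + j, b * ((k + j).choose k : ℕ), ?_⟩)
      rw [← smul_comm b, smul_smul (fZ 1 k), fZ_mul, smul_assoc, mul_smul,
        Nat.cast_smul_eq_nsmul]

omit [SMulCommClass F UZ E] in
lemma eq_zero_of_pos (hg : Gr F g) {y : E} (hy0 : y ∈ g 0) {x : E}
    (hx : x ∈ A0 F y ⊔ ⨆ d : {d : ℤ // d < 0}, g d) {k : ℤ} (hk : 0 < k) (hxk : x ∈ g k) :
    x = 0 := by
  have h1 : A0 F y ⊔ ⨆ d : {d : ℤ // d < 0}, g d ≤ ⨆ j, ⨆ (_ : j ≠ k), g j :=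
    sup_le ((A0_le hg hy0).trans (le_iSup₂_of_le (f := fun j (_ : j ≠ k) => g j) 0 hk.ne le_rfl))
      (iSup_le fun d => le_iSup₂_of_le (f := fun j (_ : j ≠ k) => g j) d
        (by have := d.2; omega) le_rfl)
  exact AddSubgroup.disjoint_def.mp (hg.indep k) hxk (h1 hx)

omit [SMulCommClass F UZ E] in
lemma mem_A0 (hg : Gr F g) {y : E} (hy0 : y ∈ g 0) {x : E}
    (hx : x ∈ A0 F y ⊔ ⨆ d : {d : ℤ // d < 0}, g d) (hx0 : x ∈ g 0) : x ∈ A0 F y := by
  obtain ⟨a, ha, b, hb, rfl⟩ := AddSubgroup.mem_sup.mp hx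
  have h1 : ⨆ d : {d : ℤ // d < 0}, g d ≤ ⨆ j, ⨆ (_ : j ≠ 0), g j :=
    iSup_le fun d => le_iSup₂_of_le (f := fun j (_ : j ≠ 0) => g j) d d.2.ne le_rfl
  have h2 : b ∈ g 0 := by simpa using sub_mem hx0 (A0_le hg hy0 ha)
  rw [AddSubgroup.disjoint_def.mp (hg.indep 0) h2 (h1 hb), add_zero]
  exact ha

lemma A0_wt {l m : ℕ} {y : E} (hy : WtZ (wt l m) y) {x : E} (hx : x ∈ A0 F y) {c : ℤ}
    (hc : H1 c x) : x ∈ AddSubgroup.closure
      {x | ∃ (j : ℕ) (a : F), c = m - 2 * j ∧ x = a • fZ 1 j • y} := by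
  obtain ⟨x', h1, rfl⟩ := proj (F := F)
    (fun c x => ∃ (j : ℕ) (a : F), c = m - 2 * j ∧ x = a • fZ 1 j • y)
    (by
      rintro _ _ ⟨j, a, rfl, rfl⟩ k
      have := wt_smul (hy.f 1 j) a 1 k
      convert this using 3
      simp [wt, cartan, mul_comm])
    (by
      rintro _ b _ ⟨j, a, rfl, rfl⟩
      exact ⟨j, b * a, rfl, (mul_smul _ _ _).symm⟩)
    c (fun z => z = x)
    (by
      rintro a b k _ h rfl
      rw [hc.op, h, one_smul])
    (AddSubgroup.closure_mono (by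
      rintro _ ⟨j, a, rfl⟩
      exact ⟨_, j, a, rfl, rfl⟩) hx) rfl
  exact h1

lemma cast_ne (p : ℕ) [CharP F p] {t : ℕ} (h0 : 0 < t) (h1 : t < p) : (t : F) ≠ 0 := by
  rw [Ne, CharP.cast_eq_zero_iff F p]
  exact Nat.not_dvd_of_pos_of_lt h0 h1

theorem core (p : ℕ) [CharP F p] {l n m : ℕ} (hm : m ≤ l) (hp : l < p) (hg : Gr F g)
    (hw : AddSubgroup.closure {x : E | ∃ mu : Fin 2 → ℤ, mu 0 + mu 1 = l ∧ WtZ mu x} = ⊤)
    (K : AddSubgroup E) {y' y0 : E} (hy' : HwZ (wt l m) y') (hy'0 : y' ∈ g 0) (hy'K : y' ∈ K)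
    (hF : ∀ (a : F), ∀ x ∈ K, a • x ∈ K) (hU : ∀ (u : UZ), ∀ x ∈ K, u • x ∈ K)
    (hK : K ≤ AddSubgroup.closure {x | ∃ (a : F) (u : UZ), x = a • u • y'}) {d : ℕ}
    (h0 : y0 ∈ g d) (hh : ∀ k, hZ 1 k • y0 - (Ring.choose (n : ℤ) k : ℤ) • y0 ∈ K)
    (he : ∀ j a, 0 < a → eZ j a • y0 ∈ K) :
    ∃ y ∈ g d, y - y0 ∈ K ∧ HwZ (wt l n) y := by
  have hB : K ≤ A0 F y' ⊔ ⨆ d : {d : ℤ // d < 0}, g d := by
    refine hK.trans ((AddSubgroup.closure_le _).mpr ?_)
    rintro _ ⟨a, u, rfl⟩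
    exact span_mem hg hy' hy'0 a u
  have heK : ∀ y, y - y0 ∈ K → ∀ j a, 0 < a → eZ j a • y ∈ K := fun y hy j a ha => by
    simpa [smul_sub] using add_mem (hU (eZ j a) _ hy) (he j a ha)
  have he1 : ∀ y ∈ g 0, y - y0 ∈ K → WtZ (wt l n) y → ∀ a : ℕ, 0 < a →
      eZ 1 a • y ∈ AddSubgroup.closure {x | ∃ (j : ℕ) (b : F),
        (n : ℤ) + 2 * a = m - 2 * j ∧ x = b • fZ 1 j • y'} := by
    intro y hy hyK hwt a ha
    refine A0_wt hy'.wt (mem_A0 hg hy'0 (hB (heK y hyK 1 a ha))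
      (by simpa using hg.raise 0 1 a y hy)) fun k => ?_
    convert hwt.e 1 a 1 k using 3
    simp [wt, cartan, mul_comm]
  -- a lift that is a weight vector
  obtain ⟨y, hy, hy0, hyK⟩ := proj (F := F) (fun c (x : E) => WtZ ![(l : ℤ) - c, c] x)
    (fun c x hx k => hx 1 k) (fun c a x hx => wt_smul hx a) n (fun x => x ∈ g d ∧ x - y0 ∈ K)
    (by
      rintro a b k x hab ⟨h1, h2⟩
      refine ⟨sub_mem (hg.scalar _ a _ (hg.torus _ 1 k x h1)) (hg.scalar _ b x h1), ?_⟩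
      have h3 := add_mem (sub_mem (hF a _ (hU (hZ 1 k) _ h2)) (hF b _ h2)) (hF a _ (hh k))
      have h4 : y0 = a • (Ring.choose (n : ℤ) k : ℤ) • y0 - b • y0 := by
        rw [← Int.cast_smul_eq_zsmul F, smul_smul, ← sub_smul, hab, one_smul]
      convert h3 using 1
      conv_lhs => rw [h4]
      simp only [smul_sub]
      abel)
    (x := y0) (AddSubgroup.closure_mono (by
      rintro x ⟨mu, h1, h2⟩
      refine ⟨mu 1, ?_⟩
      convert h2
      ext i
      fin_cases i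
      · simp [← h1]
      · rfl) (hw ▸ AddSubgroup.mem_top y0)) ⟨h0, by simp⟩
  have hwt : WtZ (wt l n) y := wt_closure hy
  rcases Nat.eq_zero_or_pos d with rfl | hd
  swap
  · refine ⟨y, hy0, hyK, hwt, fun j a ha => eq_zero_of_pos hg hy'0 (hB (heK y hyK j a ha)) ?_
      (hg.raise d j a y hy0)⟩
    split_ifs <;> omega
  rw [Nat.cast_zero] at hy0 ⊢
  -- correction of `e_1 y`
  obtain ⟨z, hzK, hz0, hzw, hz⟩ : ∃ z ∈ K, z ∈ g 0 ∧ WtZ (wt l n) z ∧ eZ 1 1 • z = eZ 1 1 • y := by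
    have h1 := he1 y hy0 hyK hwt 1 one_pos
    generalize eZ 1 1 • y = w at h1
    induction h1 using AddSubgroup.closure_induction with
    | mem w hw =>
      obtain ⟨j, b, hj, rfl⟩ := hw
      obtain ⟨t, ht⟩ : ∃ t : ℕ, (m : ℤ) - j = t := ⟨m - j, by omega⟩
      have ht0 : (t : F) ≠ 0 := cast_ne p (by omega) (by omega)
      refine ⟨(b * (t : F)⁻¹) • fZ 1 (j + 1) • y', hF _ _ (hU _ _ hy'K),
        hg.scalar 0 _ _ (f1_mem hg hy'0 _), wt_smul ?_ _, ?_⟩
      · convert hy'.wt.f 1 (j + 1) using 1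
        ext i
        fin_cases i <;> simp [wt, cartan] <;> omega
      · have h2 : wt l m 1 + (1 : ℕ) - (j + 1 : ℕ) = (t : ℤ) := by
          rw [← ht]
          simp [wt]
        rw [← smul_comm, kostantZ hy'.wt, show min 1 (j + 1) + 1 = 2 by omega,
          Finset.sum_range_succ, Finset.sum_range_one, hy'.e 1 (1 - 0) one_pos, smul_zero, smul_zero,
          zero_add, h2, Ring.choose_one_right, Nat.sub_self, eZ_zero, one_smul, Nat.add_sub_cancel,
          ← Int.cast_smul_eq_zsmul F, smul_smul, Int.cast_natCast, inv_mul_cancel_right₀ ht0]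
    | zero => exact ⟨0, zero_mem _, zero_mem _, fun i k => by simp, smul_zero _⟩
    | add v w _ _ hv hw =>
      obtain ⟨z, h1, h2, h3, h4⟩ := hv
      obtain ⟨z', h1', h2', h3', h4'⟩ := hw
      exact ⟨z + z', add_mem h1 h1', add_mem h2 h2',
        fun i k => by rw [smul_add, smul_add, h3 i k, h3' i k], by rw [smul_add, h4, h4']⟩
    | neg v _ hv =>
      obtain ⟨z, h1, h2, h3, h4⟩ := hv
      exact ⟨-z, neg_mem h1, neg_mem h2, fun i k => by rw [smul_neg, smul_neg, h3 i k],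
        by rw [smul_neg, h4]⟩
  have g1 : y - z ∈ g 0 := sub_mem hy0 hz0
  have g2 : y - z - y0 ∈ K := by
    convert sub_mem hyK hzK using 1
    abel
  have g3 : WtZ (wt l n) (y - z) := fun i k => by rw [smul_sub, smul_sub, hwt i k, hzw i k]
  have g4 : eZ 1 1 • (y - z) = 0 := by rw [smul_sub, hz, sub_self]
  refine ⟨y - z, g1, g2, g3, fun j a ha => ?_⟩
  generalize y - z = x at g1 g2 g3 g4
  by_cases hj : j = 0
  · refine eq_zero_of_pos hg hy'0 (hB (heK x g2 j a ha)) (k := a) (by omega) ?_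
    simpa [hj] using hg.raise 0 j a x g1
  obtain rfl : j = 1 := by omega
  by_cases hl : a ≤ l
  · obtain ⟨a, rfl⟩ : ∃ b, a = b + 1 := ⟨a - 1, by omega⟩
    have h1 : (eZ 1 a * eZ 1 1) • x = 0 := by rw [← smul_smul, g4, smul_zero]
    rw [eZ_mul, Nat.choose_succ_self_right, smul_assoc, ← Nat.cast_smul_eq_nsmul F] at h1
    exact (smul_eq_zero.mp h1).resolve_left (cast_ne p ha (by omega))
  · have h1 := he1 x g1 g2 g3 a ha
    refine AddSubgroup.mem_bot.mp ((AddSubgroup.closure_le ⊥).mpr ?_ h1)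
    rintro _ ⟨j, b, hj, -⟩
    omega

/-- The scalars inside the hyperalgebra. -/
def toF (F : Type u) [Field F] : F →+* UF F where
  toFun a := tens a 1
  map_one' := rfl
  map_mul' a b := by rw [tens_mul, one_mul]
  map_zero' := TensorProduct.zero_tmul _ _
  map_add' a b := TensorProduct.add_tmul _ _ _

end Fin0

/-- A lift of the highest weight vector that is again a highest weight vector of the same degree. -/
theorem exists_hw (p : ℕ) [CharP F p] {l n m : ℕ} (hm : m ≤ l) (hp : l < p)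
    {E : Type u} [AddCommGroup E] [Module (UF F) E]
    (i : Weyl F (wt l m) →ₗ[UF F] E) (π : E →ₗ[UF F] Weyl F (wt l n))
    (hE : AddSubgroup.closure
      {x : E | ∃ mu : Fin 2 → ℤ, mu 0 + mu 1 = l ∧ IsWeightVector F mu x} = ⊤)
    {g : ℤ → AddSubgroup E} (hg : IsDegreeGrading F g) {d : ℕ}
    (hi : i (weylGen F (wt l m)) ∈ g 0) (hπ : ∃ y ∈ g d, π y = weylGen F (wt l n))
    (hex : Function.Exact i π) :
    ∃ y ∈ g d, π y = weylGen F (wt l n) ∧ IsWeightVector F (wt l n) y ∧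
      ∀ j a, 0 < a → tens (1 : F) (eZ j a) • y = 0 := by
  let _ : Module UZ E := resZ F E
  let _ : Module F E := Module.compHom E (Fin0.toF F)
  have hu : ∀ (u : UZ) (x : E), u • x = tens (1 : F) u • x := fun _ _ => rfl
  have hf : ∀ (a : F) (x : E), a • x = tens a (1 : UZ) • x := fun _ _ => rfl
  have : SMulCommClass F UZ E := ⟨fun a u x => by
    rw [hu, hf, hu, hf, smul_smul, smul_smul, tens_mul, tens_mul, mul_one, one_mul, mul_one,
      one_mul]⟩
  obtain ⟨y0, h0, hy0⟩ := hπ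
  obtain ⟨y, h1, h2, h3⟩ := Fin0.core (F := F) (n := n) p hm hp
    ⟨hg.internal.addSubgroup_iSupIndep, hg.scalar, hg.raise, hg.lower, hg.torus⟩ hE
    (LinearMap.ker π).toAddSubgroup (y' := i (weylGen F (wt l m))) (y0 := y0)
    ⟨fun j k => by rw [hu, ← map_smul, weylGen_wt, map_zsmul],
      fun j a ha => by rw [hu, ← map_smul, weylGen_e _ _ _ ha, map_zero]⟩ hi
    (hex.apply_apply_eq_zero _) (fun a x hx => (LinearMap.ker π).smul_mem (tens a 1) hx)
    (fun u x hx => (LinearMap.ker π).smul_mem (tens 1 u) hx)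
    (by
      intro x hx
      obtain ⟨v, rfl⟩ := (hex x).mp hx
      obtain ⟨w, rfl⟩ := weyl_span _ v
      rw [map_smul]
      clear hx
      induction w using uf_ind with
      | h0 => rw [zero_smul]; exact zero_mem _
      | ht a u =>
        exact AddSubgroup.subset_closure
          ⟨a, u, by rw [hf, hu, smul_smul, tens_mul, mul_one, one_mul]⟩
      | hadd v w hv hw => rw [add_smul]; exact add_mem hv hw)
    h0
    (fun k => by
      change π _ = 0
      rw [map_sub, hu, map_smul, map_zsmul, hy0, weylGen_wt, sub_eq_zero]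
      rfl)
    (fun j a ha => by
      change π _ = 0
      rw [hu, map_smul, hy0, weylGen_e _ _ _ ha])
  refine ⟨y, h1, ?_, h3.wt, h3.e⟩
  have h4 : π (y - y0) = 0 := h2
  rwa [map_sub, hy0, sub_eq_zero] at h4

theorem splits (p : ℕ) [CharP F p] {l n m : ℕ} (hn : n ≤ l) (hm : m ≤ l) (hp : l < p)
    {E : Type u} [AddCommGroup E] [Module (UF F) E]
    (i : Weyl F (wt l m) →ₗ[UF F] E) (π : E →ₗ[UF F] Weyl F (wt l n))
    (hE : AddSubgroup.closure
      {x : E | ∃ mu : Fin 2 → ℤ, mu 0 + mu 1 = l ∧ IsWeightVector F mu x} = ⊤)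
    (hE' : ∀ (x : E) (j : Fin 2), ∃ N : ℕ, ∀ k, N ≤ k →
      tens (1 : F) (eZ j k) • x = 0 ∧ tens (1 : F) (fZ j k) • x = 0)
    {g : ℤ → AddSubgroup E} (hg : IsDegreeGrading F g) {d : ℕ}
    (hi : i (weylGen F (wt l m)) ∈ g 0) (hπ : ∃ y ∈ g d, π y = weylGen F (wt l n))
    (hex : Function.Exact i π) :
    ∃ s : Weyl F (wt l n) →ₗ[UF F] E, π ∘ₗ s = LinearMap.id ∧ s (weylGen F (wt l n)) ∈ g d := by
  obtain ⟨y, h0, h1, h2, h3⟩ := exists_hw p hm hp i π hE hg hi hπ hex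
  obtain ⟨s, hs⟩ := exists_lift hE' hn h2 h3
  refine ⟨s, LinearMap.ext fun x => ?_, hs ▸ h0⟩
  obtain ⟨u, rfl⟩ := weyl_span _ x
  rw [LinearMap.comp_apply, map_smul, map_smul, hs, h1, LinearMap.id_apply]

end Pool.Agent.Lib.MP_b2f51a_al
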