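import Pool.Agent.Lib.MP_b2f51a_al.Split.Ad
import Pool.Agent.Lib.MP_b2f51a_al.Poly

/-! The currents as elements of the enveloping algebra. -/

noncomputable section

namespace Pool.Agent.Lib.MP_b2f51a_al

open Finset

/-- The module structure of an algebra over its additive group. -/
abbrev modAlg (A : Type*) [Ring A] [Algebra ℂ A] :
    @Module ℂ A _ AddCommGroup.toAddCommMonoid := inferInstance

/-- Shortcut instance. -/
local instance moduleCU : @Module ℂ U _ AddCommGroup.toAddCommMonoid := modAlg U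

/-- The element `h ⊗ t`. -/
def psiU : U := cm (e 1) (e 0)

/-- The element `h ⊗ t⁻¹`. -/
def psiD : U := cm (f 0) (f 1)

/-- Starting elements of the two sequences of currents. -/
def J0 : Bool → U
  | true => e 1
  | false => f 1

/-- Scalars of the recursion. -/
def cJ : Bool → ℂ
  | true => 1 / 2
  | false => -1 / 2

/-- The currents `JU true n = e ⊗ t^n`, `JU false n = f ⊗ t^n`. -/
def JU (s : Bool) : ℤ → U
  | Int.ofNat n => (fun u => cJ s • cm psiU u)^[n] (J0 s)
  | Int.negSucc n => (fun u => cJ s • cm psiD u)^[n + 1] (J0 s)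

lemma JU_e1 : JU true 0 = e 1 := rfl

lemma JU_f1 : JU false 0 = f 1 := rfl

lemma cm_der {A : Type*} [Ring A] (p a b : A) :
    cm p (cm a b) = cm (cm p a) b + cm a (cm p b) := by
  unfold cm; noncomm_ring

lemma int_step {P : ℤ → Prop} (h0 : P 0) (hu : ∀ k, P k → P (k + 1)) (hd : ∀ k, P k → P (k - 1))
    (k : ℤ) : P k :=
  Int.induction_on k h0 (fun i => hu i) (fun i => hd (-i))

lemma int_step2 {P : ℤ → Prop} (h0 : P 0) (h1 : P (-1)) (hu : ∀ k, P k → P (k + 2))
    (hd : ∀ k, P k → P (k - 2)) (k : ℤ) : P k := by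
  refine (int_step (P := fun k => P k ∧ P (k - 1)) ⟨h0, by simpa using h1⟩ ?_ ?_ k).1
  · rintro k ⟨a, b⟩
    refine ⟨?_, by simpa using a⟩
    have := hu _ b
    rwa [show k - 1 + 2 = k + 1 by ring] at this
  · rintro k ⟨a, b⟩
    refine ⟨b, ?_⟩
    have := hd _ a
    rwa [show k - 2 = k - 1 - 1 by ring] at this

lemma ef_ne {i j : Fin 2} (hij : i ≠ j) : cm (e i) (f j) = 0 := by rw [ef_U, if_neg hij]

lemma fe_ne {i j : Fin 2} (hij : i ≠ j) : cm (f i) (e j) = 0 := by rw [fe_U, if_neg hij.symm]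

lemma ef_eq (i : Fin 2) : cm (e i) (f i) = h i := by rw [ef_U, if_pos rfl]

lemma fe_eq (i : Fin 2) : cm (f i) (e i) = -h i := by rw [fe_U, if_pos rfl]

lemma cartan_ne {i j : Fin 2} (hij : i ≠ j) : cartan i j = -2 := by
  fin_cases i <;> fin_cases j <;> simp_all [cartan]

lemma cartan_eq (i : Fin 2) : cartan i i = 2 := by fin_cases i <;> simp [cartan]

lemma h_ee {i j : Fin 2} (hij : i ≠ j) (k : Fin 2) : cm (h k) (cm (e i) (e j)) = 0 := by
  have : ((cartan k i : ℤ) : ℂ) + (cartan k j : ℤ) = 0 := by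
    fin_cases i <;> fin_cases j <;> fin_cases k <;> simp_all [cartan]
  rw [cm_der, he_U, he_U, cm_smul_left, cm_smul_right, ← add_smul, this, zero_smul]

lemma h_ff {i j : Fin 2} (hij : i ≠ j) (k : Fin 2) : cm (h k) (cm (f i) (f j)) = 0 := by
  have : -((cartan k i : ℤ) : ℂ) + -((cartan k j : ℤ) : ℂ) = 0 := by
    fin_cases i <;> fin_cases j <;> fin_cases k <;> simp_all [cartan]
  rw [cm_der, hf_U, hf_U, cm_smul_left, cm_smul_right, ← add_smul, this, zero_smul]

lemma f_ee {i j : Fin 2} (hij : i ≠ j) : cm (f i) (cm (e i) (e j)) = (2 : ℂ) • e j := by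
  rw [cm_der, fe_eq, fe_ne hij, cm_neg_left, he_U, cartan_ne hij]; simp

lemma e_ff {i j : Fin 2} (hij : i ≠ j) : cm (e i) (cm (f i) (f j)) = (2 : ℂ) • f j := by
  rw [cm_der, ef_eq, ef_ne hij, hf_U, cartan_ne hij]; simp

lemma TU_ef (i : Fin 2) : TU i (f i) = -e i ∧ TU i (e i) = -f i :=
  TU_triple i (ef_eq i) (by rw [eh_U, cartan_eq]; simp) (cm_self _) (cm_self _)
    (by rw [fh_U, cartan_eq]; simp) (fe_eq i)

lemma TU_ee {i j : Fin 2} (hij : i ≠ j) : TU i (cm (e i) (e j)) = -cm (e i) (e j) := by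
  have h6 : cm (f i) ((-1 / 2 : ℂ) • cm (e i) (cm (e i) (e j))) = -cm (e i) (e j) := by
    rw [cm_smul_right, cm_der, fe_eq, cm_neg_left, h_ee hij, f_ee hij, cm_smul_right]; module
  have := (TU_triple i (X := e j) (Z := (-1 / 2 : ℂ) • cm (e i) (cm (e i) (e j))) rfl (by module)
    (by rw [cm_smul_right, serre_e_U hij, smul_zero]) (fe_ne hij) (f_ee hij) h6).1
  rw [map_cm, this, (TU_ef i).2, cm_neg_left, cm_neg_right, neg_neg, h6]

lemma TU_ff {i j : Fin 2} (hij : i ≠ j) : TU i (cm (f i) (f j)) = -cm (f i) (f j) := by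
  have h1 : cm (e i) ((-1 / 2 : ℂ) • cm (f i) (cm (f i) (f j))) = -cm (f i) (f j) := by
    rw [cm_smul_right, cm_der, ef_eq, h_ff hij, e_ff hij, cm_smul_right]; module
  have := (TU_triple i (Z := f j) h1 (by rw [cm_neg_right, e_ff hij]; module) (ef_ne hij)
    (by rw [cm_smul_right, serre_f_U hij, smul_zero]) (by rw [cm_neg_right]; module)
    (neg_neg _).symm).2
  rw [map_cm, this, (TU_ef i).1, cm_neg_left, cm_neg_right, neg_neg, h1]

lemma TU_psiU (i : Fin 2) : TU i psiU = -psiU := by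
  fin_cases i
  · change TU 0 (cm (e 1) (e 0)) = -cm (e 1) (e 0)
    rw [cm_skew, map_neg, TU_ee (by decide)]
  · exact TU_ee (i := 1) (by decide)

lemma TU_psiD (i : Fin 2) : TU i psiD = -psiD := by
  fin_cases i
  · exact TU_ff (i := 0) (by decide)
  · change TU 1 (cm (f 0) (f 1)) = -cm (f 0) (f 1)
    rw [cm_skew, map_neg, TU_ff (by decide)]

lemma psiU_f0 : cm psiU (f 0) = (2 : ℂ) • e 1 := by
  rw [psiU, cm_skew (e 1), cm_neg_left, ← cm_skew, f_ee (by decide)]

lemma psiU_f1 : cm psiU (f 1) = (-2 : ℂ) • e 0 := by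
  rw [psiU, cm_skew, f_ee (by decide), neg_smul]

lemma psiD_e0 : cm psiD (e 0) = (-2 : ℂ) • f 1 := by
  rw [psiD, cm_skew, e_ff (by decide), neg_smul]

lemma psiD_e1 : cm psiD (e 1) = (2 : ℂ) • f 0 := by
  rw [psiD, cm_skew (f 0), cm_neg_left, ← cm_skew, e_ff (by decide)]

lemma central (u : U) : cm (h 0 + h 1) u = 0 := by
  have : u ∈ Subalgebra.centralizer ℂ {h 0 + h 1} := by
    refine U_ind _ (fun i => ?_) (fun i => ?_) (fun i => ?_) u <;>
      simp only [Subalgebra.mem_centralizer_iff, Set.mem_singleton_iff, forall_eq] <;>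
      rw [← sub_eq_zero] <;> change cm _ _ = 0 <;> rw [cm_add_left]
    · rw [he_U, he_U, ← add_smul]; fin_cases i <;> simp [cartan]
    · rw [hf_U, hf_U, ← add_smul]; fin_cases i <;> simp [cartan]
    · rw [hh_U, hh_U, add_zero]
  simp only [Subalgebra.mem_centralizer_iff, Set.mem_singleton_iff, forall_eq] at this
  exact sub_eq_zero.2 this

lemma psi_comm (u : U) : cm psiU (cm psiD u) = cm psiD (cm psiU u) := by
  have : cm psiU psiD = (2 : ℂ) • (h 0 + h 1) := by
    conv_lhs => rw [psiD]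
    rw [cm_der, psiU_f0, psiU_f1, cm_smul_left, cm_smul_right, ef_eq, fe_eq]; module
  rw [cm_der, this, cm_smul_left, central, smul_zero, zero_add]

lemma JU_e0 : JU false 1 = e 0 := by
  change (-1 / 2 : ℂ) • cm psiU (f 1) = e 0
  rw [psiU_f1]; module

lemma JU_f0 : JU true (-1) = f 0 := by
  change (1 / 2 : ℂ) • cm psiD (e 1) = f 0
  rw [psiD_e1]; module

lemma JU_up' (s : Bool) (k : ℤ) : cJ s • cm psiU (JU s k) = JU s (k + 1) := by
  have hc : ∀ u, cJ s • cm psiU (cJ s • cm psiD u) = cJ s • cm psiD (cJ s • cm psiU u) := by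
    intro u; rw [cm_smul_right, cm_smul_right, psi_comm]
  have h0 : cJ s • cm psiU (cJ s • cm psiD (J0 s)) = J0 s := by
    cases s
    · rw [hc]
      change (-1 / 2 : ℂ) • cm psiD (JU false 1) = f 1
      rw [JU_e0, psiD_e0]; module
    · change (1 / 2 : ℂ) • cm psiU (JU true (-1)) = e 1
      rw [JU_f0, psiU_f0]; module
  have h1 : ∀ n : ℕ, cJ s • cm psiU ((fun u => cJ s • cm psiD u)^[n + 1] (J0 s)) =
      (fun u => cJ s • cm psiD u)^[n] (J0 s) := by
    intro n
    induction n with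
    | zero => exact h0
    | succ n ih => rw [Function.iterate_succ_apply', hc, ih, Function.iterate_succ_apply']
  rcases k with n | _ | n
  · exact (Function.iterate_succ_apply' (fun u => cJ s • cm psiU u) n _).symm
  · exact h1 0
  · exact h1 (n + 1)

lemma JU_down' (s : Bool) (k : ℤ) : cJ s • cm psiD (JU s k) = JU s (k - 1) := by
  have h1 : ∀ n : ℕ, cJ s • cm psiD (JU s n) = JU s (n - 1) := by
    intro n
    induction n with
    | zero => rfl
    | succ n ih =>
      rw [Nat.cast_succ, ← JU_up', cm_smul_right, ← psi_comm, ← cm_smul_right (cJ s) psiU, ih,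
        JU_up']
      congr 1; ring
  rcases k with n | n
  · exact h1 n
  · exact (Function.iterate_succ_apply' (fun u => cJ s • cm psiD u) (n + 1) _).symm

/-- The eigenvalue of `h`. -/
def sJ : Bool → ℂ
  | true => 2
  | false => -2

lemma sJ_mul (s : Bool) : sJ s * cJ s = 1 := by cases s <;> norm_num [sJ, cJ]

lemma cJ_not (s : Bool) : cJ (!s) = -cJ s := by cases s <;> norm_num [cJ]

lemma JU_up (s : Bool) (k : ℤ) : cm psiU (JU s k) = sJ s • JU s (k + 1) := by
  rw [← JU_up', smul_smul, sJ_mul, one_smul]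

lemma JU_down (s : Bool) (k : ℤ) : cm psiD (JU s k) = sJ s • JU s (k - 1) := by
  rw [← JU_down', smul_smul, sJ_mul, one_smul]

lemma TU_step {i : Fin 2} {s : Bool} {a b : ℤ} (h0 : TU i (JU s a) = -JU (!s) b) (k : ℤ) :
    TU i (JU s (a + k)) = -JU (!s) (b + k) := by
  refine int_step (P := fun k => TU i (JU s (a + k)) = -JU (!s) (b + k)) (by simpa using h0)
    (fun k hk => ?_) (fun k hk => ?_) k
  · rw [← add_assoc, ← add_assoc, ← JU_up', ← JU_up', map_smul, map_cm, hk, TU_psiU, cJ_not]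
    simp
  · rw [← add_sub_assoc, ← add_sub_assoc, ← JU_down', ← JU_down', map_smul, map_cm, hk, TU_psiD,
      cJ_not]
    simp

lemma TU_one (k : ℤ) : TU 1 (JU false k) = -JU true k ∧ TU 1 (JU true k) = -JU false k := by
  constructor
  · simpa using TU_step (s := false) (a := 0) (b := 0) (TU_ef 1).1 k
  · simpa using TU_step (s := true) (a := 0) (b := 0) (TU_ef 1).2 k

lemma TU_zero (k : ℤ) :
    TU 0 (JU true k) = -JU false (k + 2) ∧ TU 0 (JU false (k + 2)) = -JU true k := by
  constructor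
  · have := TU_step (i := 0) (s := true) (a := -1) (b := 1)
      (by rw [JU_f0, Bool.not_true, JU_e0]; exact (TU_ef 0).1) (k + 1)
    rwa [show -1 + (k + 1) = k by ring, show 1 + (k + 1) = k + 2 by ring] at this
  · have := TU_step (i := 0) (s := false) (a := 1) (b := -1)
      (by rw [JU_e0, Bool.not_false, JU_f0]; exact (TU_ef 0).2) (k + 1)
    rwa [show -1 + (k + 1) = k by ring, show 1 + (k + 1) = k + 2 by ring] at this

/-- Translation. -/
def tauU : U →ₐ[ℂ] U := (TU 1).comp (TU 0)

/-- The opposite translation. -/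
def tauD : U →ₐ[ℂ] U := (TU 0).comp (TU 1)

lemma tauU_t (k : ℤ) : tauU (JU true k) = JU true (k + 2) := by
  rw [tauU, AlgHom.comp_apply, (TU_zero k).1, map_neg, (TU_one _).1, neg_neg]

lemma tauU_f (k : ℤ) : tauU (JU false k) = JU false (k - 2) := by
  have := (TU_zero (k - 2)).2
  rw [sub_add_cancel] at this
  rw [tauU, AlgHom.comp_apply, this, map_neg, (TU_one _).2, neg_neg]

lemma tauD_t (k : ℤ) : tauD (JU true k) = JU true (k - 2) := by
  have := (TU_zero (k - 2)).2
  rw [sub_add_cancel] at this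
  rw [tauD, AlgHom.comp_apply, (TU_one k).2, map_neg, this, neg_neg]

lemma tauD_f (k : ℤ) : tauD (JU false k) = JU false (k + 2) := by
  rw [tauD, AlgHom.comp_apply, (TU_one k).1, map_neg, (TU_zero _).1, neg_neg]

lemma comm_adj (k : ℤ) : cm (JU true k) (JU true (k + 1)) = 0 := by
  refine int_step2 (P := fun k => cm (JU true k) (JU true (k + 1)) = 0) ?_ ?_
    (fun k hk => ?_) (fun k hk => ?_) k
  · have : cm (JU false 0) (JU false (0 + 1)) = 0 := by
      rw [zero_add, JU_e0]; exact fe_ne (i := 1) (by decide)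
    have := congrArg (TU 1) this
    simpa [map_cm, (TU_one _).1] using this
  · rw [JU_f0]; exact fe_ne (j := 1) (by decide)
  · have := congrArg tauU hk
    rwa [map_cm, tauU_t, tauU_t, map_zero, add_right_comm] at this
  · have := congrArg tauD hk
    rwa [map_cm, tauD_t, tauD_t, map_zero, add_sub_right_comm] at this

lemma comm_t (a b : ℤ) : cm (JU true a) (JU true b) = 0 := by
  have key : ∀ n : ℕ, ∀ k : ℤ, cm (JU true k) (JU true (k + n)) = 0 ∧
      cm (JU true k) (JU true (k + n + 1)) = 0 := by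
    intro n
    induction n with
    | zero => intro k; simpa using comm_adj k
    | succ n ih =>
      intro k
      rw [Nat.cast_succ, ← add_assoc]
      refine ⟨(ih k).2, ?_⟩
      have h1 := cm_der psiU (JU true k) (JU true (k + n + 1))
      have h2 := (ih (k + 1)).1
      rw [add_right_comm] at h2
      rw [(ih k).2, JU_up, JU_up, cm_smul_left, cm_smul_right, h2, cm_zero_right, smul_zero,
        zero_add] at h1
      exact (smul_eq_zero.1 h1.symm).resolve_left (by norm_num [sJ])
  rcases le_total a b with hab | hab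
  · obtain ⟨n, rfl⟩ := Int.le.dest hab
    exact (key n a).1
  · obtain ⟨n, rfl⟩ := Int.le.dest hab
    rw [cm_skew, (key n b).1, neg_zero]

lemma JU_comm (s : Bool) (a b : ℤ) : cm (JU s a) (JU s b) = 0 := by
  cases s
  · have := congrArg (TU 1) (comm_t a b)
    simpa [map_cm, (TU_one _).2] using this
  · exact comm_t a b

lemma h_JU (i : Fin 2) (k : ℤ) : cm (h i) (JU true k) = ((cartan i 1 : ℤ) : ℂ) • JU true k := by
  refine int_step (P := fun k => cm (h i) (JU true k) = ((cartan i 1 : ℤ) : ℂ) • JU true k)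
    (he_U i 1) (fun k hk => ?_) (fun k hk => ?_) k
  · rw [← JU_up', cm_smul_right, cm_der, hk, psiU, h_ee (by decide), cm_zero_left, zero_add,
      cm_smul_right, smul_comm]
  · rw [← JU_down', cm_smul_right, cm_der, hk, psiD, h_ff (by decide), cm_zero_left, zero_add,
      cm_smul_right, smul_comm]

lemma cub_zero (m a : ℤ) :
    cm (cm (JU true m) (JU false (-m))) (JU true a) = (2 : ℂ) • JU true a := by
  revert a
  refine int_step2
    (P := fun m => ∀ a, cm (cm (JU true m) (JU false (-m))) (JU true a) = (2 : ℂ) • JU true a)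
    (fun a => ?_) (fun a => ?_) (fun k hk a => ?_) (fun k hk a => ?_) m
  · rw [neg_zero, JU_e1, JU_f1, ef_eq, h_JU]; simp [cartan]
  · rw [neg_neg, JU_f0, JU_e0, fe_eq, cm_neg_left, h_JU]; simp [cartan]
  · have := congrArg tauU (hk (a - 2))
    rwa [map_cm, map_cm, map_smul, tauU_t, tauU_t, tauU_f, sub_add_cancel, ← neg_add'] at this
  · have := congrArg tauD (hk (a + 2))
    rwa [map_cm, map_cm, map_smul, tauD_t, tauD_t, tauD_f, add_sub_cancel_right,
      show -k + 2 = -(k - 2) by ring] at this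

lemma cub_symm (m b a : ℤ) : cm (cm (JU true m) (JU false b)) (JU true a) =
    cm (cm (JU true a) (JU false b)) (JU true m) := by
  rw [cm_cm_left, comm_t, cm_zero_right, sub_zero, cm_skew, cm_skew (JU false b), cm_neg_left,
    neg_neg]

lemma cub_step {p : U} {ε t : ℤ} (hε : ε = 1 ∨ ε = -1)
    (hp : ∀ s k, cm p (JU s k) = sJ s • JU s (k + ε))
    (ih : ∀ m b a, m + b = t →
      cm (cm (JU true m) (JU false b)) (JU true a) = (2 : ℂ) • JU true (a + t))
    (m b a : ℤ) (hm : m + b = t + ε) :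
    cm (cm (JU true m) (JU false b)) (JU true a) = (2 : ℂ) • JU true (a + (t + ε)) := by
  let g : ℤ → U := fun b => cm (cm (JU true (t + ε - b)) (JU false b)) (JU true a)
  have h1 : ∀ b, g (b + ε) = g b := by
    intro b
    have e1 := cm_cm_left p (cm (JU true (t - b)) (JU false b)) (JU true a)
    rw [ih _ _ _ (by ring), hp, cm_smul_right, cm_smul_right, hp, ih _ _ _ (by ring), cm_der, hp,
      hp, cm_smul_left, cm_smul_right, cm_add_left, cm_smul_left, cm_smul_left,
      add_right_comm a ε, smul_comm, sub_self, show t - b + ε = t + ε - b by ring,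
      show t - b = t + ε - (b + ε) by ring] at e1
    change (2 : ℂ) • g b + (-2 : ℂ) • g (b + ε) = 0 at e1
    have e2 : (2 : ℂ) • (g b - g (b + ε)) = 0 := by rw [← e1]; module
    exact (sub_eq_zero.1 ((smul_eq_zero.1 e2).resolve_left (by norm_num))).symm
  have h2 : ∀ b, g (b + 1) = g b := by
    intro b
    rcases hε with rfl | rfl
    · exact h1 b
    · simpa using (h1 (b + 1)).symm
  have h3 : ∀ b, g b = g 0 := int_step rfl (fun k hk => (h2 k).trans hk) fun k hk => by
    rw [← hk, ← h2, sub_add_cancel]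
  have h4 := (h3 b).trans (h3 (-a)).symm
  simp only [g] at h4
  rw [show t + ε - b = m by omega, cub_symm _ (-a), cub_zero] at h4
  rw [h4]; congr 2; ring

lemma cub_t (m b a : ℤ) :
    cm (cm (JU true m) (JU false b)) (JU true a) = (2 : ℂ) • JU true (a + (m + b)) := by
  have key : ∀ t, ∀ m b a, m + b = t →
      cm (cm (JU true m) (JU false b)) (JU true a) = (2 : ℂ) • JU true (a + t) := by
    refine int_step (fun m b a hm => ?_) (fun t ih => cub_step (Or.inl rfl) JU_up ih)
      (fun t ih => cub_step (ε := -1) (Or.inr rfl) JU_down ih)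
    rw [show b = -m by omega, cub_zero, add_zero]
  exact key _ m b a rfl

lemma JU_cubic (s : Bool) (a b c : ℤ) :
    cm (JU s a) (cm (JU s b) (JU (!s) c)) = (-2 : ℂ) • JU s (a + b + c) := by
  have ht : cm (JU true a) (cm (JU true b) (JU false c)) = (-2 : ℂ) • JU true (a + b + c) := by
    rw [cm_skew, cub_t, add_assoc, neg_smul]
  cases s
  · have := congrArg (TU 1) ht
    rw [map_cm, map_cm, map_smul, (TU_one _).2, (TU_one _).2, (TU_one _).1, (TU_one _).2] at this
    simpa [neg_eq_iff_eq_neg] using this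
  · exact ht

lemma cub_f (m b a : ℤ) :
    cm (cm (JU true m) (JU false b)) (JU false a) = (-2 : ℂ) • JU false (a + (m + b)) := by
  have := JU_cubic false a b m
  rw [cm_skew, cm_skew (JU true m), cm_neg_right, neg_neg, show a + (m + b) = a + b + m by ring]
  exact this

lemma psi_psi_U (a b c d : ℤ) : cm (cm (JU true a) (JU false b)) (cm (JU true c) (JU false d)) =
    (2 : ℂ) • (cm (JU true (c + (a + b))) (JU false d) -
      cm (JU true c) (JU false (d + (a + b)))) := by
  rw [cm_der, cub_t, cub_f, cm_smul_left, cm_smul_right]; module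

lemma shift_t {t : ℤ} (ht : t ≠ 0) (a : ℤ) :
    cm (JU true a) (JU false (t - a)) = cm (JU true 0) (JU false t) := by
  let g : ℤ → U := fun a => cm (JU true a) (JU false (t - a))
  have h1 : ∀ a, g (a + 1) = g a + (g 0 - g (t - 1)) := by
    intro a
    have e1 := psi_psi_U 0 1 a (t - (a + 1))
    rw [cm_skew, psi_psi_U, show (0 : ℤ) + (a + (t - (a + 1))) = t - 1 by ring,
      show 1 + (a + (t - (a + 1))) = t - 0 by ring, show t - (a + 1) + (0 + 1) = t - a by ring,
      zero_add] at e1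
    have e2 : (2 : ℂ) • (g (a + 1) - (g a + (g 0 - g (t - 1)))) = 0 := by
      simp only [g, sub_sub_cancel]
      linear_combination (norm := module) -e1
    exact sub_eq_zero.1 ((smul_eq_zero.1 e2).resolve_left (by norm_num))
  have h2 : ∀ a : ℤ, g a = g 0 + (a : ℂ) • (g 0 - g (t - 1)) := by
    refine int_step (by simp) (fun k hk => ?_) (fun k hk => ?_)
    · rw [h1, hk]; push_cast; module
    · have := h1 (k - 1)
      rw [sub_add_cancel, hk] at this
      rw [eq_sub_of_add_eq this.symm]; push_cast; module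
  have h3 : g t = g 0 := by
    have e1 := psi_psi_U t 0 0 0
    rw [cm_skew, psi_psi_U] at e1
    simp only [add_zero, zero_add, sub_self, smul_zero, neg_zero] at e1
    simp only [g, sub_self, sub_zero]
    exact sub_eq_zero.1 ((smul_eq_zero.1 e1.symm).resolve_left (by norm_num))
  have h4 : g 0 - g (t - 1) = 0 := by
    have := h2 t
    rw [h3, left_eq_add] at this
    exact (smul_eq_zero.1 this).resolve_left (by exact_mod_cast ht)
  have := h2 a
  rw [h4, smul_zero, add_zero] at this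
  simpa [g] using this

lemma JU_shift (s : Bool) (a b a' b' : ℤ) (h : a + b = a' + b') (h0 : a + b ≠ 0) :
    cm (JU s a) (JU (!s) b) = cm (JU s a') (JU (!s) b') := by
  have key : ∀ a b a' b' : ℤ, a + b = a' + b' → a + b ≠ 0 →
      cm (JU true a) (JU false b) = cm (JU true a') (JU false b') := by
    intro a b a' b' h h0
    have e1 := shift_t h0 a
    have e2 := shift_t h0 a'
    rw [show a + b - a = b by ring] at e1
    rw [show a + b - a' = b' by omega] at e2
    rw [e1, e2]
  cases s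
  · rw [cm_skew, cm_skew (JU false a')]
    exact congrArg Neg.neg (key b a b' a' (by omega) (by omega))
  · exact key a b a' b' h h0

lemma dpow_JU_mem (s : Bool) (k : ℤ) (j : ℕ) : dpow (JU s k) j ∈ kostantForm := by
  have ht : ∀ k j, dpow (JU true k) j ∈ kostantForm := by
    refine int_step2 (fun j => (eZ 1 j).2) (fun j => JU_f0 ▸ (fZ 0 j).2) (fun k hk j => ?_)
      (fun k hk j => ?_)
    · rw [← tauU_t, ← map_dpow]; exact TU_mem _ (TU_mem _ (hk j))
    · rw [← tauD_t, ← map_dpow]; exact TU_mem _ (TU_mem _ (hk j))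
  cases s
  · rw [← neg_neg (JU false k)]
    refine dpow_neg_mem _ (fun j => ?_) j
    rw [← (TU_one k).2, ← map_dpow]; exact TU_mem _ (ht k j)
  · exact ht k j

lemma rho_JU {M : Type*} [AddCommGroup M] [Module ℂ M] (T : LoopRep M) (s : Bool) (k : ℤ) :
    T.rho (JU s k) = T.J s k := by
  have hU : T.rho psiU = cm (T.J true 0) (T.J false 1) := by
    rw [psiU, map_cm, T.rho_e, T.rho_e]; rfl
  have hD : T.rho psiD = cm (T.J true (-1)) (T.J false 0) := by
    rw [psiD, map_cm, T.rho_f, T.rho_f]; rfl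
  refine int_step (P := fun k => T.rho (JU s k) = T.J s k) ?_ (fun k hk => ?_) (fun k hk => ?_) k
  · cases s
    · exact T.rho_f 1
    · exact T.rho_e 1
  · rw [← JU_up', map_smul, map_cm, hk, hU, cm_skew]
    cases s
    · rw [T.cubic_f', add_zero, cJ]; module
    · rw [T.cubic_t, add_zero, cJ]; module
  · rw [← JU_down', map_smul, map_cm, hk, hD, cm_skew]
    cases s
    · rw [T.cubic_f', add_zero, cJ, ← sub_eq_add_neg]; module
    · rw [T.cubic_t, add_zero, cJ, ← sub_eq_add_neg]; module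

open scoped IsMulCommutative in
/-- Polynomials in the currents `e ⊗ t^(-1-j)`. -/
def curU : MvPolynomial ℕ ℂ →ₐ[ℂ] U :=
  haveI := Algebra.isMulCommutative_adjoin ℂ (s := Set.range (JU true))
    (by rintro _ ⟨a, rfl⟩ _ ⟨b, rfl⟩; exact sub_eq_zero.1 (JU_comm true a b))
  (Algebra.adjoin ℂ (Set.range (JU true))).val.comp
    (MvPolynomial.aeval fun j : ℕ => ⟨JU true (-1 - j), Algebra.subset_adjoin ⟨_, rfl⟩⟩)

lemma curU_X (j : ℕ) : curU (MvPolynomial.X j) = JU true (-1 - j) := by
  simp [curU]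

lemma rho_curU {M : Type*} [AddCommGroup M] [Module ℂ M] (T : LoopRep M)
    (Q : MvPolynomial ℕ ℂ) : T.rho (curU Q) = T.cur (-1) Q := by
  have : T.rho.comp curU = T.cur (-1) := by
    ext j : 1
    rw [AlgHom.comp_apply, curU_X, rho_JU, LoopRep.cur_X]
  exact AlgHom.congr_fun this Q

lemma curU_single (j k : ℕ) : curU (dm (Finsupp.single j k)) = dpow (JU true (-1 - j)) k := by
  rw [dm_single, map_dpow, curU_X]

lemma curU_dm_mem (a : ℕ →₀ ℕ) : curU (dm a) ∈ kostantForm := by
  induction a using Finsupp.induction with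
  | zero => rw [dm_zero, map_one]; exact one_mem _
  | single_add j k a hj _ ih =>
    rw [← dm_mul_of_disjoint, map_mul, curU_single]
    · exact mul_mem (dpow_JU_mem _ _ _) ih
    · intro i
      by_cases h : i = j
      · subst h; right; simpa using hj
      · left; exact Finsupp.single_eq_of_ne h

/-- Divided monomials in the currents, in the Kostant form. -/
def dmZ (a : ℕ →₀ ℕ) : UZ := ⟨curU (dm a), curU_dm_mem a⟩

/-- Divided powers of the currents, in the Kostant form. -/
def xZ (k : ℤ) (j : ℕ) : UZ := ⟨dpow (JU true k) j, dpow_JU_mem true k j⟩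

lemma dmZ_zero : dmZ 0 = 1 := by
  refine Subtype.ext ?_
  change curU (dm 0) = 1
  rw [dm_zero, map_one]

lemma dmZ_single (j k : ℕ) : dmZ (Finsupp.single j k) = xZ (-1 - j) k :=
  Subtype.ext (curU_single j k)

lemma dmZ_mul (a b : ℕ →₀ ℕ) : ∃ c : ℕ, dmZ a * dmZ b = c • dmZ (a + b) := by
  obtain ⟨c, hc⟩ := dm_mul a b
  refine ⟨c, Subtype.ext ?_⟩
  change curU (dm a) * curU (dm b) = c • curU (dm (a + b))
  rw [← map_mul, hc, Nat.cast_smul_eq_nsmul, map_nsmul]

lemma dmZ_mul_of_disjoint {a b : ℕ →₀ ℕ} (h : ∀ j, a j = 0 ∨ b j = 0) :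
    dmZ a * dmZ b = dmZ (a + b) := by
  refine Subtype.ext ?_
  change curU (dm a) * curU (dm b) = curU (dm (a + b))
  rw [← map_mul, dm_mul_of_disjoint h]

lemma dpow_PS_eq (m i : ℕ) : ∃ s : Finset (ℕ →₀ ℕ), (∀ a, a ∈ s ↔ cnt a = m ∧ tot a = i) ∧
    PowerSeries.coeff i (dpow PS m) = ∑ a ∈ s, dm a := by
  obtain ⟨s, h1, h2⟩ := PS_pow_eq m i
  have hm : (m.factorial : ℂ) ≠ 0 := by exact_mod_cast Nat.factorial_ne_zero m
  refine ⟨s, h1, ?_⟩
  rw [dpow, PowerSeries.coeff_smul, h2, smul_smul, inv_mul_cancel₀ hm, one_smul]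

lemma curU_PS_mem (m i : ℕ) : curU (PowerSeries.coeff i (dpow PS m)) ∈ kostantForm := by
  obtain ⟨s, -, h2⟩ := dpow_PS_eq m i
  rw [h2, map_sum]
  exact sum_mem fun a _ => curU_dm_mem a

/-- Coefficients of the divided powers of the generating series of the currents. -/
def cZ (m i : ℕ) : UZ := ⟨curU (PowerSeries.coeff i (dpow PS m)), curU_PS_mem m i⟩

lemma cZ_eq (m i : ℕ) : ∃ s : Finset (ℕ →₀ ℕ), (∀ a, a ∈ s ↔ cnt a = m ∧ tot a = i) ∧
    cZ m i = ∑ a ∈ s, dmZ a := by
  obtain ⟨s, h1, h2⟩ := dpow_PS_eq m i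
  refine ⟨s, h1, Subtype.ext ?_⟩
  refine Eq.trans ?_ (map_sum kostantForm.subtype (fun a => dmZ a) s).symm
  change curU (PowerSeries.coeff i (dpow PS m)) = ∑ a ∈ s, curU (dm a)
  rw [h2, map_sum]

/-- Gordon's difference conditions at level `l` for the weight `(l - n) ω_0 + n ω_1`. -/
def GordonL (l n : ℕ) (a : ℕ →₀ ℕ) : Prop := a 0 + n ≤ l ∧ ∀ j, a j + a (j + 1) ≤ l

end Pool.Agent.Lib.MP_b2f51a_al
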