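import Pool.Agent.Lib.MP_b2f51a_al.Split.IndL
import Pool.Agent.Lib.MP_b2f51a_al.Embed

/-! The highest weight vectors in the Fock space of level `l` and the embedding of the irreducible
modules. -/

noncomputable section

namespace Pool.Agent.Lib.MP_b2f51a_al.Lv

open Finset

variable {l n : ℕ}

lemma JF_bv_eq_zero {s : Bool} {n : ℤ} {D : Finset (Ix l)}
    (h : ∀ r m, occ D ⟨!s, r, m⟩ → occ D ⟨s, r, m - n⟩) : JF l s n (bv D) = 0 := by
  rw [JF, lsum_apply_of (locFin_At s n) _ ∅, sum_empty]
  intro p hp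
  rw [At_bv, if_neg (fun hc => hc.2 (h _ _ hc.1))] at hp
  exact absurd rfl hp

lemma occ_empty (j : Ix l) : occ ∅ j ↔ j.m < 0 := by simp [occ]

lemma JF_vac (s : Bool) {n : ℤ} (hn : 0 ≤ n) : JF l s n (bv ∅) = 0 :=
  JF_bv_eq_zero fun r m h => by rw [occ_empty] at h ⊢; simp only at h ⊢; omega

lemma hg_one : (fockRep l).hg 1 = Dg (chg true) := by
  obtain ⟨c, hc⟩ := scalar_of_cm (cm (JF l true 0) (JF l false 0) - Dg (chg true))
    (by
      rintro ⟨s, r, m⟩
      cases s <;> simp [cm_sub_left, cm_cm_left, cm_JF_psi, cm_Dg_psi, chg])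
    (by
      rintro ⟨s, r, m⟩
      cases s <;> simp [cm_sub_left, cm_cm_left, cm_JF_psis, cm_Dg_psis, chg])
  have h1 := LinearMap.congr_fun hc (bv ∅)
  simp only [cm, LinearMap.sub_apply, Module.End.mul_apply, JF_vac _ le_rfl, map_zero, Dg_vac,
    sub_self, LinearMap.smul_apply, Module.End.one_apply] at h1
  have h2 : c = 0 := (smul_eq_zero.1 h1.symm).resolve_right ((fb (Ix l)).ne_zero _)
  rw [h2, zero_smul, sub_eq_zero] at hc
  exact hc

lemma psi_psis_vac (j : Ix l) (hj : j.m < 0) : psi j (psis j (bv ∅)) = bv ∅ := by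
  have h1 : psi j (bv ∅) = 0 := by rw [psi_bv, if_pos ((occ_empty j).2 hj)]
  have := LinearMap.congr_fun (psi_psis j j) (bv ∅)
  simpa [h1] using this

lemma level_vac : JF l false 1 (JF l true (-1) (bv ∅)) = (l : ℂ) • bv ∅ := by
  have h1 : JF l true (-1) (bv ∅) = ∑ r : Fin l, At true r 0 (-1) (bv ∅) := by
    rw [JF, lsum_apply_of (locFin_At true (-1)) _ (univ.image fun r : Fin l => (r, (-1 : ℤ))),
      sum_image (by intro a _ b _ h; simpa using h)]
    · simp
    · rintro ⟨r, m⟩ hp
      rw [At_bv] at hp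
      have : m = -1 := by
        by_contra hc
        apply hp
        rw [if_neg]
        simp only [occ_empty]; omega
      simp [this]
  have h2 : ∀ r : Fin l, JF l false 1 (At true r 0 (-1) (bv ∅)) = bv ∅ := by
    intro r
    have e1 : cm (JF l false 1) (At true r 0 (-1)) =
        psi ⟨false, r, -1⟩ * psis ⟨false, r, -1⟩ - psi ⟨true, r, 0⟩ * psis ⟨true, r, 0⟩ := by
      rw [At, cm_mul_right, cm_JF_psi, cm_JF_psis]; simp [sub_eq_add_neg]
    have e2 := LinearMap.congr_fun e1 (bv ∅)
    have e3 : psis ⟨true, r, 0⟩ (bv ∅) = 0 := by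
      rw [psis_bv, if_neg (by simp [occ_empty])]
    simpa [cm, JF_vac false (show (0 : ℤ) ≤ 1 by norm_num), e3,
      psi_psis_vac ⟨false, r, -1⟩ (by simp)] using e2
  rw [h1, map_sum]
  simp only [h2, sum_const, card_univ, Fintype.card_fin]
  rw [← Nat.cast_smul_eq_nsmul ℂ]

lemma hg_zero : (fockRep l).hg 0 = (l : ℂ) • (1 : Module.End ℂ (Fk l)) - Dg (chg true) := by
  obtain ⟨c, hc⟩ := scalar_of_cm (cm (JF l false 1) (JF l true (-1)) + Dg (chg true))
    (by
      rintro ⟨s, r, m⟩
      cases s <;> simp [cm_add_left, cm_cm_left, cm_JF_psi, cm_Dg_psi, chg])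
    (by
      rintro ⟨s, r, m⟩
      cases s <;> simp [cm_add_left, cm_cm_left, cm_JF_psis, cm_Dg_psis, chg])
  have h1 := LinearMap.congr_fun hc (bv ∅)
  simp only [cm, LinearMap.add_apply, LinearMap.sub_apply, Module.End.mul_apply,
    JF_vac false (show (0 : ℤ) ≤ 1 by norm_num), map_zero, Dg_vac, level_vac, sub_zero, add_zero,
    LinearMap.smul_apply, Module.End.one_apply] at h1
  have h2 : (l : ℂ) = c := smul_left_injective ℂ ((fb (Ix l)).ne_zero _) h1
  rw [← h2, ← eq_sub_iff_add_eq] at hc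
  exact hc

lemma wtV_bv (D : Finset (Ix l)) :
    (fockRep l).WtV ![(l : ℤ) - swt (chg true) D, swt (chg true) D] (bv D) := by
  intro i
  fin_cases i
  · simp [hg_zero, Dg_bv, sub_smul]
  · simp [hg_one, Dg_bv]

lemma wtV_nu (hn : n ≤ l) : (fockRep l).WtV (wt l n) (bv (Dnu l n)) := by
  have := wtV_bv (Dnu l n)
  have e : swt (chg true) (Dnu l n) = n := by
    rw [swt, Dnu, sum_image (by intro a _ b _ h; simpa using h)]
    simp [chg, card_ge n hn]
  rw [e] at this
  simpa [wt] using this

lemma hw_nu (hn : n ≤ l) : IsHW (fockRep l).rho (wt l n) (bv (Dnu l n)) where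
  e i := by
    rw [LoopRep.rho_e]
    fin_cases i
    · refine JF_bv_eq_zero (s := false) fun r m h => ?_
      rw [Bool.not_false, occ_Dnu_true] at h
      rw [occ_Dnu_false]; omega
    · refine JF_bv_eq_zero (s := true) fun r m h => ?_
      rw [Bool.not_true, occ_Dnu_false] at h
      rw [occ_Dnu_true]; omega
  h i := by rw [LoopRep.rho_h]; exact wtV_nu hn i

lemma ip_bv_self (D : Finset (Ix l)) : ip (bv D) (bv D) = 1 := by
  rw [ip_bv_left, bv_apply, if_pos rfl]

lemma adj_rho (i : Fin 2) : Adj ((fockRep l).rho (e i)) ((fockRep l).rho (f i)) := by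
  rw [LoopRep.rho_e, LoopRep.rho_f]; exact adj_eg i

/-- The Fock space as a `U`-module. -/
def RM (l : ℕ) : Type := Fk l

instance : AddCommGroup (RM l) := inferInstanceAs (AddCommGroup (Fk l))

instance : Module U (RM l) := Module.compHom (Fk l) (fockRep l).rho.toRingHom

variable {lam : Fin 2 → ℤ} {v : (Fk l)}

/-- The map from the Verma module. -/
def phi0 (hv : IsHW (fockRep l).rho lam v) : Verma lam →ₗ[U] (RM l) :=
  liftOne (N := RM l) (vermaIdeal lam) v (by
    have : vermaIdeal lam ≤ LinearMap.ker (LinearMap.toSpanSingleton U (RM l) v) := by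
      rw [vermaIdeal, Submodule.span_le]
      rintro u ⟨i, rfl | rfl⟩
      · exact hv.e i
      · change (fockRep l).rho (h i - (lam i : U)) v = 0
        rw [map_sub, map_intCast, LinearMap.sub_apply, hv.h, Module.End.intCast_apply,
          Int.cast_smul_eq_zsmul, sub_self]
    exact fun u hu => this hu)

/-- The same map with values in the Fock space. -/
def phi1 (hv : IsHW (fockRep l).rho lam v) (x : Verma lam) : (Fk l) := phi0 hv x

lemma phi1_smul (hv : IsHW (fockRep l).rho lam v) (u : U) (x : Verma lam) :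
    phi1 hv (u • x) = (fockRep l).rho u (phi1 hv x) := map_smul (phi0 hv) u x

lemma phi1_add (hv : IsHW (fockRep l).rho lam v) (x y : Verma lam) :
    phi1 hv (x + y) = phi1 hv x + phi1 hv y := map_add (phi0 hv) x y

lemma phi1_csmul (hv : IsHW (fockRep l).rho lam v) (c : ℂ) (x : Verma lam) :
    phi1 hv (c • x) = c • phi1 hv x := by
  rw [← algebraMap_smul U, phi1_smul, AlgHom.commutes, Module.algebraMap_end_apply]

lemma phi1_one (hv : IsHW (fockRep l).rho lam v) : phi1 hv (vone lam) = v :=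
  liftOne_one (N := RM l) _ _ _

lemma ip_lower (hv : IsHW (fockRep l).rho lam v) {x : Verma lam} 
    (hx : x ∈ lowerPart (Verma lam)) : ip v (phi1 hv x) = 0 := by
  induction hx using AddSubgroup.closure_induction with
  | mem x hx =>
    obtain ⟨i, m, rfl⟩ := hx
    rw [phi1_smul, ← adj_rho, hv.e, ip_zero_left]
  | zero => exact (congrArg (ip v) (map_zero (phi0 hv))).trans (ip_zero_right v)
  | add x y _ _ hx hy => rw [phi1_add, ip_add_right, hx, hy, add_zero]
  | neg x _ hx => rw [← neg_one_smul ℂ x, phi1_csmul, ip_smul_right, hx, mul_zero]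

lemma ker_phi0 (hv : IsHW (fockRep l).rho lam v) (h1 : ip v v = 1) :
    LinearMap.ker (phi0 hv) = maxSub (Verma lam) := by
  apply le_antisymm
  · refine le_sSup fun x hx => ?_
    obtain ⟨a, ha, b, hb, rfl⟩ := Submodule.mem_sup.1 (verma_decomp lam x)
    obtain ⟨c, rfl⟩ := Submodule.mem_span_singleton.1 ha
    have h2 : phi1 hv (c • vone lam + b) = 0 := hx
    have h3 := congrArg (ip v) h2
    rw [phi1_add, phi1_csmul, phi1_one, ip_add_right, ip_smul_right, h1, ip_lower hv hb,
      ip_zero_right, mul_one, add_zero] at h3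
    rw [h3, zero_smul, zero_add]; exact hb
  · refine sSup_le fun N hN x hx => ?_
    have key : ∀ j, ∀ m ∈ Hw (act (Verma lam)) (vone lam) j, ∀ x ∈ N,
        ip (phi1 hv m) (phi1 hv x) = 0 := by
      let P : Submodule ℂ (Verma lam) :=
        { carrier := {m | ∀ x ∈ N, ip (phi1 hv m) (phi1 hv x) = 0}
          zero_mem' := fun x _ =>
            (congrArg (fun z => ip z (phi1 hv x)) (map_zero (phi0 hv))).trans (ip_zero_left _)
          add_mem' := fun {a b} ha hb x hx => by
            rw [phi1_add, ip_add_left, ha x hx, hb x hx, add_zero]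
          smul_mem' := fun c a ha x hx => by rw [phi1_csmul, ip_smul_left, ha x hx, mul_zero] }
      intro j
      induction j with
      | zero =>
        intro m hm x hx
        obtain ⟨c, rfl⟩ := Submodule.mem_span_singleton.1 hm
        rw [phi1_csmul, phi1_one, ip_smul_left, ip_lower hv (hN x hx), mul_zero]
      | succ j ih =>
        refine Hw_ind (X := LinearMap.id) (P := P) _ ih fun i m hm x hx => ?_
        change ip (phi1 hv (f i • m)) _ = 0
        rw [phi1_smul, (adj_rho i).symm, ← phi1_smul]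
        exact ih m hm _ (N.smul_mem _ hx)
    obtain ⟨j, hj⟩ := verma_Hw lam x
    exact ip_self_eq_zero (key j x hj x hx)

/-- The map from the irreducible module. -/
def phi2 (hv : IsHW (fockRep l).rho lam v) (h1 : ip v v = 1) : L lam →ₗ[U] (RM l) :=
  (maxSub (Verma lam)).liftQ (phi0 hv) (ker_phi0 hv h1).ge

/-- The same map with values in the Fock space. -/
def phi3 (hv : IsHW (fockRep l).rho lam v) (h1 : ip v v = 1) (x : L lam) : (Fk l) := phi2 hv h1 x

lemma phi3_smul (hv : IsHW (fockRep l).rho lam v) (h1 : ip v v = 1) (u : U) (x : L lam) :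
    phi3 hv h1 (u • x) = (fockRep l).rho u (phi3 hv h1 x) := map_smul (phi2 hv h1) u x

lemma phi3_add (hv : IsHW (fockRep l).rho lam v) (h1 : ip v v = 1) (x y : L lam) :
    phi3 hv h1 (x + y) = phi3 hv h1 x + phi3 hv h1 y := map_add (phi2 hv h1) x y

lemma phi3_csmul (hv : IsHW (fockRep l).rho lam v) (h1 : ip v v = 1) (c : ℂ) (x : L lam) :
    phi3 hv h1 (c • x) = c • phi3 hv h1 x := by
  rw [← algebraMap_smul U, phi3_smul, AlgHom.commutes, Module.algebraMap_end_apply]

lemma phi3_inj (hv : IsHW (fockRep l).rho lam v) (h1 : ip v v = 1) :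
    Function.Injective (phi3 hv h1) :=
  (LinearMap.ker_eq_bot (f := phi2 hv h1)).1
    (Submodule.ker_liftQ_eq_bot _ _ _ (ker_phi0 hv h1).le)

theorem exists_embed (hv : IsHW (fockRep l).rho lam v) (h1 : ip v v = 1) :
    ∃ Φ : L lam →ₗ[ℂ] (Fk l), (∀ (u : U) x, Φ (u • x) = (fockRep l).rho u (Φ x)) ∧ Φ (hwv lam) = v ∧
      Function.Injective Φ :=
  ⟨{ toFun := phi3 hv h1
     map_add' := phi3_add hv h1
     map_smul' := phi3_csmul hv h1 }, phi3_smul hv h1, phi1_one hv, phi3_inj hv h1⟩

end Pool.Agent.Lib.MP_b2f51a_al.Lv
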